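import Mathlib

/-!
# abc over the Gaussian integers: norms, boxes, packing
-/

namespace Pool.Agent.W17.AB

open Finset

/-- the Gaussian integers -/
abbrev Gi := GaussianInt

/-- the embedding -/
noncomputable abbrev φ (x : Gi) : ℂ := GaussianInt.toComplex x

/-- the norm as a natural number -/
def nm (x : Gi) : ℕ := x.norm.natAbs

theorem nm_mul (x y : Gi) : nm (x * y) = nm x * nm y := by
  unfold nm
  rw [Zsqrtd.norm_mul, Int.natAbs_mul]

theorem nm_one : nm 1 = 1 := by simp [nm]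

theorem nm_zero : nm 0 = 0 := by simp [nm]

theorem nm_neg (x : Gi) : nm (-x) = nm x := by
  unfold nm
  rw [Zsqrtd.norm_neg]

theorem nm_pos {x : Gi} (hx : x ≠ 0) : 0 < nm x := by
  unfold nm
  have := GaussianInt.norm_pos.2 hx
  omega

theorem nm_eq_zero {x : Gi} : nm x = 0 ↔ x = 0 := by
  constructor
  · intro h
    by_contra hx
    have := nm_pos hx
    omega
  · rintro rfl
    exact nm_zero

theorem nm_pow (x : Gi) (n : ℕ) : nm (x ^ n) = nm x ^ n := by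
  induction n with
  | zero => simp [nm_one]
  | succ n ih => rw [pow_succ, pow_succ, nm_mul, ih]

/-- the norm as a monoid homomorphism -/
def nmH : Gi →* ℕ where
  toFun := nm
  map_one' := nm_one
  map_mul' := nm_mul

theorem nm_prod {ι : Type*} (s : Finset ι) (f : ι → Gi) :
    nm (∏ i ∈ s, f i) = ∏ i ∈ s, nm (f i) := map_prod nmH f s

theorem nm_real (x : Gi) : (nm x : ℝ) = ‖φ x‖ ^ 2 := by
  unfold nm φ
  rw [GaussianInt.natCast_natAbs_norm, GaussianInt.intCast_real_norm, Complex.normSq_eq_norm_sq]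

theorem nm_dvd {x y : Gi} (h : x ∣ y) : nm x ∣ nm y := by
  obtain ⟨z, rfl⟩ := h
  exact ⟨nm z, nm_mul _ _⟩

theorem nm_le_of_dvd {x y : Gi} (hy : y ≠ 0) (h : x ∣ y) : nm x ≤ nm y :=
  Nat.le_of_dvd (nm_pos hy) (nm_dvd h)

theorem nm_unit {x : Gi} (h : IsUnit x) : nm x = 1 := by
  have h1 := nm_dvd h.dvd (y := 1) |> fun h => h
  rw [nm_one] at h1
  exact Nat.dvd_one.1 h1

theorem isUnit_of_nm {x : Gi} (h : nm x = 1) : IsUnit x := by
  rw [Zsqrtd.isUnit_iff_norm_isUnit, Int.isUnit_iff_natAbs_eq]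
  exact h

theorem nm_assoc {x y : Gi} (h : Associated x y) : nm x = nm y :=
  Nat.dvd_antisymm (nm_dvd h.dvd) (nm_dvd h.symm.dvd)

theorem φ_ne {x : Gi} (hx : x ≠ 0) : φ x ≠ 0 := by
  intro h
  exact hx (GaussianInt.toComplex_eq_zero.1 h)

theorem φ_mul (x y : Gi) : φ (x * y) = φ x * φ y := GaussianInt.toComplex_mul x y

theorem φ_sub (x y : Gi) : φ (x - y) = φ x - φ y := GaussianInt.toComplex_sub x y

theorem φ_add (x y : Gi) : φ (x + y) = φ x + φ y := GaussianInt.toComplex_add x y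

theorem φ_neg (x : Gi) : φ (-x) = -φ x := GaussianInt.toComplex_neg x

theorem φ_pow (x : Gi) (n : ℕ) : φ (x ^ n) = φ x ^ n := map_pow GaussianInt.toComplex x n

theorem nm_val (x : Gi) : (nm x : ℤ) = x.re ^ 2 + x.im ^ 2 := by
  unfold nm
  rw [GaussianInt.abs_natCast_norm, Zsqrtd.norm_def]
  ring

/-- nonzero Gaussian integers of norm at most `N` -/
noncomputable def bx (N : ℕ) : Finset Gi := by
  classical
  exact ((Icc (-(N.sqrt : ℤ)) N.sqrt ×ˢ Icc (-(N.sqrt : ℤ)) N.sqrt).image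
    fun p => (⟨p.1, p.2⟩ : Gi)).filter fun x => x ≠ 0 ∧ nm x ≤ N

theorem abs_le_sqrt {a : ℤ} {N : ℕ} (h : a ^ 2 ≤ N) : -(N.sqrt : ℤ) ≤ a ∧ a ≤ N.sqrt := by
  have h1 : a.natAbs ≤ N.sqrt := by
    rw [Nat.le_sqrt]
    have : ((a.natAbs * a.natAbs : ℕ) : ℤ) = a ^ 2 := by
      push_cast
      rw [← sq, sq_abs]
    zify
    rw [← sq, sq_abs]
    exact h
  omega

theorem mem_bx {N : ℕ} {x : Gi} : x ∈ bx N ↔ x ≠ 0 ∧ nm x ≤ N := by
  classical
  unfold bx
  rw [mem_filter, and_iff_right_iff_imp]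
  rintro ⟨-, h⟩
  have h1 := nm_val x
  have h2 : (nm x : ℤ) ≤ N := by exact_mod_cast h
  have h3 : x.re ^ 2 ≤ N := by nlinarith [sq_nonneg x.im]
  have h4 : x.im ^ 2 ≤ N := by nlinarith [sq_nonneg x.re]
  refine mem_image.2 ⟨(x.re, x.im), mem_product.2 ⟨mem_Icc.2 (abs_le_sqrt h3),
    mem_Icc.2 (abs_le_sqrt h4)⟩, ?_⟩
  exact Zsqrtd.ext rfl rfl

theorem card_bx (N : ℕ) : (bx N).card ≤ 9 * N := by
  classical
  rcases Nat.eq_zero_or_pos N with h0 | h0
  · subst h0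
    have : bx 0 = ∅ := by
      ext x
      rw [mem_bx]
      constructor
      · rintro ⟨h1, h2⟩
        have := nm_pos h1
        omega
      · intro h
        simp at h
    rw [this]
    simp
  have h1 : (bx N).card ≤ (2 * N.sqrt + 1) * (2 * N.sqrt + 1) := by
    unfold bx
    refine (card_filter_le _ _).trans (card_image_le.trans ?_)
    rw [card_product, Int.card_Icc]
    apply le_of_eq
    congr 1 <;> omega
  have h2 : 1 ≤ N.sqrt := by
    rw [Nat.le_sqrt]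
    omega
  have h3 : N.sqrt * N.sqrt ≤ N := Nat.sqrt_le N
  nlinarith

theorem card_bx_real (N : ℕ) : ((bx N).card : ℝ) ≤ 9 * N := by exact_mod_cast card_bx N

/-- at most nine units -/
theorem card_units (P : Finset Gi) (h : ∀ x ∈ P, IsUnit x) : P.card ≤ 9 := by
  have h1 : P ⊆ bx 1 := by
    intro x hx
    rw [mem_bx]
    exact ⟨(h x hx).ne_zero, (nm_unit (h x hx)).le⟩
  exact (card_le_card h1).trans (card_bx 1)

/-- pairwise associated elements -/
theorem card_assoc (P : Finset Gi) (h : ∀ x ∈ P, ∀ y ∈ P, Associated x y) : P.card ≤ 9 := by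
  classical
  rcases P.eq_empty_or_nonempty with h0 | ⟨x0, hx0⟩
  · rw [h0]; simp
  have hex : ∀ x : Gi, ∃ u : Gi, x ∈ P → IsUnit u ∧ x0 * u = x := by
    intro x
    by_cases hx : x ∈ P
    · obtain ⟨u, hu⟩ := h x0 hx0 x hx
      exact ⟨u, fun _ => ⟨u.isUnit, hu⟩⟩
    · exact ⟨0, fun h => absurd h hx⟩
  choose u hu using hex
  have h1 : (P.image u).card = P.card := by
    apply card_image_of_injOn
    intro x hx y hy hxy
    rw [← (hu x hx).2, ← (hu y hy).2, hxy]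
  rw [← h1]
  apply card_units
  intro z hz
  obtain ⟨x, hx, rfl⟩ := mem_image.1 hz
  exact (hu x hx).1

/-- packing in the plane -/
theorem packing (Z : Finset ℂ) (z0 : ℂ) (r s : ℝ) (hs : 0 < s) (hr : 0 ≤ r)
    (hZ : ∀ z ∈ Z, ‖z - z0‖ ≤ r) (hsep : ∀ z ∈ Z, ∀ z' ∈ Z, z ≠ z' → s ≤ ‖z - z'‖) :
    (Z.card : ℝ) ≤ 18 + 32 * (r / s) ^ 2 := by
  classical
  set g : ℂ → ℤ × ℤ := fun z => (⌊(z.re - z0.re) * (2 / s)⌋, ⌊(z.im - z0.im) * (2 / s)⌋) with hg
  have h2s : 0 < 2 / s := by positivity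
  have hinj : Set.InjOn g Z := by
    intro z hz z' hz' h
    by_contra hne
    have h1 := hsep z hz z' hz' hne
    simp only [hg, Prod.mk.injEq] at h
    have h3 := Int.abs_sub_lt_one_of_floor_eq_floor h.1
    have h4 := Int.abs_sub_lt_one_of_floor_eq_floor h.2
    have h5 : |z.re - z'.re| * (2 / s) < 1 := by
      have e : (z.re - z'.re) * (2 / s) = (z.re - z0.re) * (2 / s) - (z'.re - z0.re) * (2 / s) := by
        ring
      rw [← e, abs_mul, abs_of_pos h2s] at h3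
      exact h3
    have h6 : |z.im - z'.im| * (2 / s) < 1 := by
      have e : (z.im - z'.im) * (2 / s) = (z.im - z0.im) * (2 / s) - (z'.im - z0.im) * (2 / s) := by
        ring
      rw [← e, abs_mul, abs_of_pos h2s] at h4
      exact h4
    have h7 : |z.re - z'.re| < s / 2 := by
      rw [← lt_div_iff₀ h2s] at h5
      rwa [one_div_div] at h5
    have h8 : |z.im - z'.im| < s / 2 := by
      rw [← lt_div_iff₀ h2s] at h6
      rwa [one_div_div] at h6
    have h9 := Complex.norm_le_abs_re_add_abs_im (z - z')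
    rw [Complex.sub_re, Complex.sub_im] at h9
    linarith
  set M : ℕ := ⌈2 * r / s⌉₊ with hM
  have hM1 : 2 * r / s ≤ M := Nat.le_ceil _
  have hM2 : (M : ℝ) < 2 * r / s + 1 := Nat.ceil_lt_add_one (by positivity)
  have hmaps : ∀ z ∈ Z, g z ∈ Icc (-(M : ℤ)) M ×ˢ Icc (-(M : ℤ)) M := by
    intro z hz
    have h1 := hZ z hz
    have h2 : |z.re - z0.re| ≤ r := by
      have := Complex.abs_re_le_norm (z - z0)
      rw [Complex.sub_re] at this
      exact this.trans h1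
    have h3 : |z.im - z0.im| ≤ r := by
      have := Complex.abs_im_le_norm (z - z0)
      rw [Complex.sub_im] at this
      exact this.trans h1
    have key : ∀ a : ℝ, |a| ≤ r → ⌊a * (2 / s)⌋ ∈ Icc (-(M : ℤ)) M := by
      intro a ha
      rw [abs_le] at ha
      have h4 : a * (2 / s) ≤ M := by
        calc a * (2 / s) ≤ r * (2 / s) := mul_le_mul_of_nonneg_right ha.2 h2s.le
          _ = 2 * r / s := by ring
          _ ≤ M := hM1
      have h5 : -(M : ℝ) ≤ a * (2 / s) := by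
        calc -(M : ℝ) ≤ -(2 * r / s) := neg_le_neg hM1
          _ = (-r) * (2 / s) := by ring
          _ ≤ a * (2 / s) := mul_le_mul_of_nonneg_right ha.1 h2s.le
      rw [mem_Icc]
      constructor
      · rw [Int.le_floor]
        push_cast
        exact h5
      · have : (⌊a * (2 / s)⌋ : ℝ) ≤ M := (Int.floor_le _).trans h4
        exact_mod_cast this
    exact mem_product.2 ⟨key _ h2, key _ h3⟩
  have hcard := card_le_card_of_injOn g hmaps hinj
  rw [card_product, Int.card_Icc] at hcard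
  have h1 : ((M : ℤ) + 1 - (-(M : ℤ))).toNat = 2 * M + 1 := by omega
  rw [h1] at hcard
  have h2 : (Z.card : ℝ) ≤ (2 * (M : ℝ) + 1) * (2 * M + 1) := by exact_mod_cast hcard
  refine h2.trans ?_
  have h3 : 2 * (M : ℝ) + 1 ≤ 4 * (r / s) + 3 := by
    have : 2 * r / s = 2 * (r / s) := by ring
    linarith
  have hM0 : (0 : ℝ) ≤ M := Nat.cast_nonneg _
  have h4 : (2 * (M : ℝ) + 1) * (2 * M + 1) ≤ (4 * (r / s) + 3) * (4 * (r / s) + 3) :=
    mul_le_mul h3 h3 (by positivity) (by linarith)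
  nlinarith [sq_nonneg (4 * (r / s) - 3)]

/-- points on a line through the origin modulo `f` -/
theorem lattice (P : Finset (Gi × Gi)) {f : Gi} (hf : f ≠ 0) (z0 : ℂ) (r Y : ℝ) (hr : 0 ≤ r)
    (hY : 0 < Y) (hP : ∀ t ∈ P, t.1 ≠ 0 ∧ t.2 ≠ 0 ∧ IsCoprime t.1 t.2 ∧ (nm t.2 : ℝ) ≤ Y ∧
      ‖φ t.1 / φ t.2 - z0‖ ≤ r)
    (hdvd : ∀ t ∈ P, ∀ t' ∈ P, f ∣ t.1 * t'.2 - t'.1 * t.2) :
    (P.card : ℝ) ≤ 9 * (18 + 32 * (r ^ 2 * Y ^ 2 / nm f)) := by
  classical
  set sl : Gi × Gi → ℂ := fun t => φ t.1 / φ t.2 with hsl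
  have hfib : ∀ z ∈ P.image sl, (P.filter fun t => sl t = z).card ≤ 9 := by
    intro z _
    set Q := P.filter fun t => sl t = z with hQ
    have hinj : Set.InjOn Prod.fst (Q : Set (Gi × Gi)) := by
      intro t ht t' ht' h
      rw [mem_coe, hQ, mem_filter] at ht ht'
      obtain ⟨ht, h1⟩ := ht
      obtain ⟨ht', h1'⟩ := ht'
      obtain ⟨a1, a2, -⟩ := hP t ht
      obtain ⟨b1, b2, -⟩ := hP t' ht'
      refine Prod.ext h ?_
      have h2 : φ t.1 / φ t.2 = φ t'.1 / φ t'.2 := h1.trans h1'.symm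
      rw [div_eq_div_iff (φ_ne a2) (φ_ne b2), h] at h2
      have h3 := mul_left_cancel₀ (φ_ne b1) h2
      exact (GaussianInt.toComplex_injective h3).symm
    rw [← card_image_of_injOn hinj]
    apply card_assoc
    intro x hx y hy
    obtain ⟨t, ht, rfl⟩ := mem_image.1 hx
    obtain ⟨t', ht', rfl⟩ := mem_image.1 hy
    rw [hQ, mem_filter] at ht ht'
    obtain ⟨ht, h1⟩ := ht
    obtain ⟨ht', h1'⟩ := ht'
    obtain ⟨a1, a2, a3, -⟩ := hP t ht
    obtain ⟨b1, b2, b3, -⟩ := hP t' ht'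
    have h2 : φ t.1 / φ t.2 = φ t'.1 / φ t'.2 := h1.trans h1'.symm
    rw [div_eq_div_iff (φ_ne a2) (φ_ne b2), ← φ_mul, ← φ_mul] at h2
    have h3 := GaussianInt.toComplex_injective h2
    refine associated_of_dvd_dvd ?_ ?_
    · exact a3.dvd_of_dvd_mul_right ⟨t'.2, h3.symm⟩
    · exact b3.dvd_of_dvd_mul_right ⟨t.2, h3⟩
  have h1 : P.card ≤ 9 * (P.image sl).card := card_le_mul_card_image P 9 hfib
  have hf0 : (0 : ℝ) < nm f := by exact_mod_cast nm_pos hf
  have hs : 0 < Real.sqrt (nm f) / Y := div_pos (Real.sqrt_pos.2 hf0) hY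
  have h2 := packing (P.image sl) z0 r (Real.sqrt (nm f) / Y) hs hr (by
    intro z hz
    obtain ⟨t, ht, rfl⟩ := mem_image.1 hz
    exact (hP t ht).2.2.2.2) (by
    intro z hz z' hz' hne
    obtain ⟨t, ht, rfl⟩ := mem_image.1 hz
    obtain ⟨t', ht', rfl⟩ := mem_image.1 hz'
    obtain ⟨a1, a2, a3, a4, -⟩ := hP t ht
    obtain ⟨b1, b2, b3, b4, -⟩ := hP t' ht'
    have e1 : sl t - sl t' = φ (t.1 * t'.2 - t'.1 * t.2) / (φ t.2 * φ t'.2) := by
      simp only [hsl]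
      rw [φ_sub, φ_mul, φ_mul, div_sub_div _ _ (φ_ne a2) (φ_ne b2)]
      ring
    have e2 : t.1 * t'.2 - t'.1 * t.2 ≠ 0 := by
      intro h
      rw [h] at e1
      apply hne
      rw [← sub_eq_zero, e1]
      simp [φ]
    have e3 := nm_le_of_dvd e2 (hdvd t ht t' ht')
    have e4 : Real.sqrt (nm f) ≤ ‖φ (t.1 * t'.2 - t'.1 * t.2)‖ := by
      rw [Real.sqrt_le_left (norm_nonneg _), ← nm_real]
      exact_mod_cast e3
    have e5 : ‖φ t.2‖ * ‖φ t'.2‖ ≤ Y := by
      have c1 : ‖φ t.2‖ ^ 2 ≤ Y := by rw [← nm_real]; exact a4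
      have c2 : ‖φ t'.2‖ ^ 2 ≤ Y := by rw [← nm_real]; exact b4
      nlinarith [sq_nonneg (‖φ t.2‖ - ‖φ t'.2‖)]
    have e6 : 0 < ‖φ t.2‖ * ‖φ t'.2‖ :=
      mul_pos (norm_pos_iff.2 (φ_ne a2)) (norm_pos_iff.2 (φ_ne b2))
    rw [e1, norm_div, norm_mul]
    calc Real.sqrt (nm f) / Y ≤ Real.sqrt (nm f) / (‖φ t.2‖ * ‖φ t'.2‖) :=
          div_le_div_of_nonneg_left (Real.sqrt_nonneg _) e6 e5
      _ ≤ _ := div_le_div_of_nonneg_right e4 e6.le)
  have h3 : (r / (Real.sqrt (nm f) / Y)) ^ 2 = r ^ 2 * Y ^ 2 / nm f := by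
    rw [div_pow, div_pow, Real.sq_sqrt hf0.le]
    field_simp
  rw [h3] at h2
  have h4 : (P.card : ℝ) ≤ 9 * ((P.image sl).card : ℝ) := by exact_mod_cast h1
  linarith

end Pool.Agent.W17.AB
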