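import Mathlib
import Pool.Agent.W17.AB.Base
import Pool.Agent.H785R2.ABC.A12

/-!
# abc over the Gaussian integers: factorisation
-/

namespace Pool.Agent.W17.AB

open Finset UniqueFactorizationMonoid
open Pool.Agent.H785R2.ABC (cls Good)

noncomputable local instance instNM : StrongNormalizationMonoid Gi :=
  UniqueFactorizationMonoid.strongNormalizationMonoid

noncomputable local instance instDec : DecidableEq Gi := Classical.decEq _

/-- the multiset of normalised prime factors -/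
noncomputable def fa (x : Gi) : Multiset Gi := normalizedFactors x

/-- the set of normalised prime factors -/
noncomputable def pfs (x : Gi) : Finset Gi := (fa x).toFinset

/-- multiplicity -/
noncomputable def vv (x p : Gi) : ℕ := (fa x).count p

/-- normalised primes -/
def NP (p : Gi) : Prop := Prime p ∧ normalize p = p

theorem mem_pfs {x p : Gi} : p ∈ pfs x ↔ p ∈ fa x := Multiset.mem_toFinset

theorem np_of_mem {x p : Gi} (h : p ∈ pfs x) : NP p := by
  rw [mem_pfs] at h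
  exact ⟨prime_of_normalized_factor p h, normalize_normalized_factor p h⟩

theorem dvd_of_mem {x p : Gi} (h : p ∈ pfs x) : p ∣ x :=
  dvd_of_mem_normalizedFactors (mem_pfs.1 h)

theorem vv_pos {x p : Gi} (h : p ∈ pfs x) : 1 ≤ vv x p :=
  Multiset.one_le_count_iff_mem.2 (mem_pfs.1 h)

theorem two_le_nm {p : Gi} (h : Prime p) : 2 ≤ nm p := by
  have h1 := nm_pos h.ne_zero
  by_contra hc
  exact h.not_isUnit (isUnit_of_nm (by omega))

theorem mem_pfs_iff {x p : Gi} (hx : x ≠ 0) : p ∈ pfs x ↔ NP p ∧ p ∣ x := by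
  constructor
  · intro h
    exact ⟨np_of_mem h, dvd_of_mem h⟩
  · rintro ⟨⟨h1, h2⟩, h3⟩
    obtain ⟨q, hq, hpq⟩ := exists_mem_normalizedFactors_of_dvd hx h1.irreducible h3
    have h4 : p = q := by
      rw [← h2, ← normalize_normalized_factor q hq]
      exact normalize_eq_normalize hpq.dvd hpq.symm.dvd
    rw [mem_pfs, h4]
    exact hq

theorem exists_mem_of_dvd {x p : Gi} (hx : x ≠ 0) (hp : Prime p) (h : p ∣ x) :
    ∃ q ∈ pfs x, Associated p q := by
  obtain ⟨q, hq, hpq⟩ := exists_mem_normalizedFactors_of_dvd hx hp.irreducible h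
  exact ⟨q, mem_pfs.2 hq, hpq⟩

theorem fa_mul {x y : Gi} (hx : x ≠ 0) (hy : y ≠ 0) : fa (x * y) = fa x + fa y :=
  normalizedFactors_mul hx hy

theorem fa_pow (x : Gi) (n : ℕ) : fa (x ^ n) = n • fa x := normalizedFactors_pow n

theorem fa_np {p : Gi} (h : NP p) : fa p = {p} := by
  unfold fa
  rw [normalizedFactors_irreducible h.1.irreducible, h.2]

theorem fa_prod_pow (W : Finset Gi) (hW : ∀ p ∈ W, NP p) (e : Gi → ℕ) :
    fa (∏ p ∈ W, p ^ e p) = ∑ p ∈ W, e p • ({p} : Multiset Gi) := by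
  induction W using Finset.induction_on with
  | empty => simp [fa]
  | insert a W ha ih =>
    have h1 := hW a (mem_insert_self _ _)
    rw [prod_insert ha, sum_insert ha, fa_mul (pow_ne_zero _ h1.1.ne_zero)
      (prod_ne_zero_iff.2 fun p hp => pow_ne_zero _ (hW p (mem_insert_of_mem hp)).1.ne_zero),
      fa_pow, fa_np h1, ih fun p hp => hW p (mem_insert_of_mem hp)]

theorem vv_prod_pow (W : Finset Gi) (hW : ∀ p ∈ W, NP p) (e : Gi → ℕ) (q : Gi) :
    vv (∏ p ∈ W, p ^ e p) q = if q ∈ W then e q else 0 := by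
  unfold vv
  rw [fa_prod_pow W hW e, Multiset.count_sum']
  simp only [Multiset.count_nsmul, Multiset.count_singleton, mul_ite, mul_one, mul_zero]
  rw [Finset.sum_ite_eq]

theorem pfs_prod_pow (W : Finset Gi) (hW : ∀ p ∈ W, NP p) (e : Gi → ℕ) (he : ∀ p ∈ W, 1 ≤ e p) :
    pfs (∏ p ∈ W, p ^ e p) = W := by
  ext q
  rw [mem_pfs, ← Multiset.one_le_count_iff_mem]
  have := vv_prod_pow W hW e q
  unfold vv at this
  rw [this]
  constructor
  · intro h
    by_contra hq
    rw [if_neg hq] at h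
    omega
  · intro h
    rw [if_pos h]
    exact he q h

theorem prod_pow_ne (W : Finset Gi) (hW : ∀ p ∈ W, NP p) (e : Gi → ℕ) :
    ∏ p ∈ W, p ^ e p ≠ 0 := prod_ne_zero_iff.2 fun p hp => pow_ne_zero _ (hW p hp).1.ne_zero

theorem fa_prod_eq (x : Gi) : (fa x).prod = ∏ p ∈ pfs x, p ^ vv x p := by
  unfold pfs vv
  rw [Finset.prod_multiset_count]

theorem exists_unit (x : Gi) : ∃ u : Gi, IsUnit u ∧ (x ≠ 0 → x = u * ∏ p ∈ pfs x, p ^ vv x p) := by
  by_cases hx : x = 0
  · exact ⟨1, isUnit_one, fun h => absurd hx h⟩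
  · obtain ⟨u, hu⟩ := prod_normalizedFactors hx
    refine ⟨u, u.isUnit, fun _ => ?_⟩
    rw [← fa_prod_eq, mul_comm]
    exact hu.symm

/-- the unit of `x` -/
noncomputable def un (x : Gi) : Gi := Classical.choose (exists_unit x)

theorem un_isUnit (x : Gi) : IsUnit (un x) := (Classical.choose_spec (exists_unit x)).1

theorem un_mul {x : Gi} (hx : x ≠ 0) : un x * ∏ p ∈ pfs x, p ^ vv x p = x :=
  ((Classical.choose_spec (exists_unit x)).2 hx).symm

/-- primes of `x` whose exponent has class in `S` -/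
noncomputable def pfg (K : ℕ) (x : Gi) (S : Finset (Fin (K + 1))) : Finset Gi :=
  (pfs x).filter fun p => cls K (vv x p) ∈ S

/-- product of the primes of `x` whose exponent has class in `S` -/
noncomputable def rdg (K : ℕ) (x : Gi) (S : Finset (Fin (K + 1))) : Gi := ∏ p ∈ pfg K x S, p

/-- part of `x` made of the primes whose exponent has class in `S` -/
noncomputable def ptg (K : ℕ) (x : Gi) (S : Finset (Fin (K + 1))) : Gi :=
  ∏ p ∈ pfg K x S, p ^ vv x p

/-- the complementary part, with the unit -/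
noncomputable def cop (K : ℕ) (x : Gi) (S : Finset (Fin (K + 1))) : Gi := un x * ptg K x Sᶜ

/-- norm of `rdg` -/
noncomputable def rd (K : ℕ) (x : Gi) (S : Finset (Fin (K + 1))) : ℕ := nm (rdg K x S)

/-- norm of `ptg` -/
noncomputable def pt (K : ℕ) (x : Gi) (S : Finset (Fin (K + 1))) : ℕ := nm (ptg K x S)

/-- norm of the radical -/
noncomputable def rad (x : Gi) : ℕ := nm (∏ p ∈ pfs x, p)

variable {K : ℕ}

theorem mem_pfg {x : Gi} {S : Finset (Fin (K + 1))} {p : Gi} :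
    p ∈ pfg K x S ↔ p ∈ pfs x ∧ cls K (vv x p) ∈ S := mem_filter

theorem pfg_np {x : Gi} {S : Finset (Fin (K + 1))} {p : Gi} (h : p ∈ pfg K x S) : NP p :=
  np_of_mem (mem_pfg.1 h).1

theorem pfg_vv {x : Gi} {S : Finset (Fin (K + 1))} {p : Gi} (h : p ∈ pfg K x S) : 1 ≤ vv x p :=
  vv_pos (mem_pfg.1 h).1

theorem pfg_univ (x : Gi) : pfg K x univ = pfs x := by
  unfold pfg
  simp

theorem rdg_eq_pow (x : Gi) (S : Finset (Fin (K + 1))) :
    rdg K x S = ∏ p ∈ pfg K x S, p ^ 1 := by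
  unfold rdg
  simp

theorem rdg_ne (x : Gi) (S : Finset (Fin (K + 1))) : rdg K x S ≠ 0 :=
  prod_ne_zero_iff.2 fun _ hp => (pfg_np hp).1.ne_zero

theorem ptg_ne (x : Gi) (S : Finset (Fin (K + 1))) : ptg K x S ≠ 0 :=
  prod_pow_ne _ (fun _ hp => pfg_np hp) _

theorem cop_ne (x : Gi) (S : Finset (Fin (K + 1))) : cop K x S ≠ 0 :=
  mul_ne_zero (un_isUnit x).ne_zero (ptg_ne _ _)

theorem rd_pos (x : Gi) (S : Finset (Fin (K + 1))) : 1 ≤ rd K x S := nm_pos (rdg_ne x S)

theorem pt_pos (x : Gi) (S : Finset (Fin (K + 1))) : 1 ≤ pt K x S := nm_pos (ptg_ne x S)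

theorem rad_pos (x : Gi) : 1 ≤ rad x :=
  nm_pos (prod_ne_zero_iff.2 fun _ hp => (np_of_mem hp).1.ne_zero)

theorem part_mul_cop {x : Gi} (hx : x ≠ 0) (S : Finset (Fin (K + 1))) :
    ptg K x S * cop K x S = x := by
  conv_rhs => rw [← un_mul hx]
  unfold cop ptg pfg
  rw [← Finset.prod_filter_mul_prod_filter_not (pfs x) (fun p => cls K (vv x p) ∈ S)]
  have : (pfs x).filter (fun p => cls K (vv x p) ∈ Sᶜ) =
      (pfs x).filter (fun p => ¬ cls K (vv x p) ∈ S) := by
    ext p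
    simp
  rw [this]
  ring

theorem ptg_dvd {x : Gi} (hx : x ≠ 0) (S : Finset (Fin (K + 1))) : ptg K x S ∣ x :=
  ⟨cop K x S, (part_mul_cop hx S).symm⟩

theorem cop_dvd {x : Gi} (hx : x ≠ 0) (S : Finset (Fin (K + 1))) : cop K x S ∣ x :=
  ⟨ptg K x S, by rw [mul_comm]; exact (part_mul_cop hx S).symm⟩

theorem pt_le {x : Gi} (hx : x ≠ 0) (S : Finset (Fin (K + 1))) : pt K x S ≤ nm x :=
  nm_le_of_dvd hx (ptg_dvd hx S)

theorem nm_cop (x : Gi) (S : Finset (Fin (K + 1))) : nm (cop K x S) = pt K x Sᶜ := by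
  unfold cop
  rw [nm_mul, nm_unit (un_isUnit x), one_mul]
  rfl

theorem pt_univ {x : Gi} (hx : x ≠ 0) : pt K x univ = nm x := by
  conv_rhs => rw [← un_mul hx]
  unfold pt ptg
  rw [nm_mul, nm_unit (un_isUnit x), one_mul, pfg_univ]

theorem rd_univ (x : Gi) : rd K x univ = rad x := by
  unfold rd rad rdg
  rw [pfg_univ]

theorem pfs_ptg (x : Gi) (S : Finset (Fin (K + 1))) : pfs (ptg K x S) = pfg K x S :=
  pfs_prod_pow _ (fun _ hp => pfg_np hp) _ fun _ hp => pfg_vv hp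

theorem pfs_mul_unit {u x : Gi} (hu : IsUnit u) : pfs (u * x) = pfs x := by
  unfold pfs fa
  rw [Associated.normalizedFactors_eq (b := x)]
  exact (associated_unit_mul_left _ _ hu)

theorem rad_ptg (x : Gi) (S : Finset (Fin (K + 1))) : rad (ptg K x S) = rd K x S := by
  unfold rad rd rdg
  rw [pfs_ptg]

theorem rad_cop (x : Gi) (S : Finset (Fin (K + 1))) : rad (cop K x S) = rd K x Sᶜ := by
  unfold rad rd rdg cop
  rw [pfs_mul_unit (un_isUnit x), pfs_ptg]

theorem rdg_prod (x : Gi) (S : Finset (Fin (K + 1))) : rdg K x S = ∏ i ∈ S, rdg K x {i} := by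
  unfold rdg
  rw [← Finset.prod_fiberwise_of_maps_to (s := pfg K x S) (t := S)
    (g := fun p => cls K (vv x p)) (fun p hp => (mem_pfg.1 hp).2)]
  refine Finset.prod_congr rfl fun i hi => Finset.prod_congr ?_ fun _ _ => rfl
  ext p
  simp only [mem_filter, mem_pfg, mem_singleton]
  constructor
  · rintro ⟨⟨h1, _⟩, h3⟩
    exact ⟨h1, h3⟩
  · rintro ⟨h1, h3⟩
    exact ⟨⟨h1, h3 ▸ hi⟩, h3⟩

theorem ptg_prod (x : Gi) (S : Finset (Fin (K + 1))) : ptg K x S = ∏ i ∈ S, ptg K x {i} := by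
  unfold ptg
  rw [← Finset.prod_fiberwise_of_maps_to (s := pfg K x S) (t := S)
    (g := fun p => cls K (vv x p)) (fun p hp => (mem_pfg.1 hp).2)]
  refine Finset.prod_congr rfl fun i hi => Finset.prod_congr ?_ fun _ _ => rfl
  ext p
  simp only [mem_filter, mem_pfg, mem_singleton]
  constructor
  · rintro ⟨⟨h1, _⟩, h3⟩
    exact ⟨h1, h3⟩
  · rintro ⟨h1, h3⟩
    exact ⟨⟨h1, h3 ▸ hi⟩, h3⟩

theorem rd_prod (x : Gi) (S : Finset (Fin (K + 1))) : rd K x S = ∏ i ∈ S, rd K x {i} := by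
  unfold rd
  rw [rdg_prod, nm_prod]

theorem pt_prod (x : Gi) (S : Finset (Fin (K + 1))) : pt K x S = ∏ i ∈ S, pt K x {i} := by
  unfold pt
  rw [ptg_prod, nm_prod]

theorem ptg_single (x : Gi) (i : Fin (K + 1)) (hi : (i : ℕ) < K) :
    ptg K x {i} = rdg K x {i} ^ ((i : ℕ) + 1) := by
  unfold ptg rdg
  rw [← Finset.prod_pow]
  refine Finset.prod_congr rfl fun p hp => ?_
  have h1 := (mem_pfg.1 hp).2
  have h2 := pfg_vv hp
  rw [mem_singleton] at h1
  have h3 := congrArg Fin.val h1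
  simp only [cls] at h3
  rw [show vv x p = (i : ℕ) + 1 by omega]

theorem pt_single (x : Gi) (i : Fin (K + 1)) (hi : (i : ℕ) < K) :
    pt K x {i} = rd K x {i} ^ ((i : ℕ) + 1) := by
  unfold pt rd
  rw [ptg_single x i hi, nm_pow]

theorem rdg_pow_dvd {μ : ℕ} {x : Gi} {S : Finset (Fin (K + 1))}
    (h : ∀ i ∈ S, μ ≤ (i : ℕ) + 1) : rdg K x S ^ μ ∣ ptg K x S := by
  unfold rdg ptg
  rw [← Finset.prod_pow]
  refine Finset.prod_dvd_prod_of_dvd _ _ fun p hp => ?_
  refine pow_dvd_pow p ?_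
  have h1 := h _ (mem_pfg.1 hp).2
  have h2 := pfg_vv hp
  simp only [cls] at h1
  omega

theorem pt_last (K : ℕ) (x : Gi) : rd K x {Fin.last K} ^ (K + 1) ≤ pt K x {Fin.last K} := by
  unfold rd pt
  rw [← nm_pow]
  refine nm_le_of_dvd (ptg_ne _ _) (rdg_pow_dvd ?_)
  intro i hi
  rw [mem_singleton] at hi
  subst hi
  simp

theorem rdg_dvd_ptg (x : Gi) (S : Finset (Fin (K + 1))) : rdg K x S ∣ ptg K x S := by
  have := rdg_pow_dvd (K := K) (μ := 1) (x := x) (S := S) (fun i _ => by omega)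
  rwa [pow_one] at this

theorem rdg_dvd {x : Gi} (hx : x ≠ 0) (S : Finset (Fin (K + 1))) : rdg K x S ∣ x :=
  (rdg_dvd_ptg x S).trans (ptg_dvd hx S)

theorem rd_le {x : Gi} (hx : x ≠ 0) (S : Finset (Fin (K + 1))) : rd K x S ≤ nm x :=
  nm_le_of_dvd hx (rdg_dvd hx S)

theorem rad_le {x : Gi} (hx : x ≠ 0) : rad x ≤ nm x := by
  rw [← rd_univ (K := 0)]
  exact rd_le hx _

theorem power {k : ℕ} {x : Gi} {S : Finset (Fin (K + 1))} (hk : 1 ≤ k) (hG : Good K k S) :
    ∃ y : Gi, y ^ k = ptg K x S ∧ y ≠ 0 := by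
  have hdiv : ∀ p ∈ pfg K x S, k ∣ vv x p := by
    intro p hp
    have h1 := hG _ (mem_pfg.1 hp).2
    have h2 := pfg_vv hp
    simp only [cls] at h1
    rcases h1 with h1 | ⟨h1, h3⟩
    · rw [h1]; exact one_dvd _
    · rwa [show min (vv x p - 1) K + 1 = vv x p by omega] at h3
  refine ⟨∏ p ∈ pfg K x S, p ^ (vv x p / k), ?_, prod_pow_ne _ (fun _ hp => pfg_np hp) _⟩
  unfold ptg
  rw [← Finset.prod_pow]
  refine Finset.prod_congr rfl fun p hp => ?_
  rw [← pow_mul, Nat.div_mul_cancel (hdiv p hp)]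

/-- factorisation of `x` into the powers and the rest -/
theorem fact {x : Gi} (hx : x ≠ 0) :
    x = (∏ i : Fin K, rdg K x {i.castSucc} ^ ((i : ℕ) + 1)) * (un x * ptg K x {Fin.last K}) := by
  conv_lhs => rw [← part_mul_cop (K := K) hx univ]
  have h1 : cop K x univ = un x := by
    unfold cop
    rw [Finset.compl_univ]
    have : ptg K x ∅ = 1 := by simp [ptg, pfg]
    rw [this, mul_one]
  rw [h1, ptg_prod, Fin.prod_univ_castSucc]
  have h2 : ∏ i : Fin K, ptg K x {i.castSucc} =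
      ∏ i : Fin K, rdg K x {i.castSucc} ^ ((i : ℕ) + 1) := by
    refine prod_congr rfl fun i _ => ?_
    rw [ptg_single x i.castSucc (by simp)]
    simp
  rw [h2]
  ring

theorem rd_split (x : Gi) :
    (∏ i : Fin K, rd K x {i.castSucc}) * rd K x {Fin.last K} = rd K x univ := by
  rw [rd_prod x univ, Fin.prod_univ_castSucc]

end Pool.Agent.W17.AB
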