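import Mathlib
import Pool.Agent.W17.AB.Fact

/-!
# abc over the Gaussian integers: divisor bounds, counting by radical
-/

namespace Pool.Agent.W17.AB

open Finset UniqueFactorizationMonoid
open Pool.Agent.H785R2.ABC (cls Good stmtA2)

noncomputable local instance instNM' : StrongNormalizationMonoid Gi :=
  UniqueFactorizationMonoid.strongNormalizationMonoid

noncomputable local instance instDec' : DecidableEq Gi := Classical.decEq _

theorem nm_eq_prod {x : Gi} (hx : x ≠ 0) : nm x = ∏ p ∈ pfs x, nm p ^ vv x p := by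
  conv_lhs => rw [← un_mul hx]
  rw [nm_mul, nm_unit (un_isUnit x), one_mul, nm_prod]
  exact prod_congr rfl fun p _ => nm_pow _ _

/-- the submultiplicative bound -/
theorem submult (C : ℝ) (hC : 1 ≤ C) (ε : ℝ) (hε : 0 < ε) : ∃ D : ℝ, 0 < D ∧
    ∀ x : Gi, x ≠ 0 → ∏ p ∈ pfs x, (C * ((vv x p : ℝ) + 1)) ≤ D * (nm x : ℝ) ^ ε := by
  have hC0 : 0 < C := by linarith
  set P0 : ℕ := ⌈(2 * C) ^ (1 / ε)⌉₊ with hP0
  set M : ℝ := C * (1 + 2 / ε) with hM
  have hM1 : 1 ≤ M := by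
    have : 0 < 2 / ε := by positivity
    nlinarith
  refine ⟨M ^ (bx P0).card, by positivity, ?_⟩
  intro x hx
  have h1 : ∀ p ∈ pfs x, C * ((vv x p : ℝ) + 1) ≤
      (if nm p < P0 then M else 1) * ((nm p : ℝ) ^ ε) ^ vv x p := by
    intro p hp
    have hv := vv_pos hp
    have h2 : (2 : ℝ) ≤ nm p := by exact_mod_cast two_le_nm (np_of_mem hp).1
    split_ifs with h
    · have h3 : 1 + ε / 2 ≤ (nm p : ℝ) ^ ε := by
        calc 1 + ε / 2 ≤ 1 + ε * Real.log 2 := by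
              have := Real.log_two_gt_d9
              nlinarith
          _ ≤ Real.exp (ε * Real.log 2) := by
              have := Real.add_one_le_exp (ε * Real.log 2)
              linarith
          _ = (2 : ℝ) ^ ε := by
              rw [Real.rpow_def_of_pos (by norm_num)]
              congr 1
              ring
          _ ≤ (nm p : ℝ) ^ ε := Real.rpow_le_rpow (by norm_num) h2 hε.le
      have h4 : 1 + (vv x p : ℝ) * (ε / 2) ≤ (1 + ε / 2) ^ vv x p :=
        one_add_mul_le_pow (by linarith) _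
      have h5 : (1 + ε / 2) ^ vv x p ≤ ((nm p : ℝ) ^ ε) ^ vv x p :=
        pow_le_pow_left₀ (by positivity) h3 _
      have h6 : (vv x p : ℝ) + 1 ≤ (1 + 2 / ε) * (1 + (vv x p : ℝ) * (ε / 2)) := by
        have e1 : (1 + 2 / ε) * (1 + (vv x p : ℝ) * (ε / 2)) =
            1 + (vv x p : ℝ) * (ε / 2) + 2 / ε + vv x p := by
          field_simp
          ring
        rw [e1]
        have : 0 ≤ (vv x p : ℝ) * (ε / 2) := by positivity
        have : 0 < 2 / ε := by positivity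
        linarith
      calc C * ((vv x p : ℝ) + 1) ≤ C * ((1 + 2 / ε) * (1 + (vv x p : ℝ) * (ε / 2))) :=
            mul_le_mul_of_nonneg_left h6 hC0.le
        _ = M * (1 + (vv x p : ℝ) * (ε / 2)) := by rw [hM]; ring
        _ ≤ M * ((nm p : ℝ) ^ ε) ^ vv x p :=
            mul_le_mul_of_nonneg_left (h4.trans h5) (by linarith)
    · rw [one_mul]
      have h3 : (2 * C) ^ (1 / ε) ≤ (nm p : ℝ) := by
        refine (Nat.le_ceil _).trans ?_
        exact_mod_cast not_lt.mp h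
      have h4 : 2 * C ≤ (nm p : ℝ) ^ ε := by
        calc 2 * C = ((2 * C) ^ (1 / ε)) ^ ε := by
              rw [← Real.rpow_mul (by positivity), one_div, inv_mul_cancel₀ hε.ne', Real.rpow_one]
          _ ≤ (nm p : ℝ) ^ ε := Real.rpow_le_rpow (by positivity) h3 hε.le
      have h5 : (2 * C) ^ vv x p ≤ ((nm p : ℝ) ^ ε) ^ vv x p :=
        pow_le_pow_left₀ (by positivity) h4 _
      refine le_trans ?_ h5
      rw [mul_pow]
      have h6 : C ≤ C ^ vv x p := le_self_pow₀ hC (by omega)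
      have h7 : (vv x p : ℝ) + 1 ≤ 2 ^ vv x p := by
        have : vv x p + 1 ≤ 2 ^ vv x p := Nat.lt_two_pow_self
        exact_mod_cast this
      calc C * ((vv x p : ℝ) + 1) = ((vv x p : ℝ) + 1) * C := by ring
        _ ≤ 2 ^ vv x p * C ^ vv x p := mul_le_mul h7 h6 hC0.le (by positivity)
  have h2 : ∏ p ∈ pfs x, (C * ((vv x p : ℝ) + 1)) ≤
      (∏ p ∈ pfs x, (if nm p < P0 then M else 1)) * ∏ p ∈ pfs x, ((nm p : ℝ) ^ ε) ^ vv x p := by
    rw [← Finset.prod_mul_distrib]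
    exact Finset.prod_le_prod (fun _ _ => by positivity) h1
  have h3 : (∏ p ∈ pfs x, (if nm p < P0 then M else 1)) ≤ M ^ (bx P0).card := by
    rw [Finset.prod_ite, Finset.prod_const, Finset.prod_const_one, mul_one]
    refine pow_le_pow_right₀ hM1 (card_le_card ?_)
    intro p hp
    rw [mem_filter] at hp
    exact mem_bx.2 ⟨(np_of_mem hp.1).1.ne_zero, hp.2.le⟩
  have h4 : ∏ p ∈ pfs x, ((nm p : ℝ) ^ ε) ^ vv x p = (nm x : ℝ) ^ ε := by
    rw [nm_eq_prod hx]
    push_cast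
    rw [← Real.finsetProd_rpow _ _ (fun p _ => by positivity)]
    refine prod_congr rfl fun p _ => ?_
    rw [← Real.rpow_natCast, ← Real.rpow_mul (by positivity), mul_comm, Real.rpow_mul (by positivity),
      Real.rpow_natCast]
  rw [h4] at h2
  exact h2.trans (mul_le_mul_of_nonneg_right h3 (by positivity))

/-- number of divisors -/
theorem divisors (ε : ℝ) (hε : 0 < ε) : ∃ D : ℝ, 0 < D ∧
    ∀ x : Gi, x ≠ 0 → ∀ P : Finset Gi, (∀ d ∈ P, d ∣ x) → (P.card : ℝ) ≤ D * (nm x : ℝ) ^ ε := by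
  obtain ⟨D, hD, h⟩ := submult 1 le_rfl ε hε
  refine ⟨9 * D, by positivity, ?_⟩
  intro x hx P hP
  have hne : ∀ d ∈ P, d ≠ 0 := by
    rintro d hd rfl
    exact hx (zero_dvd_iff.1 (hP 0 hd))
  have h1 : P.card ≤ 9 * (P.image fa).card := by
    apply card_le_mul_card_image
    intro m _
    apply card_assoc
    intro a ha b hb
    rw [mem_filter] at ha hb
    rw [associated_iff_normalizedFactors_eq_normalizedFactors (hne a ha.1) (hne b hb.1)]
    exact ha.2.trans hb.2.symm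
  have h2 : P.image fa ⊆ Finset.Iic (fa x) := by
    intro m hm
    obtain ⟨d, hd, rfl⟩ := mem_image.1 hm
    rw [Finset.mem_Iic]
    exact (dvd_iff_normalizedFactors_le_normalizedFactors (hne d hd) hx).1 (hP d hd)
  have h3 : ((Finset.Iic (fa x)).card : ℝ) ≤ D * (nm x : ℝ) ^ ε := by
    refine le_trans (le_of_eq ?_) (h x hx)
    rw [Multiset.card_Iic]
    push_cast
    unfold pfs vv
    refine prod_congr rfl fun p _ => ?_
    rw [one_mul]
  have h4 : (P.card : ℝ) ≤ 9 * ((Finset.Iic (fa x)).card : ℝ) := by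
    have := h1.trans (Nat.mul_le_mul_left 9 (card_le_card h2))
    exact_mod_cast this
  linarith

/-- elements of a given norm -/
theorem same_norm (ε : ℝ) (hε : 0 < ε) : ∃ D : ℝ, 0 < D ∧
    ∀ n : ℕ, 1 ≤ n → ∀ P : Finset Gi, (∀ d ∈ P, nm d = n) → (P.card : ℝ) ≤ D * (n : ℝ) ^ ε := by
  obtain ⟨D, hD, h⟩ := divisors (ε / 2) (by positivity)
  refine ⟨D, hD, ?_⟩
  intro n hn P hP
  have hn0 : ((n : ℕ) : Gi) ≠ 0 := by
    exact_mod_cast (by omega : n ≠ 0)
  have h1 := h (n : Gi) hn0 P (by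
    intro d hd
    refine ⟨star d, ?_⟩
    have h2 := Zsqrtd.norm_eq_mul_conj d
    rw [← h2, ← hP d hd]
    unfold nm
    rw [GaussianInt.natCast_natAbs_norm])
  have h2 : nm (n : Gi) = n ^ 2 := by
    unfold nm
    rw [Zsqrtd.norm_natCast, sq]
    rw [← Nat.cast_mul, Int.natAbs_natCast]
  rw [h2] at h1
  push_cast at h1
  rwa [← Real.rpow_natCast, ← Real.rpow_mul (Nat.cast_nonneg _),
    show ((2 : ℕ) : ℝ) * (ε / 2) = ε by push_cast; ring] at h1

theorem primeFactors_nm {x : Gi} (hx : x ≠ 0) :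
    (nm x).primeFactors = (pfs x).biUnion fun p => (nm p).primeFactors := by
  ext q
  rw [mem_biUnion, Nat.mem_primeFactors]
  constructor
  · rintro ⟨hq, hd, -⟩
    rw [nm_eq_prod hx] at hd
    obtain ⟨p, hp, hqp⟩ := (hq.prime.dvd_finset_prod_iff _).1 hd
    exact ⟨p, hp, Nat.mem_primeFactors.2 ⟨hq, hq.dvd_of_dvd_pow hqp,
      (nm_pos (np_of_mem hp).1.ne_zero).ne'⟩⟩
  · rintro ⟨p, hp, hq⟩
    rw [Nat.mem_primeFactors] at hq
    exact ⟨hq.1, hq.2.1.trans (nm_dvd (dvd_of_mem hp)), (nm_pos hx).ne'⟩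

/-- elements with given prime factors -/
theorem same_primes (ε : ℝ) (hε : 0 < ε) : ∃ D : ℝ, 0 < D ∧
    ∀ X : ℕ, 1 ≤ X → ∀ (W P : Finset Gi), (∀ d ∈ P, d ≠ 0 ∧ nm d ≤ X ∧ pfs d = W) →
      (P.card : ℝ) ≤ D * (X : ℝ) ^ ε := by
  obtain ⟨D1, hD1, h1⟩ := same_norm (ε / 2) (by positivity)
  obtain ⟨D2, hD2, h2⟩ := stmtA2 (ε / 2) (by positivity)
  refine ⟨D2 * D1, by positivity, ?_⟩
  intro X hX W P hP
  have hX0 : (0 : ℝ) < X := by exact_mod_cast hX
  rcases P.eq_empty_or_nonempty with h0 | ⟨d0, hd0⟩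
  · rw [h0]
    simp only [card_empty, Nat.cast_zero]
    positivity
  set g := Pool.Agent.H785R2.ABC.rad (nm d0) with hg
  have hmaps : ∀ d ∈ P, nm d ∈ (Icc 1 X).filter fun n => Pool.Agent.H785R2.ABC.rad n = g := by
    intro d hd
    obtain ⟨a1, a2, a3⟩ := hP d hd
    obtain ⟨b1, b2, b3⟩ := hP d0 hd0
    rw [mem_filter, mem_Icc]
    refine ⟨⟨nm_pos a1, a2⟩, ?_⟩
    rw [hg]
    unfold Pool.Agent.H785R2.ABC.rad
    rw [primeFactors_nm a1, primeFactors_nm b1, a3, b3]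
  have hfib : ∀ n ∈ (Icc 1 X).filter (fun n => Pool.Agent.H785R2.ABC.rad n = g),
      ((P.filter fun d => nm d = n).card : ℝ) ≤ D1 * (X : ℝ) ^ (ε / 2) := by
    intro n hn
    rw [mem_filter, mem_Icc] at hn
    refine (h1 n hn.1.1 _ fun d hd => (mem_filter.1 hd).2).trans ?_
    refine mul_le_mul_of_nonneg_left ?_ hD1.le
    exact Real.rpow_le_rpow (Nat.cast_nonneg _) (by exact_mod_cast hn.1.2) (by positivity)
  rw [Finset.card_eq_sum_card_fiberwise hmaps]
  push_cast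
  refine (Finset.sum_le_sum hfib).trans ?_
  rw [Finset.sum_const, nsmul_eq_mul]
  calc _ ≤ (D2 * (X : ℝ) ^ (ε / 2)) * (D1 * (X : ℝ) ^ (ε / 2)) :=
        mul_le_mul_of_nonneg_right (h2 X hX g) (by positivity)
    _ = D2 * D1 * (X : ℝ) ^ ε := by
        have : (X : ℝ) ^ ε = (X : ℝ) ^ (ε / 2) * (X : ℝ) ^ (ε / 2) := by
          rw [← Real.rpow_add hX0]; congr 1; ring
        rw [this]; ring

/-- A4: counting by radical -/
def StmtA4 : Prop :=
  ∀ ε : ℝ, 0 < ε → ∃ D : ℝ, 0 < D ∧ ∀ X : ℕ, 1 ≤ X → ∀ R : ℝ, 0 ≤ R → ∀ P : Finset Gi,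
    (∀ d ∈ P, d ≠ 0 ∧ nm d ≤ X ∧ (rad d : ℝ) ≤ R) → (P.card : ℝ) ≤ D * (X : ℝ) ^ ε * R

theorem stmtA4 : StmtA4 := by
  intro ε hε
  obtain ⟨D, hD, h⟩ := same_primes ε hε
  refine ⟨9 * D, by positivity, ?_⟩
  intro X hX R hR P hP
  have hX0 : (0 : ℝ) < X := by exact_mod_cast hX
  set r : Gi → Gi := fun d => ∏ p ∈ pfs d, p with hr
  have hr1 : ∀ d, r d = ∏ p ∈ pfs d, p ^ 1 := fun d => by simp [hr]
  have hmaps : ∀ d ∈ P, r d ∈ bx ⌊R⌋₊ := by
    intro d hd
    rw [mem_bx]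
    refine ⟨prod_ne_zero_iff.2 fun _ hp => (np_of_mem hp).1.ne_zero, ?_⟩
    exact Nat.le_floor (hP d hd).2.2
  have hfib : ∀ b ∈ bx ⌊R⌋₊, ((P.filter fun d => r d = b).card : ℝ) ≤ D * (X : ℝ) ^ ε := by
    intro b _
    apply h X hX (pfs b)
    intro d hd
    rw [mem_filter] at hd
    refine ⟨(hP d hd.1).1, (hP d hd.1).2.1, ?_⟩
    rw [← hd.2, hr1, pfs_prod_pow _ (fun _ hp => np_of_mem hp) _ fun _ _ => le_rfl]
  rw [Finset.card_eq_sum_card_fiberwise hmaps]
  push_cast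
  refine (Finset.sum_le_sum hfib).trans ?_
  rw [Finset.sum_const, nsmul_eq_mul]
  have h1 : ((bx ⌊R⌋₊).card : ℝ) ≤ 9 * R :=
    (card_bx_real _).trans (mul_le_mul_of_nonneg_left (Nat.floor_le hR) (by norm_num))
  calc ((bx ⌊R⌋₊).card : ℝ) * (D * (X : ℝ) ^ ε) ≤ (9 * R) * (D * (X : ℝ) ^ ε) :=
        mul_le_mul_of_nonneg_right h1 (by positivity)
    _ = 9 * D * (X : ℝ) ^ ε * R := by ring

/-- FAC: ordered factorisations -/
def StmtFac : Prop :=
  ∀ h : ℕ, ∀ ε : ℝ, 0 < ε → ∃ D : ℝ, 0 < D ∧ ∀ t : Gi, t ≠ 0 → ∀ P : Finset (Fin h → Gi),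
    (∀ x ∈ P, ∏ j, x j = t) → (P.card : ℝ) ≤ D * (nm t : ℝ) ^ ε

theorem stmtFac : StmtFac := by
  classical
  intro h ε hε
  have hh : (0 : ℝ) < (h : ℝ) + 1 := by positivity
  obtain ⟨C, hC, hb⟩ := divisors (ε / (h + 1)) (by positivity)
  refine ⟨C ^ h, by positivity, ?_⟩
  intro t ht P hP
  set V : Finset Gi := P.biUnion fun x => univ.image x with hV
  have hVd : ∀ d ∈ V, d ∣ t := by
    intro d hd
    rw [hV, mem_biUnion] at hd
    obtain ⟨x, hx, hd⟩ := hd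
    obtain ⟨j, -, rfl⟩ := mem_image.1 hd
    rw [← hP x hx]
    exact Finset.dvd_prod_of_mem x (Finset.mem_univ j)
  have hsub : P ⊆ Fintype.piFinset (fun _ : Fin h => V) := by
    intro x hx
    rw [Fintype.mem_piFinset]
    intro j
    rw [hV, mem_biUnion]
    exact ⟨x, hx, mem_image_of_mem _ (mem_univ j)⟩
  have h1 : P.card ≤ V.card ^ h := by
    have := Finset.card_le_card hsub
    rw [Fintype.card_piFinset] at this
    simpa using this
  have ht1 : (1 : ℝ) ≤ nm t := by exact_mod_cast nm_pos ht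
  calc (P.card : ℝ) ≤ (V.card : ℝ) ^ h := by exact_mod_cast h1
    _ ≤ (C * (nm t : ℝ) ^ (ε / (h + 1))) ^ h :=
        pow_le_pow_left₀ (by positivity) (hb t ht V hVd) h
    _ = C ^ h * (nm t : ℝ) ^ (ε / (h + 1) * h) := by
        rw [mul_pow, ← Real.rpow_natCast ((nm t : ℝ) ^ (ε / ((h : ℝ) + 1))) h,
          ← Real.rpow_mul (by positivity)]
    _ ≤ C ^ h * (nm t : ℝ) ^ ε := by
        apply mul_le_mul_of_nonneg_left _ (by positivity)
        apply Real.rpow_le_rpow_of_exponent_le ht1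
        rw [div_mul_eq_mul_div, div_le_iff₀ hh]
        nlinarith

/-- the sum of the inverse norms -/
theorem sum_inv (η : ℝ) (hη : 0 < η) : ∃ D : ℝ, 0 < D ∧ ∀ N X : ℕ, 1 ≤ N → N ≤ X →
    ∑ g ∈ bx N, (1 : ℝ) / nm g ≤ D * (X : ℝ) ^ η := by
  obtain ⟨D, hD, h⟩ := same_norm (η / 2) (by positivity)
  refine ⟨D * (1 + 1 / (η / 2)), by positivity, ?_⟩
  intro N X hN hNX
  have hX : 1 ≤ X := hN.trans hNX
  have hX0 : (0 : ℝ) < X := by exact_mod_cast hX
  have hmaps : ∀ g ∈ bx N, nm g ∈ Icc 1 X := by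
    intro g hg
    rw [mem_bx] at hg
    exact mem_Icc.2 ⟨nm_pos hg.1, hg.2.trans hNX⟩
  rw [← Finset.sum_fiberwise_of_maps_to hmaps]
  calc ∑ n ∈ Icc 1 X, ∑ g ∈ bx N with nm g = n, (1 : ℝ) / nm g
      ≤ ∑ n ∈ Icc 1 X, (D * (X : ℝ) ^ (η / 2)) * ((n : ℝ))⁻¹ := by
        refine sum_le_sum fun n hn => ?_
        rw [mem_Icc] at hn
        have hn0 : (0 : ℝ) < n := by exact_mod_cast hn.1
        calc ∑ g ∈ bx N with nm g = n, (1 : ℝ) / nm g
            = ∑ g ∈ bx N with nm g = n, ((n : ℝ))⁻¹ := by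
              refine sum_congr rfl fun g hg => ?_
              rw [(mem_filter.1 hg).2, one_div]
          _ = (((bx N).filter fun g => nm g = n).card : ℝ) * ((n : ℝ))⁻¹ := by
              rw [sum_const, nsmul_eq_mul]
          _ ≤ (D * (X : ℝ) ^ (η / 2)) * ((n : ℝ))⁻¹ := by
              refine mul_le_mul_of_nonneg_right ?_ (by positivity)
              refine (h n hn.1 _ fun d hd => (mem_filter.1 hd).2).trans ?_
              refine mul_le_mul_of_nonneg_left ?_ hD.le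
              exact Real.rpow_le_rpow hn0.le (by exact_mod_cast hn.2) (by positivity)
    _ = (D * (X : ℝ) ^ (η / 2)) * ∑ n ∈ Icc 1 X, ((n : ℝ))⁻¹ := by rw [mul_sum]
    _ ≤ (D * (X : ℝ) ^ (η / 2)) * ((1 + 1 / (η / 2)) * (X : ℝ) ^ (η / 2)) := by
        refine mul_le_mul_of_nonneg_left ?_ (by positivity)
        have h1 := harmonic_le_one_add_log X
        rw [harmonic_eq_sum_Icc] at h1
        push_cast at h1
        have h2 := Real.log_le_rpow_div (x := (X : ℝ)) (by positivity) (show 0 < η / 2 by positivity)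
        have h3 : (1 : ℝ) ≤ (X : ℝ) ^ (η / 2) :=
          Real.one_le_rpow (by exact_mod_cast hX) (by positivity)
        have h4 : (1 + 1 / (η / 2)) * (X : ℝ) ^ (η / 2) =
          (X : ℝ) ^ (η / 2) + (X : ℝ) ^ (η / 2) / (η / 2) := by ring
        linarith
    _ = D * (1 + 1 / (η / 2)) * (X : ℝ) ^ η := by
        have : (X : ℝ) ^ η = (X : ℝ) ^ (η / 2) * (X : ℝ) ^ (η / 2) := by
          rw [← Real.rpow_add hX0]; congr 1; ring
        rw [this]; ring

end Pool.Agent.W17.AB
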