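import Mathlib
import Pool.Agent.W17.AB.Count

/-!
# abc over the Gaussian integers: roots modulo `f`
-/

namespace Pool.Agent.W17.AB

open Finset UniqueFactorizationMonoid

noncomputable local instance instDecR : DecidableEq Gi := Classical.decEq _

/-- the residue ring -/
abbrev Rs (f : Gi) := Gi ⧸ Ideal.span ({f} : Set Gi)

/-- reduction modulo `f` -/
noncomputable def qm (f : Gi) : Gi →+* Rs f := Ideal.Quotient.mk (Ideal.span ({f} : Set Gi))

theorem qm_eq {f x y : Gi} : qm f x = qm f y ↔ f ∣ x - y := by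
  unfold qm
  rw [Ideal.Quotient.mk_eq_mk_iff_sub_mem, Ideal.mem_span_singleton]

theorem qm_isUnit {f x : Gi} (h : IsCoprime x f) : IsUnit (qm f x) := by
  obtain ⟨a, b, hab⟩ := h
  refine IsUnit.of_mul_eq_one (qm f a) ?_
  rw [← map_mul, ← map_one (qm f), qm_eq]
  exact ⟨-b, by rw [← hab]; ring⟩

/-- pairwise incongruent modulo `g` -/
def Sep (g : Gi) (S : Finset Gi) : Prop := ∀ x ∈ S, ∀ y ∈ S, g ∣ x - y → x = y

theorem fib (g : Gi) (S : Finset Gi) (A B : ℕ) (hA : ∀ T ⊆ S, Sep g T → T.card ≤ A)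
    (hB : ∀ T ⊆ S, (∀ x ∈ T, ∀ y ∈ T, g ∣ x - y) → T.card ≤ B) : S.card ≤ A * B := by
  classical
  set q : Gi → Rs g := fun x => qm g x with hq
  have hqe : ∀ x y, q x = q y ↔ g ∣ x - y := fun x y => qm_eq
  have hex : ∀ c : Rs g, ∃ s : Gi, c ∈ S.image q → s ∈ S ∧ q s = c := by
    intro c
    by_cases hc : c ∈ S.image q
    · obtain ⟨s, hs, h⟩ := mem_image.1 hc
      exact ⟨s, fun _ => ⟨hs, h⟩⟩
    · exact ⟨0, fun h => absurd h hc⟩
  choose s hs using hex
  have h1 : ((S.image q).image s).card = (S.image q).card := by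
    apply card_image_of_injOn
    intro c hc c' hc' h
    rw [← (hs c hc).2, ← (hs c' hc').2, h]
  have h2 : (S.image q).card ≤ A := by
    rw [← h1]
    apply hA
    · intro x hx
      obtain ⟨c, hc, rfl⟩ := mem_image.1 hx
      exact (hs c hc).1
    · intro x hx y hy h
      obtain ⟨c, hc, rfl⟩ := mem_image.1 hx
      obtain ⟨c', hc', rfl⟩ := mem_image.1 hy
      rw [← hqe, (hs c hc).2, (hs c' hc').2] at h
      rw [h]
  have h3 : S.card ≤ B * (S.image q).card := by
    apply card_le_mul_card_image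
    intro c _
    apply hB _ (filter_subset _ _)
    intro x hx y hy
    rw [mem_filter] at hx hy
    rw [← hqe]
    exact hx.2.trans hy.2.symm
  calc S.card ≤ B * (S.image q).card := h3
    _ ≤ B * A := Nat.mul_le_mul_left _ h2
    _ = A * B := mul_comm _ _

/-- number of residues -/
theorem residues {g : Gi} (hg : g ≠ 0) (S : Finset Gi) (hS : Sep g S) : S.card ≤ 10 * nm g := by
  have h1 : (S.image fun x => x % g).card = S.card := by
    apply card_image_of_injOn
    intro x hx y hy h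
    apply hS x hx y hy
    simp only at h
    rw [GaussianInt.mod_def, GaussianInt.mod_def] at h
    refine ⟨x / g - y / g, ?_⟩
    linear_combination h
  have h2 : (S.image fun x => x % g) ⊆ insert 0 (bx (nm g)) := by
    intro z hz
    obtain ⟨x, hx, rfl⟩ := mem_image.1 hz
    rw [mem_insert, mem_bx]
    by_cases h0 : x % g = 0
    · left; exact h0
    · right
      exact ⟨h0, (GaussianInt.natAbs_norm_mod_lt x hg).le⟩
  rw [← h1]
  have h3 := card_le_card h2
  have h4 := card_insert_le (0 : Gi) (bx (nm g))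
  have h5 := card_bx (nm g)
  have h6 := nm_pos hg
  omega

theorem pow_dvd_of {p x y : Gi} (hp : Prime p) {w i : ℕ} (hx : ¬ p ^ (w + 1) ∣ x)
    (h : p ^ i ∣ x * y) : p ^ (i - w) ∣ y := by
  obtain ⟨a, b, ha, hb, hab⟩ := exists_dvd_and_dvd_of_dvd_mul h
  obtain ⟨n, hn, hna⟩ := (dvd_prime_pow hp i).1 (show a ∣ p ^ i from ⟨b, hab⟩)
  have h1 : n ≤ w := by
    by_contra hc
    push Not at hc
    apply hx
    exact (pow_dvd_pow p (by omega)).trans (hna.symm.dvd.trans ha)
  have h2 : p ^ (i - n) ∣ b := by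
    have h3 : p ^ n * p ^ (i - n) ∣ a * b := by
      rw [← pow_add, Nat.add_sub_cancel' hn, hab]
    obtain ⟨u, hu⟩ := hna.symm
    rw [← hu, mul_assoc] at h3
    have h4 := (mul_dvd_mul_iff_left (pow_ne_zero n hp.ne_zero)).1 h3
    exact (u.isUnit.dvd_mul_left).1 h4
  exact (pow_dvd_pow p (by omega)).trans (h2.trans hb)

/-- bound for the number of `k`-th roots modulo `f` -/
def RootBnd (k C : ℕ) (f : Gi) : Prop :=
  f ≠ 0 → ∀ S : Finset Gi, (∀ x ∈ S, IsCoprime x f) → (∀ x ∈ S, ∀ y ∈ S, f ∣ x ^ k - y ^ k) →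
    Sep f S → S.card ≤ C ^ (pfs f).card

theorem field_roots {p : Gi} (hp : Prime p) {k : ℕ} (hk : 1 ≤ k) (S : Finset Gi)
    (h : ∀ x ∈ S, ∀ y ∈ S, p ∣ x ^ k - y ^ k) (hS : Sep p S) : S.card ≤ k := by
  classical
  rcases S.eq_empty_or_nonempty with h0 | ⟨x0, hx0⟩
  · rw [h0]; simp
  have : (Ideal.span ({p} : Set Gi)).IsPrime := (Ideal.span_singleton_prime hp.ne_zero).2 hp
  set q : Gi → Rs p := fun x => qm p x with hq
  have hqe : ∀ x y, q x = q y ↔ p ∣ x - y := fun x y => qm_eq
  have h1 : (S.image q).card = S.card := by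
    apply card_image_of_injOn
    intro x hx y hy hxy
    exact hS x hx y hy ((hqe x y).1 hxy)
  have h2 : S.image q ⊆ (Polynomial.nthRoots k (q x0 ^ k)).toFinset := by
    intro z hz
    obtain ⟨x, hx, rfl⟩ := mem_image.1 hz
    rw [Multiset.mem_toFinset, Polynomial.mem_nthRoots (by omega)]
    have h3 : qm p (x ^ k) = qm p (x0 ^ k) := (hqe (x ^ k) (x0 ^ k)).2 (h x hx x0 hx0)
    rw [map_pow, map_pow] at h3
    exact h3
  rw [← h1]
  calc (S.image q).card ≤ (Polynomial.nthRoots k (q x0 ^ k)).toFinset.card := card_le_card h2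
    _ ≤ Multiset.card (Polynomial.nthRoots k (q x0 ^ k)) := Multiset.toFinset_card_le _
    _ ≤ k := Polynomial.card_nthRoots _ _

theorem prime_pow_bound {p : Gi} (hp : Prime p) {k : ℕ} (hk : 1 ≤ k) {i : ℕ} (hi : 1 ≤ i)
    (S : Finset Gi) (hco : ∀ x ∈ S, IsCoprime x (p ^ i))
    (h : ∀ x ∈ S, ∀ y ∈ S, p ^ i ∣ x ^ k - y ^ k) (hS : Sep (p ^ i) S) :
    S.card ≤ 100 * k ^ 6 := by
  have hk0 : (k : Gi) ≠ 0 := by exact_mod_cast (by omega : k ≠ 0)
  obtain ⟨w, a, ha, hka⟩ := WfDvdMonoid.max_power_factor hk0 hp.irreducible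
  have hnk : nm (k : Gi) = k ^ 2 := by
    unfold nm
    rw [Zsqrtd.norm_natCast, sq, ← Nat.cast_mul, Int.natAbs_natCast]
  have hpw : nm p ^ w ≤ k ^ 2 := by
    rw [← hnk, ← nm_pow]
    exact nm_le_of_dvd hk0 ⟨a, hka⟩
  have hndvd : ∀ x ∈ S, ¬ p ∣ x := by
    intro x hx hpx
    have h1 := hco x hx
    have h2 : IsCoprime x p := (IsCoprime.pow_right_iff (by omega)).1 h1
    exact hp.not_isUnit (h2.isUnit_of_dvd' hpx dvd_rfl)
  -- two solutions congruent modulo `p ^ (w + 1)`
  have key : ∀ x ∈ S, ∀ y ∈ S, p ^ (w + 1) ∣ x - y → p ^ (i - w) ∣ x - y := by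
    intro x hx y hy hxy
    have h1 : ¬ p ^ (w + 1) ∣ ∑ j ∈ range k, x ^ j * y ^ (k - 1 - j) := by
      rw [dvd_geom_sum₂_iff_of_dvd_sub hxy, hka, pow_succ, mul_assoc]
      intro h2
      have h3 := (mul_dvd_mul_iff_left (pow_ne_zero w hp.ne_zero)).1 h2
      rcases hp.dvd_or_dvd h3 with h4 | h4
      · exact ha h4
      · exact hndvd y hy (hp.dvd_of_dvd_pow h4)
    apply pow_dvd_of hp h1
    rw [(Commute.all x y).geom_sum₂_mul]
    exact h x hx y hy
  -- a class modulo `p ^ (i - w)`
  have hcl : ∀ T ⊆ S, (∀ x ∈ T, ∀ y ∈ T, p ^ (i - w) ∣ x - y) → T.card ≤ 10 * nm p ^ w := by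
    intro T hT hTd
    rcases T.eq_empty_or_nonempty with h0 | ⟨x0, hx0⟩
    · rw [h0]; simp
    have hex : ∀ x : Gi, ∃ t : Gi, x ∈ T → x = x0 + p ^ (i - w) * t := by
      intro x
      by_cases hx : x ∈ T
      · obtain ⟨t, ht⟩ := hTd x hx x0 hx0
        exact ⟨t, fun _ => by rw [← ht]; ring⟩
      · exact ⟨0, fun h => absurd h hx⟩
    choose t ht using hex
    have h1 : (T.image t).card = T.card := by
      apply card_image_of_injOn
      intro x hx y hy hxy
      rw [ht x hx, ht y hy, hxy]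
    rw [← h1, ← nm_pow]
    apply residues (pow_ne_zero _ hp.ne_zero)
    intro z hz z' hz' hd
    obtain ⟨x, hx, rfl⟩ := mem_image.1 hz
    obtain ⟨y, hy, rfl⟩ := mem_image.1 hz'
    have h2 : x = y := by
      apply hS x (hT hx) y (hT hy)
      have h3 : x - y = p ^ (i - w) * (t x - t y) := by
        conv_lhs => rw [ht x hx, ht y hy]
        ring
      rw [h3]
      have h4 : p ^ i ∣ p ^ (i - w) * p ^ w := by
        rw [← pow_add]
        exact pow_dvd_pow p (by omega)
      exact h4.trans (mul_dvd_mul_left _ hd)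
    rw [h2]
  have hk6 : k ≤ k ^ 6 := Nat.le_self_pow (by norm_num) k
  have hk1 : 1 ≤ k ^ 6 := Nat.one_le_pow _ _ (by omega)
  rcases Nat.eq_zero_or_pos w with hw | hw
  · -- `p` does not divide `k`
    subst hw
    have h1 : S.card ≤ k * (10 * nm p ^ 0) := by
      apply fib (p ^ (0 + 1)) S
      · intro T hT hTs
        rw [zero_add, pow_one] at hTs
        apply field_roots hp hk T _ hTs
        intro x hx y hy
        exact (dvd_pow_self p (by omega)).trans (h x (hT hx) y (hT hy))
      · intro T hT hTd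
        apply hcl T hT
        intro x hx y hy
        exact key x (hT hx) y (hT hy) (hTd x hx y hy)
    rw [pow_zero, mul_one] at h1
    omega
  · have h1 : S.card ≤ (10 * nm p ^ (w + 1)) * (10 * nm p ^ w) := by
      apply fib (p ^ (w + 1)) S
      · intro T hT hTs
        rw [← nm_pow]
        exact residues (pow_ne_zero _ hp.ne_zero) T hTs
      · intro T hT hTd
        apply hcl T hT
        intro x hx y hy
        exact key x (hT hx) y (hT hy) (hTd x hx y hy)
    have h2 : nm p ≤ k ^ 2 := by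
      calc nm p = nm p ^ 1 := (pow_one _).symm
        _ ≤ nm p ^ w := Nat.pow_le_pow_right (nm_pos hp.ne_zero) hw
        _ ≤ k ^ 2 := hpw
    calc S.card ≤ (10 * nm p ^ (w + 1)) * (10 * nm p ^ w) := h1
      _ = 100 * (nm p ^ w * nm p ^ w * nm p) := by ring
      _ ≤ 100 * (k ^ 2 * k ^ 2 * k ^ 2) :=
          Nat.mul_le_mul_left _ (Nat.mul_le_mul (Nat.mul_le_mul hpw hpw) h2)
      _ = 100 * k ^ 6 := by ring

theorem root_bound {k : ℕ} (hk : 1 ≤ k) (f : Gi) : RootBnd k (100 * k ^ 6) f := by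
  have hC : 1 ≤ 100 * k ^ 6 := by
    have : 1 ≤ k ^ 6 := Nat.one_le_pow _ _ (by omega)
    omega
  induction f using induction_on_coprime with
  | h0 => intro h; exact absurd rfl h
  | @h1 x hx =>
    intro _ S _ _ hS
    have : S.card ≤ 1 := by
      rw [card_le_one]
      intro a ha b hb
      exact hS a ha b hb (hx.dvd)
    exact this.trans (Nat.one_le_pow _ _ hC)
  | @hpr p i hp =>
    intro _ S hco h hS
    rcases Nat.eq_zero_or_pos i with hi | hi
    · subst hi
      have : S.card ≤ 1 := by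
        rw [card_le_one]
        intro a ha b hb
        apply hS a ha b hb
        rw [pow_zero]
        exact one_dvd _
      exact this.trans (Nat.one_le_pow _ _ hC)
    · have h1 := prime_pow_bound hp hk hi S hco h hS
      have h2 : 1 ≤ (pfs (p ^ i)).card := by
        rw [Nat.one_le_iff_ne_zero, card_ne_zero]
        obtain ⟨q, hq, -⟩ := exists_mem_of_dvd (pow_ne_zero i hp.ne_zero) hp
          (dvd_pow_self p (by omega))
        exact ⟨q, hq⟩
      exact h1.trans (by
        calc 100 * k ^ 6 = (100 * k ^ 6) ^ 1 := (pow_one _).symm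
          _ ≤ _ := Nat.pow_le_pow_right hC h2)
  | @hcp x y hxy ihx ihy =>
    intro hne S hco h hS
    have hx0 : x ≠ 0 := left_ne_zero_of_mul hne
    have hy0 : y ≠ 0 := right_ne_zero_of_mul hne
    have hcop : IsCoprime x y := hxy.isCoprime
    have h1 : (pfs (x * y)).card = (pfs x).card + (pfs y).card := by
      rw [← card_union_of_disjoint]
      · congr 1
        ext p
        rw [mem_union, mem_pfs, mem_pfs, mem_pfs, fa_mul hx0 hy0, Multiset.mem_add]
      · rw [Finset.disjoint_left]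
        intro p hp hp'
        have h2 := dvd_of_mem hp
        have h3 := dvd_of_mem hp'
        exact (np_of_mem hp).1.not_isUnit (hxy h2 h3)
    rw [h1, pow_add]
    apply fib x S
    · intro T hT hTs
      apply ihx hx0 T
      · intro z hz
        exact (hco z (hT hz)).of_mul_right_left
      · intro z hz z' hz'
        exact (dvd_mul_right x y).trans (h z (hT hz) z' (hT hz'))
      · exact hTs
    · intro T hT hTd
      apply ihy hy0 T
      · intro z hz
        exact (hco z (hT hz)).of_mul_right_right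
      · intro z hz z' hz'
        exact (dvd_mul_left y x).trans (h z (hT hz) z' (hT hz'))
      · intro z hz z' hz' hd
        exact hS z (hT hz) z' (hT hz') (hcop.mul_dvd (hTd z hz z' hz') hd)

end Pool.Agent.W17.AB
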