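import Mathlib
import Pool.Agent.W17.AB.Root

/-!
# abc over the Gaussian integers: coprime solutions of `x ^ k = c * y ^ k` modulo `f`
-/

namespace Pool.Agent.W17.AB

open Finset UniqueFactorizationMonoid

noncomputable local instance instDecD : DecidableEq Gi := Classical.decEq _

theorem fibA {α : Type*} (g : Gi) (T : Finset α) (r : α → Gi) (A B : ℝ) (hB0 : 0 ≤ B)
    (hA : ∀ S : Finset Gi, (∀ x ∈ S, ∃ t ∈ T, x = r t) → Sep g S → (S.card : ℝ) ≤ A)
    (hB : ∀ T' ⊆ T, (∀ x ∈ T', ∀ y ∈ T', g ∣ r x - r y) → (T'.card : ℝ) ≤ B) :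
    (T.card : ℝ) ≤ A * B := by
  classical
  set q : α → Rs g := fun x => qm g (r x) with hq
  have hqe : ∀ x y, q x = q y ↔ g ∣ r x - r y := fun x y => qm_eq
  have hex : ∀ c : Rs g, ∃ s : Gi, c ∈ T.image q → (∃ t ∈ T, s = r t) ∧ qm g s = c := by
    intro c
    by_cases hc : c ∈ T.image q
    · obtain ⟨s, hs, h⟩ := mem_image.1 hc
      exact ⟨r s, fun _ => ⟨⟨s, hs, rfl⟩, h⟩⟩
    · exact ⟨0, fun h => absurd h hc⟩
  choose s hs using hex
  have h1 : ((T.image q).image s).card = (T.image q).card := by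
    apply card_image_of_injOn
    intro c hc c' hc' h
    rw [← (hs c hc).2, ← (hs c' hc').2, h]
  have h2 : ((T.image q).card : ℝ) ≤ A := by
    rw [← h1]
    apply hA
    · intro x hx
      obtain ⟨c, hc, rfl⟩ := mem_image.1 hx
      exact (hs c hc).1
    · intro x hx y hy h
      obtain ⟨c, hc, rfl⟩ := mem_image.1 hx
      obtain ⟨c', hc', rfl⟩ := mem_image.1 hy
      rw [← qm_eq, (hs c hc).2, (hs c' hc').2] at h
      rw [h]
  rw [card_eq_sum_card_image q T]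
  push_cast
  calc ∑ c ∈ T.image q, ((T.filter fun x => q x = c).card : ℝ) ≤ ∑ _c ∈ T.image q, B := by
        refine sum_le_sum fun c _ => ?_
        apply hB _ (filter_subset _ _)
        intro x hx y hy
        rw [mem_filter] at hx hy
        rw [← hqe]
        exact hx.2.trans hy.2.symm
    _ = ((T.image q).card : ℝ) * B := by rw [sum_const, nsmul_eq_mul]
    _ ≤ A * B := mul_le_mul_of_nonneg_right h2 hB0

/-- a number whose `k`-th power is near `1` is near a `k`-th root of unity -/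
theorem near_root (k : ℕ) (hk : 1 ≤ k) : ∃ C : ℝ, 0 < C ∧ ∀ (u : ℂ) (θ : ℝ), ‖u ^ k - 1‖ ≤ θ →
    ∃ ζ ∈ Polynomial.nthRootsFinset k (1 : ℂ), ‖u - ζ‖ ≤ C * θ := by
  classical
  set R := Polynomial.nthRootsFinset k (1 : ℂ) with hR
  have hc0 : ∃ c0 : ℝ, 0 < c0 ∧ c0 ≤ 1 ∧ ∀ ζ ∈ R, ∀ ζ' ∈ R, ζ ≠ ζ' → c0 ≤ ‖ζ - ζ'‖ / 2 := by
    rcases (R.offDiag).eq_empty_or_nonempty with h0 | h0
    · refine ⟨1, one_pos, le_rfl, ?_⟩
      intro ζ hζ ζ' hζ' hne
      have : (ζ, ζ') ∈ R.offDiag := mem_offDiag.2 ⟨hζ, hζ', hne⟩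
      rw [h0] at this
      simp at this
    · obtain ⟨p, hp, hmin⟩ := exists_min_image R.offDiag (fun p => ‖p.1 - p.2‖ / 2) h0
      have hp' := mem_offDiag.1 hp
      refine ⟨min (‖p.1 - p.2‖ / 2) 1, lt_min ?_ one_pos, min_le_right _ _, ?_⟩
      · have := norm_pos_iff.2 (sub_ne_zero.2 hp'.2.2)
        positivity
      · intro ζ hζ ζ' hζ' hne
        exact (min_le_left _ _).trans (hmin (ζ, ζ') (mem_offDiag.2 ⟨hζ, hζ', hne⟩))
  obtain ⟨c0, hc0, hc1, hsep⟩ := hc0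
  have hRne : R.Nonempty := ⟨1, by
    rw [hR, Polynomial.mem_nthRootsFinset (by omega)]
    simp⟩
  refine ⟨1 / c0 ^ R.card, by positivity, ?_⟩
  intro u θ hu
  obtain ⟨ζ, hζ, hmin⟩ := exists_min_image R (fun ζ => ‖u - ζ‖) hRne
  refine ⟨ζ, hζ, ?_⟩
  have h1 : u ^ k - 1 = ∏ ζ ∈ R, (u - ζ) := by
    have h2 := Polynomial.X_pow_sub_one_eq_prod (by omega : 0 < k) (Complex.isPrimitiveRoot_exp k (by omega))
    have h3 := congrArg (Polynomial.eval u) h2
    rw [Polynomial.eval_prod] at h3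
    simpa using h3
  rw [h1, ← mul_prod_erase R _ hζ, norm_mul, norm_prod] at hu
  have h2 : c0 ^ R.card ≤ ∏ ζ' ∈ R.erase ζ, ‖u - ζ'‖ := by
    calc c0 ^ R.card ≤ c0 ^ (R.erase ζ).card :=
          pow_le_pow_of_le_one hc0.le hc1 (card_le_card (erase_subset _ _))
      _ = ∏ _ζ' ∈ R.erase ζ, c0 := by rw [prod_const]
      _ ≤ _ := by
          refine prod_le_prod (fun _ _ => hc0.le) fun ζ' hζ' => ?_
          rw [mem_erase] at hζ'
          refine (hsep ζ hζ ζ' hζ'.2 (Ne.symm hζ'.1)).trans ?_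
          have h3 := hmin ζ' hζ'.2
          have h4 : ‖ζ - ζ'‖ ≤ ‖u - ζ‖ + ‖u - ζ'‖ := by
            calc ‖ζ - ζ'‖ = ‖(u - ζ') - (u - ζ)‖ := by ring_nf
              _ ≤ ‖u - ζ'‖ + ‖u - ζ‖ := norm_sub_le _ _
              _ = _ := add_comm _ _
          linarith
  rw [one_div, inv_mul_eq_div, le_div_iff₀ (by positivity)]
  exact (mul_le_mul_of_nonneg_left h2 (norm_nonneg _)).trans hu

/-- D -/
def StmtD : Prop :=
  ∀ M : ℕ, ∀ ε : ℝ, 0 < ε → ∃ D : ℝ, 0 < D ∧ ∀ k : ℕ, 1 ≤ k → k ≤ M → ∀ f : Gi, f ≠ 0 →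
    ∀ c : Rs f, ∀ z0 : ℂ, z0 ≠ 0 → ∀ θ Y : ℝ, 0 ≤ θ → 0 < Y → ∀ T : Finset (Gi × Gi),
    (∀ t ∈ T, t.1 ≠ 0 ∧ t.2 ≠ 0 ∧ IsCoprime t.1 t.2 ∧ IsCoprime t.1 f ∧ IsCoprime t.2 f ∧
      qm f t.1 ^ k = c * qm f t.2 ^ k ∧
      (nm t.2 : ℝ) ≤ Y ∧ ‖(φ t.1 / φ t.2) ^ k - z0 ^ k‖ ≤ θ * ‖z0‖ ^ k) →
    (T.card : ℝ) ≤ D * (nm f : ℝ) ^ ε * (1 + θ ^ 2 * ‖z0‖ ^ 2 * Y ^ 2 / nm f)

theorem omega_bound (C : ℝ) (hC : 1 ≤ C) (ε : ℝ) (hε : 0 < ε) : ∃ D : ℝ, 0 < D ∧
    ∀ x : Gi, x ≠ 0 → C ^ (pfs x).card ≤ D * (nm x : ℝ) ^ ε := by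
  obtain ⟨D, hD, h⟩ := submult C hC ε hε
  refine ⟨D, hD, fun x hx => le_trans ?_ (h x hx)⟩
  rw [← prod_const]
  refine prod_le_prod (fun _ _ => by linarith) fun p _ => ?_
  have : (0 : ℝ) ≤ vv x p := Nat.cast_nonneg _
  nlinarith

theorem stmtD : StmtD := by
  classical
  intro M ε hε
  obtain ⟨D0, hD0, hom⟩ := omega_bound (100 * ((M : ℝ) + 1) ^ 6) (by
    have : (1 : ℝ) ≤ ((M : ℝ) + 1) ^ 6 := one_le_pow₀ (by
      have : (0 : ℝ) ≤ M := Nat.cast_nonneg _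
      linarith)
    linarith) ε hε
  choose! Cr hCr0 hCr using near_root
  set CM : ℝ := 1 + ∑ k ∈ Icc 1 M, Cr k with hCM
  have hCMk : ∀ k, 1 ≤ k → k ≤ M → Cr k ≤ CM := by
    intro k hk hkM
    have := single_le_sum (f := Cr) (s := Icc 1 M) (fun i hi => (hCr0 i (mem_Icc.1 hi).1).le)
      (mem_Icc.2 ⟨hk, hkM⟩)
    linarith
  have hCM1 : 1 ≤ CM := by
    have : 0 ≤ ∑ k ∈ Icc 1 M, Cr k := sum_nonneg fun i hi => (hCr0 i (mem_Icc.1 hi).1).le
    linarith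
  refine ⟨D0 * (((M : ℝ) + 1) * (9 * (32 * CM ^ 2))), by positivity, ?_⟩
  intro k hk hkM f hf c z0 hz0 θ Y hθ hY T hT
  have hnf : (0 : ℝ) < nm f := by exact_mod_cast nm_pos hf
  set E : ℝ := θ ^ 2 * ‖z0‖ ^ 2 * Y ^ 2 / nm f with hE
  have hE0 : 0 ≤ E := by positivity
  have hz : 0 < ‖z0‖ := norm_pos_iff.2 hz0
  -- inverses
  have hex : ∀ t : Gi × Gi, ∃ a : Gi, t ∈ T → f ∣ a * t.2 - 1 := by
    intro t
    by_cases ht : t ∈ T
    · obtain ⟨a, b, hab⟩ := (hT t ht).2.2.2.2.1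
      exact ⟨a, fun _ => ⟨-b, by rw [← hab]; ring⟩⟩
    · exact ⟨0, fun h => absurd h ht⟩
  choose iv hiv using hex
  have hivq : ∀ t ∈ T, qm f (iv t) * qm f t.2 = 1 := by
    intro t ht
    rw [← map_mul, ← map_one (qm f), qm_eq]
    exact hiv t ht
  have hmain : (T.card : ℝ) ≤ (100 * ((M : ℝ) + 1) ^ 6) ^ (pfs f).card *
      (((M : ℝ) + 1) * (9 * (32 * CM ^ 2)) * (1 + E)) := by
    apply fibA f T (fun t => t.1 * iv t)
    · positivity
    · intro S hS hsep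
      have h1 := root_bound hk f hf S (by
        intro x hx
        obtain ⟨t, ht, rfl⟩ := hS x hx
        refine IsCoprime.mul_left (hT t ht).2.2.2.1 ?_
        obtain ⟨d, hd⟩ := hiv t ht
        exact ⟨t.2, -d, by linear_combination hd⟩) (by
        intro x hx y hy
        obtain ⟨t, ht, rfl⟩ := hS x hx
        obtain ⟨t', ht', rfl⟩ := hS y hy
        have key : ∀ t ∈ T, qm f ((t.1 * iv t) ^ k) = c := by
          intro t ht
          have h2 := (hT t ht).2.2.2.2.2.1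
          rw [map_pow, map_mul, mul_pow, h2, mul_assoc, ← mul_pow, mul_comm (qm f t.2),
            hivq t ht, one_pow, mul_one]
        rw [← qm_eq, key t ht, key t' ht']) hsep
      calc (S.card : ℝ) ≤ ((100 * k ^ 6) ^ (pfs f).card : ℕ) := by exact_mod_cast h1
        _ ≤ _ := by
          push_cast
          apply pow_le_pow_left₀ (by positivity)
          apply mul_le_mul_of_nonneg_left _ (by norm_num)
          apply pow_le_pow_left₀ (Nat.cast_nonneg _)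
          have : (k : ℝ) ≤ M := by exact_mod_cast hkM
          linarith
    · intro T' hT' hcl
      have hd : ∀ t ∈ T', ∀ t' ∈ T', f ∣ t.1 * t'.2 - t'.1 * t.2 := by
        intro t ht t' ht'
        obtain ⟨a, ha⟩ := hcl t ht t' ht'
        obtain ⟨b, hb⟩ := hiv t (hT' ht)
        obtain ⟨b', hb'⟩ := hiv t' (hT' ht')
        refine ⟨a * t.2 * t'.2 - t.1 * t'.2 * b + t'.1 * t.2 * b', ?_⟩
        linear_combination t.2 * t'.2 * ha - t.1 * t'.2 * hb + t'.1 * t.2 * hb'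
      have hex2 : ∀ t : Gi × Gi, ∃ ζ : ℂ, t ∈ T' → ζ ∈ Polynomial.nthRootsFinset k (1 : ℂ) ∧
          ‖φ t.1 / φ t.2 - ζ * z0‖ ≤ CM * θ * ‖z0‖ := by
        intro t
        by_cases ht : t ∈ T'
        · have h1 := (hT t (hT' ht)).2.2.2.2.2.2.2
          have h2 : ‖(φ t.1 / φ t.2 / z0) ^ k - 1‖ ≤ θ := by
            have h3 : (φ t.1 / φ t.2 / z0) ^ k - 1 = ((φ t.1 / φ t.2) ^ k - z0 ^ k) / z0 ^ k := by
              rw [div_pow _ z0, sub_div, div_self (pow_ne_zero k hz0)]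
            rw [h3, norm_div, norm_pow, div_le_iff₀ (by positivity)]
            exact h1
          obtain ⟨ζ, hζ, h3⟩ := hCr k hk _ _ h2
          refine ⟨ζ, fun _ => ⟨hζ, ?_⟩⟩
          have h4 : φ t.1 / φ t.2 - ζ * z0 = (φ t.1 / φ t.2 / z0 - ζ) * z0 := by
            rw [sub_mul, div_mul_cancel₀ _ hz0]
          rw [h4, norm_mul]
          apply mul_le_mul_of_nonneg_right _ hz.le
          exact h3.trans (mul_le_mul_of_nonneg_right (hCMk k hk hkM) hθ)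
        · exact ⟨0, fun h => absurd h ht⟩
      choose ze hze using hex2
      rw [card_eq_sum_card_fiberwise (f := ze) (t := Polynomial.nthRootsFinset k (1 : ℂ))
        (fun t ht => mem_coe.2 (hze t ht).1)]
      push_cast
      have hfib : ∀ ζ ∈ Polynomial.nthRootsFinset k (1 : ℂ),
          ((T'.filter fun t => ze t = ζ).card : ℝ) ≤ 9 * (32 * CM ^ 2) * (1 + E) := by
        intro ζ _
        refine (lattice (T'.filter fun t => ze t = ζ) hf (ζ * z0) (CM * θ * ‖z0‖) Y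
          (by positivity) hY ?_ ?_).trans ?_
        · intro t ht
          rw [mem_filter] at ht
          obtain ⟨a1, a2, a3, a4, a5, a6, a7, a8⟩ := hT t (hT' ht.1)
          refine ⟨a1, a2, a3, a7, ?_⟩
          rw [← ht.2]
          exact (hze t ht.1).2
        · intro t ht t' ht'
          exact hd t (mem_filter.1 ht).1 t' (mem_filter.1 ht').1
        · have e1 : (CM * θ * ‖z0‖) ^ 2 * Y ^ 2 / nm f = CM ^ 2 * E := by rw [hE]; ring
          rw [e1]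
          have e2 : (18 : ℝ) ≤ 32 * CM ^ 2 := by nlinarith
          nlinarith
      refine (sum_le_sum hfib).trans ?_
      rw [sum_const, nsmul_eq_mul, mul_assoc ((M : ℝ) + 1)]
      apply mul_le_mul_of_nonneg_right _ (by positivity)
      have h5 : (Polynomial.nthRootsFinset k (1 : ℂ)).card ≤ k := by
        unfold Polynomial.nthRootsFinset
        exact (Multiset.toFinset_card_le _).trans (Polynomial.card_nthRoots _ _)
      have h6 : ((Polynomial.nthRootsFinset k (1 : ℂ)).card : ℝ) ≤ M := by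
        exact_mod_cast h5.trans hkM
      linarith
  refine hmain.trans ?_
  calc (100 * ((M : ℝ) + 1) ^ 6) ^ (pfs f).card * (((M : ℝ) + 1) * (9 * (32 * CM ^ 2)) * (1 + E))
      ≤ (D0 * (nm f : ℝ) ^ ε) * (((M : ℝ) + 1) * (9 * (32 * CM ^ 2)) * (1 + E)) :=
        mul_le_mul_of_nonneg_right (hom f hf) (by positivity)
    _ = _ := by ring

end Pool.Agent.W17.AB
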