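import Mathlib
import Pool.Agent.W17.AB.DD

/-!
# abc over the Gaussian integers: module M1
-/

namespace Pool.Agent.W17.AB

open Finset UniqueFactorizationMonoid
open Pool.Agent.H785R2.ABC (cls Good)

noncomputable local instance instDecM : DecidableEq Gi := Classical.decEq _

/-- conditions on a pair -/
structure PC (K : ℕ) (X : ℕ) (f : Gi) (S S' : Finset (Fin (K + 1))) (A A' κ : ℝ) (w0 : ℂ) (θ : ℝ)
    (t : Gi × Gi) : Prop where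
  n1 : t.1 ≠ 0
  l1 : nm t.1 ≤ X
  n2 : t.2 ≠ 0
  l2 : nm t.2 ≤ X
  co : IsCoprime t.1 t.2
  c1 : IsCoprime t.1 f
  c2 : IsCoprime t.2 f
  dv : f ∣ t.1 + t.2
  p1 : (pt K t.1 S : ℝ) ≤ A
  p2 : (pt K t.2 S' : ℝ) ≤ A'
  q2 : A' ≤ κ * pt K t.2 S'
  w : ‖w0‖ ≤ κ * ‖φ t.1 / φ t.2‖
  d : ‖φ t.1 / φ t.2 - w0‖ ≤ θ * ‖w0‖

def StmtM1 : Prop :=
  ∀ K : ℕ, ∀ ε : ℝ, 0 < ε → ∀ κ : ℝ, 1 ≤ κ → ∃ D : ℝ, 0 < D ∧ ∀ k : ℕ, 1 ≤ k → k ≤ K + 1 →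
    ∀ (X : ℕ) (f : Gi), f ≠ 0 → nm f ≤ X →
    ∀ S S' : Finset (Fin (K + 1)), Good K k S → Good K k S' →
    ∀ (A A' R R' : ℝ) (w0 : ℂ) (θ : ℝ), 0 < A → 0 < A' → 0 ≤ R → 0 ≤ R' → w0 ≠ 0 → 0 ≤ θ →
    ∀ P : Finset (Gi × Gi),
    (∀ t ∈ P, PC K X f S S' A A' κ w0 θ t ∧ (rd K t.1 Sᶜ : ℝ) ≤ R ∧ (rd K t.2 S'ᶜ : ℝ) ≤ R') →
    (P.card : ℝ) ≤ D * (X : ℝ) ^ ε * (R * R') * (1 + θ ^ 2 * (A * A') ^ ((1 : ℝ) / k) / nm f)

namespace M1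

lemma le_of_pow {a b : ℝ} (hb : 0 ≤ b) {k : ℕ} (hk : 1 ≤ k) (h : a ^ k ≤ b ^ k) : a ≤ b :=
  le_of_pow_le_pow_left₀ (by omega) hb h

lemma root_pow {x : ℝ} (hx : 0 ≤ x) {k : ℕ} (hk : 1 ≤ k) : (x ^ ((1 : ℝ) / k)) ^ k = x := by
  rw [one_div]
  exact Real.rpow_inv_natCast_pow hx (by omega)

lemma root_nonneg {x : ℝ} (hx : 0 ≤ x) (k : ℕ) : 0 ≤ x ^ ((1 : ℝ) / k) := Real.rpow_nonneg hx _

/-- the bound for one fibre -/
lemma fibre {K k : ℕ} (hk : 1 ≤ k) (hkK : k ≤ K + 1) {ε D₂ : ℝ} (hD₂ : 0 < D₂)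
    (hε : 0 < ε)
    (hD : ∀ k : ℕ, 1 ≤ k → k ≤ K + 1 → ∀ f : Gi, f ≠ 0 →
      ∀ c : Rs f, ∀ z0 : ℂ, z0 ≠ 0 → ∀ θ Y : ℝ, 0 ≤ θ → 0 < Y → ∀ T : Finset (Gi × Gi),
      (∀ t ∈ T, t.1 ≠ 0 ∧ t.2 ≠ 0 ∧ IsCoprime t.1 t.2 ∧ IsCoprime t.1 f ∧ IsCoprime t.2 f ∧
        qm f t.1 ^ k = c * qm f t.2 ^ k ∧
        (nm t.2 : ℝ) ≤ Y ∧ ‖(φ t.1 / φ t.2) ^ k - z0 ^ k‖ ≤ θ * ‖z0‖ ^ k) →
      (T.card : ℝ) ≤ D₂ * (nm f : ℝ) ^ ε * (1 + θ ^ 2 * ‖z0‖ ^ 2 * Y ^ 2 / nm f))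
    {κ : ℝ} (hκ : 1 ≤ κ) {X : ℕ} {f : Gi} (hf : f ≠ 0) (hfX : nm f ≤ X)
    {S S' : Finset (Fin (K + 1))} (hS : Good K k S) (hS' : Good K k S')
    {A A' : ℝ} {w0 : ℂ} {θ : ℝ} (hA : 0 < A) (hA' : 0 < A') (hw0 : w0 ≠ 0) (hθ : 0 ≤ θ) (d d' : Gi)
    (P : Finset (Gi × Gi))
    (hP : ∀ t ∈ P, cop K t.1 S = d ∧ cop K t.2 S' = d' ∧ PC K X f S S' A A' κ w0 θ t) :
    (P.card : ℝ) ≤ D₂ * (X : ℝ) ^ ε * (κ ^ 3 * (1 + θ ^ 2 * (A * A') ^ ((1 : ℝ) / k) / nm f)) := by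
  classical
  have hfR : (0 : ℝ) < nm f := by exact_mod_cast nm_pos hf
  have hXR : (0 : ℝ) < X := by exact_mod_cast (lt_of_lt_of_le (nm_pos hf) hfX)
  have hE0 : 0 ≤ (A * A') ^ ((1 : ℝ) / k) := Real.rpow_nonneg (mul_pos hA hA').le _
  rcases P.eq_empty_or_nonempty with hE | ⟨t₁, ht₁⟩
  · rw [hE, Finset.card_empty, Nat.cast_zero]
    positivity
  -- the k-th roots
  have hex : ∀ n : Gi, ∃ x : Gi, x ^ k = ptg K n S ∧ x ≠ 0 := fun n => power hk hS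
  have hey : ∀ n : Gi, ∃ x : Gi, x ^ k = ptg K n S' ∧ x ≠ 0 := fun n => power hk hS'
  choose x hx using hex
  choose y hy using hey
  -- basic facts on members of `P`
  have key : ∀ t ∈ P, x t.1 ^ k * d = t.1 ∧ y t.2 ^ k * d' = t.2 ∧
      x t.1 ∣ t.1 ∧ y t.2 ∣ t.2 ∧ d ∣ t.1 ∧ d' ∣ t.2 := by
    intro t ht
    obtain ⟨h1, h2, h3⟩ := hP t ht
    have e1 : x t.1 ^ k * d = t.1 := by rw [(hx t.1).1, ← h1]; exact part_mul_cop h3.n1 S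
    have e2 : y t.2 ^ k * d' = t.2 := by rw [(hy t.2).1, ← h2]; exact part_mul_cop h3.n2 S'
    refine ⟨e1, e2, ?_, ?_, ?_, ?_⟩
    · exact (dvd_pow_self _ (by omega)).trans ⟨d, e1.symm⟩
    · exact (dvd_pow_self _ (by omega)).trans ⟨d', e2.symm⟩
    · exact ⟨x t.1 ^ k, by rw [mul_comm]; exact e1.symm⟩
    · exact ⟨y t.2 ^ k, by rw [mul_comm]; exact e2.symm⟩
  -- the set of pairs of roots
  set T : Finset (Gi × Gi) := P.image fun t => (x t.1, y t.2) with hT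
  have hcard : T.card = P.card := by
    apply Finset.card_image_of_injOn
    intro t ht t' ht' htt
    obtain ⟨a1, a2, -⟩ := key t ht
    obtain ⟨b1, b2, -⟩ := key t' ht'
    have h1 : x t.1 = x t'.1 := congrArg Prod.fst htt
    have h2 : y t.2 = y t'.2 := congrArg Prod.snd htt
    apply Prod.ext
    · rw [← a1, ← b1, h1]
    · rw [← a2, ← b2, h2]
  have hPC₁ := (hP t₁ ht₁).2.2
  obtain ⟨k1, k2, k5, k6, k7, k8⟩ := key t₁ ht₁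
  have hd0 : d ≠ 0 := fun h => by rw [h, mul_zero] at k1; exact hPC₁.n1 k1.symm
  have hd'0 : d' ≠ 0 := fun h => by rw [h, mul_zero] at k2; exact hPC₁.n2 k2.symm
  have hdf : IsCoprime d f := hPC₁.c1.of_isCoprime_of_dvd_left k7
  have hd'f : IsCoprime d' f := hPC₁.c2.of_isCoprime_of_dvd_left k8
  obtain ⟨ud, hud⟩ := qm_isUnit hdf
  set c : Rs f := -(qm f d') * ((ud⁻¹ : (Rs f)ˣ) : Rs f) with hc
  -- the complex root
  obtain ⟨z0, hz0⟩ := IsAlgClosed.exists_pow_nat_eq (w0 * φ d' / φ d) (show 0 < k by omega)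
  have hz0ne : z0 ≠ 0 := by
    rintro rfl
    rw [zero_pow (by omega)] at hz0
    exact (div_ne_zero (mul_ne_zero hw0 (φ_ne hd'0)) (φ_ne hd0)) hz0.symm
  have hz0n : ‖z0‖ ^ k = ‖w0‖ * ‖φ d'‖ / ‖φ d‖ := by
    rw [← norm_pow, hz0, norm_div, norm_mul]
  have hφd : 0 < ‖φ d‖ := norm_pos_iff.2 (φ_ne hd0)
  have hφd' : 0 < ‖φ d'‖ := norm_pos_iff.2 (φ_ne hd'0)
  set Y : ℝ := A' ^ ((1 : ℝ) / k) with hY
  have hY0 : 0 < Y := Real.rpow_pos_of_pos hA' _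
  have hYk : Y ^ k = A' := root_pow hA'.le hk
  have hratio : ∀ t ∈ P, (φ (x t.1) / φ (y t.2)) ^ k = φ t.1 / φ t.2 * (φ d' / φ d) := by
    intro t ht
    obtain ⟨a1, a2, -⟩ := key t ht
    have e1 : φ t.1 = φ (x t.1) ^ k * φ d := by rw [← φ_pow, ← φ_mul, a1]
    have e2 : φ t.2 = φ (y t.2) ^ k * φ d' := by rw [← φ_pow, ← φ_mul, a2]
    have h1 := φ_ne hd0
    have h2 := φ_ne hd'0
    have h3 : φ (y t.2) ^ k ≠ 0 := pow_ne_zero _ (φ_ne (hy t.2).2)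
    rw [e1, e2, div_pow]
    field_simp
  have hTD := hD k hk hkK f hf c z0 hz0ne θ Y hθ hY0 T (by
    intro t ht
    rw [hT, Finset.mem_image] at ht
    obtain ⟨s, hs, rfl⟩ := ht
    have hPC := (hP s hs).2.2
    obtain ⟨a1, a2, a5, a6, a7, a8⟩ := key s hs
    refine ⟨(hx _).2, (hy _).2, ?_, ?_, ?_, ?_, ?_, ?_⟩
    · exact (hPC.co.of_isCoprime_of_dvd_left a5).of_isCoprime_of_dvd_right a6
    · exact hPC.c1.of_isCoprime_of_dvd_left a5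
    · exact hPC.c2.of_isCoprime_of_dvd_left a6
    · change qm f (x s.1) ^ k = c * qm f (y s.2) ^ k
      have e1 : qm f (x s.1) ^ k * qm f d = qm f s.1 := by rw [← map_pow, ← map_mul, a1]
      have e2 : qm f (y s.2) ^ k * qm f d' = qm f s.2 := by rw [← map_pow, ← map_mul, a2]
      have e0 : qm f s.1 = - qm f s.2 := by
        rw [← map_neg, qm_eq, sub_neg_eq_add]
        exact hPC.dv
      have e3 : qm f (x s.1) ^ k * (ud : Rs f) = -(qm f (y s.2) ^ k * qm f d') := by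
        rw [hud, e1, e2, e0]
      have e4 : qm f (x s.1) ^ k = qm f (x s.1) ^ k * (ud : Rs f) * ((ud⁻¹ : (Rs f)ˣ) : Rs f) := by
        rw [mul_assoc, Units.mul_inv, mul_one]
      rw [e4, e3, hc]
      ring
    · change (nm (y s.2) : ℝ) ≤ Y
      apply le_of_pow hY0.le hk
      rw [hYk]
      have : (nm (y s.2) : ℝ) ^ k = pt K s.2 S' := by
        unfold pt
        rw [← (hy s.2).1, nm_pow]
        push_cast
        rfl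
      rw [this]
      exact hPC.p2
    · change ‖(φ (x s.1) / φ (y s.2)) ^ k - z0 ^ k‖ ≤ θ * ‖z0‖ ^ k
      rw [hratio s hs, hz0n, hz0]
      have e1 : φ s.1 / φ s.2 * (φ d' / φ d) - w0 * φ d' / φ d =
          (φ s.1 / φ s.2 - w0) * (φ d' / φ d) := by ring
      rw [e1, norm_mul, norm_div (φ d')]
      have := hPC.d
      calc ‖φ s.1 / φ s.2 - w0‖ * (‖φ d'‖ / ‖φ d‖) ≤ (θ * ‖w0‖) * (‖φ d'‖ / ‖φ d‖) :=
            mul_le_mul_of_nonneg_right this (by positivity)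
        _ = _ := by ring)
  rw [hcard] at hTD
  refine hTD.trans ?_
  -- comparison of the last factor
  have hx1 : 0 < ‖φ (x t₁.1)‖ := norm_pos_iff.2 (φ_ne (hx _).2)
  have hy1 : 0 < ‖φ (y t₁.2)‖ := norm_pos_iff.2 (φ_ne (hy _).2)
  have hz1 : ‖z0‖ ≤ κ * (‖φ (x t₁.1)‖ / ‖φ (y t₁.2)‖) := by
    apply le_of_pow (by positivity) hk
    rw [hz0n, mul_pow, ← norm_div, ← norm_pow, hratio t₁ ht₁, norm_mul, norm_div (φ d')]
    have h2 : κ ≤ κ ^ k := le_self_pow₀ hκ (by omega)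
    calc ‖w0‖ * ‖φ d'‖ / ‖φ d‖ = ‖w0‖ * (‖φ d'‖ / ‖φ d‖) := by ring
      _ ≤ (κ * ‖φ t₁.1 / φ t₁.2‖) * (‖φ d'‖ / ‖φ d‖) :=
          mul_le_mul_of_nonneg_right hPC₁.w (by positivity)
      _ = κ * (‖φ t₁.1 / φ t₁.2‖ * (‖φ d'‖ / ‖φ d‖)) := by ring
      _ ≤ κ ^ k * (‖φ t₁.1 / φ t₁.2‖ * (‖φ d'‖ / ‖φ d‖)) :=
          mul_le_mul_of_nonneg_right h2 (by positivity)
  have hz2 : ‖z0‖ ^ 2 ≤ κ ^ 2 * ((nm (x t₁.1) : ℝ) / nm (y t₁.2)) := by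
    rw [nm_real, nm_real, ← div_pow, ← mul_pow]
    exact pow_le_pow_left₀ (norm_nonneg _) hz1 2
  have hny : (0 : ℝ) < nm (y t₁.2) := by exact_mod_cast nm_pos (hy _).2
  have hYκ : Y ≤ κ * nm (y t₁.2) := by
    apply le_of_pow (by positivity) hk
    rw [hYk, mul_pow]
    have e5 : (nm (y t₁.2) : ℝ) ^ k = pt K t₁.2 S' := by
      unfold pt
      rw [← (hy t₁.2).1, nm_pow]
      push_cast
      rfl
    rw [e5]
    refine hPC₁.q2.trans ?_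
    have h2 : κ ≤ κ ^ k := le_self_pow₀ hκ (by omega)
    exact mul_le_mul_of_nonneg_right h2 (Nat.cast_nonneg _)
  have hxA : (nm (x t₁.1) : ℝ) ≤ A ^ ((1 : ℝ) / k) := by
    apply le_of_pow (root_nonneg hA.le k) hk
    rw [root_pow hA.le hk]
    have e5 : (nm (x t₁.1) : ℝ) ^ k = pt K t₁.1 S := by
      unfold pt
      rw [← (hx t₁.1).1, nm_pow]
      push_cast
      rfl
    rw [e5]
    exact hPC₁.p1
  have hmain : ‖z0‖ ^ 2 * Y ^ 2 ≤ κ ^ 3 * (A * A') ^ ((1 : ℝ) / k) := by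
    rw [Real.mul_rpow hA.le hA'.le]
    calc ‖z0‖ ^ 2 * Y ^ 2 ≤ (κ ^ 2 * ((nm (x t₁.1) : ℝ) / nm (y t₁.2))) * Y ^ 2 :=
          mul_le_mul_of_nonneg_right hz2 (by positivity)
      _ = κ ^ 2 * (nm (x t₁.1) : ℝ) * (Y / nm (y t₁.2)) * Y := by ring
      _ ≤ κ ^ 2 * (nm (x t₁.1) : ℝ) * κ * Y := by
          apply mul_le_mul_of_nonneg_right _ hY0.le
          apply mul_le_mul_of_nonneg_left _ (by positivity)
          rw [div_le_iff₀ hny]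
          exact hYκ
      _ = κ ^ 3 * ((nm (x t₁.1) : ℝ) * Y) := by ring
      _ ≤ κ ^ 3 * (A ^ ((1 : ℝ) / k) * Y) := by
          apply mul_le_mul_of_nonneg_left _ (by positivity)
          exact mul_le_mul_of_nonneg_right hxA hY0.le
      _ = κ ^ 3 * (A ^ ((1 : ℝ) / k) * A' ^ ((1 : ℝ) / k)) := by rw [hY]
  have hκ3 : 1 ≤ κ ^ 3 := one_le_pow₀ hκ
  have h5 : 1 + θ ^ 2 * ‖z0‖ ^ 2 * Y ^ 2 / nm f ≤
      κ ^ 3 * (1 + θ ^ 2 * (A * A') ^ ((1 : ℝ) / k) / nm f) := by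
    have h6 : θ ^ 2 * ‖z0‖ ^ 2 * Y ^ 2 / nm f ≤
        κ ^ 3 * (θ ^ 2 * (A * A') ^ ((1 : ℝ) / k) / nm f) := by
      rw [← mul_div_assoc]
      apply div_le_div_of_nonneg_right _ hfR.le
      calc θ ^ 2 * ‖z0‖ ^ 2 * Y ^ 2 = θ ^ 2 * (‖z0‖ ^ 2 * Y ^ 2) := by ring
        _ ≤ θ ^ 2 * (κ ^ 3 * (A * A') ^ ((1 : ℝ) / k)) :=
            mul_le_mul_of_nonneg_left hmain (by positivity)
        _ = κ ^ 3 * (θ ^ 2 * (A * A') ^ ((1 : ℝ) / k)) := by ring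
    rw [mul_add, mul_one]
    linarith
  have h7 : (nm f : ℝ) ^ ε ≤ (X : ℝ) ^ ε :=
    Real.rpow_le_rpow hfR.le (by exact_mod_cast hfX) hε.le
  have h8 : 0 ≤ 1 + θ ^ 2 * ‖z0‖ ^ 2 * Y ^ 2 / nm f := by positivity
  calc D₂ * (nm f : ℝ) ^ ε * (1 + θ ^ 2 * ‖z0‖ ^ 2 * Y ^ 2 / nm f)
      ≤ D₂ * (X : ℝ) ^ ε * (1 + θ ^ 2 * ‖z0‖ ^ 2 * Y ^ 2 / nm f) :=
        mul_le_mul_of_nonneg_right (mul_le_mul_of_nonneg_left h7 hD₂.le) h8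
    _ ≤ _ := mul_le_mul_of_nonneg_left h5 (by positivity)

end M1

open M1 in
theorem stmtM1 : StmtM1 := by
  classical
  intro K ε hε κ hκ
  obtain ⟨D₁, hD₁, h1⟩ := stmtA4 (ε / 3) (by positivity)
  obtain ⟨D₂, hD₂, h2⟩ := stmtD (K + 1) (ε / 3) (by positivity)
  refine ⟨D₁ * D₁ * (D₂ * κ ^ 3), by positivity, ?_⟩
  intro k hk hkK X f hf hfX S S' hS hS' A A' R R' w0 θ hA hA' hR hR' hw0 hθ P hP
  have hfR : (0 : ℝ) < nm f := by exact_mod_cast nm_pos hf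
  have hX : 1 ≤ X := (nm_pos hf).trans_le hfX
  have hXR : (0 : ℝ) < X := by exact_mod_cast hX
  set B : ℝ := D₂ * (X : ℝ) ^ (ε / 3) * (κ ^ 3 * (1 + θ ^ 2 * (A * A') ^ ((1 : ℝ) / k) / nm f))
    with hB
  have hE0 : 0 ≤ (A * A') ^ ((1 : ℝ) / k) := Real.rpow_nonneg (mul_pos hA hA').le _
  have hB0 : 0 ≤ B := by positivity
  set G1 := P.image fun t => cop K t.1 S with hG1
  set G2 := P.image fun t => cop K t.2 S' with hG2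
  have hmaps : ∀ t ∈ P, ((cop K t.1 S, cop K t.2 S') : Gi × Gi) ∈ G1 ×ˢ G2 := by
    intro t ht
    rw [mem_product]
    exact ⟨mem_image_of_mem _ ht, mem_image_of_mem _ ht⟩
  have hfib : ∀ b ∈ G1 ×ˢ G2,
      ((P.filter fun t => ((cop K t.1 S, cop K t.2 S') : Gi × Gi) = b).card : ℝ) ≤ B := by
    intro b _
    apply fibre hk hkK hD₂ (by positivity) h2 hκ hf hfX hS hS' hA hA' hw0 hθ b.1 b.2
    intro t ht
    rw [Finset.mem_filter] at ht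
    exact ⟨congrArg Prod.fst ht.2, congrArg Prod.snd ht.2, (hP t ht.1).1⟩
  have hsum : (P.card : ℝ) ≤ (G1.card : ℝ) * G2.card * B := by
    rw [Finset.card_eq_sum_card_fiberwise hmaps, Nat.cast_sum]
    refine (Finset.sum_le_sum hfib).trans ?_
    rw [Finset.sum_const, nsmul_eq_mul, Finset.card_product]
    push_cast
    exact le_refl _
  have hg1 : (G1.card : ℝ) ≤ D₁ * (X : ℝ) ^ (ε / 3) * R := by
    apply h1 X hX R hR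
    intro d hd
    obtain ⟨t, ht, rfl⟩ := mem_image.1 hd
    obtain ⟨h3, h4, -⟩ := hP t ht
    refine ⟨cop_ne _ _, (nm_le_of_dvd h3.n1 (cop_dvd h3.n1 S)).trans h3.l1, ?_⟩
    rw [rad_cop]
    exact h4
  have hg2 : (G2.card : ℝ) ≤ D₁ * (X : ℝ) ^ (ε / 3) * R' := by
    apply h1 X hX R' hR'
    intro d hd
    obtain ⟨t, ht, rfl⟩ := mem_image.1 hd
    obtain ⟨h3, -, h4⟩ := hP t ht
    refine ⟨cop_ne _ _, (nm_le_of_dvd h3.n2 (cop_dvd h3.n2 S')).trans h3.l2, ?_⟩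
    rw [rad_cop]
    exact h4
  refine hsum.trans ?_
  have h3 : (G1.card : ℝ) * G2.card ≤
      (D₁ * (X : ℝ) ^ (ε / 3) * R) * (D₁ * (X : ℝ) ^ (ε / 3) * R') :=
    mul_le_mul hg1 hg2 (Nat.cast_nonneg _) (by positivity)
  refine (mul_le_mul_of_nonneg_right h3 hB0).trans (le_of_eq ?_)
  have h4 : (X : ℝ) ^ ε = (X : ℝ) ^ (ε / 3) * (X : ℝ) ^ (ε / 3) * (X : ℝ) ^ (ε / 3) := by
    rw [← Real.rpow_add hXR, ← Real.rpow_add hXR]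
    congr 1
    ring
  rw [hB, h4]
  ring

end Pool.Agent.W17.AB
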