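import Mathlib
import Pool.Agent.W17.AB.M1

/-!
# abc over the Gaussian integers: cells and the bound M
-/

namespace Pool.Agent.W17.AB

open Finset UniqueFactorizationMonoid
open Pool.Agent.H785R2.ABC (cls Good)

noncomputable local instance instDecMc : DecidableEq Gi := Classical.decEq _

/-- the three members of a triple -/
def num (s : Gi × Gi × Gi) (j : Fin 3) : Gi :=
  if j = 0 then s.1 else if j = 1 then s.2.1 else s.2.2

/-- ordered coprime triples with sum zero -/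
structure Trp (s : Gi × Gi × Gi) : Prop where
  n0 : s.1 ≠ 0
  n1 : s.2.1 ≠ 0
  n2 : s.2.2 ≠ 0
  sum : s.1 + s.2.1 + s.2.2 = 0
  c01 : IsCoprime s.1 s.2.1
  c02 : IsCoprime s.1 s.2.2
  c12 : IsCoprime s.2.1 s.2.2
  l01 : nm s.1 ≤ nm s.2.1
  l12 : nm s.2.1 ≤ nm s.2.2

/-- a cell -/
structure Cell (K : ℕ) (T : Finset (Gi × Gi × Gi)) : Prop where
  abc : ∀ s ∈ T, Trp s
  rd_le : ∀ s ∈ T, ∀ s' ∈ T, ∀ j S, rd K (num s j) S ≤ 2 ^ (K + 1) * rd K (num s' j) S
  pt_le : ∀ s ∈ T, ∀ s' ∈ T, ∀ j S, pt K (num s j) S ≤ 2 ^ (K + 1) * pt K (num s' j) S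

/-- thinness -/
noncomputable def th (s : Gi × Gi × Gi) (r : Fin 3) : ℝ :=
  if r = 0 then (nm s.1 : ℝ) / nm s.2.2 else 1

theorem th_nonneg (s : Gi × Gi × Gi) (r : Fin 3) : 0 ≤ th s r := by
  unfold th
  split_ifs
  · positivity
  · norm_num

theorem num_ne {s : Gi × Gi × Gi} (h : Trp s) (j : Fin 3) : num s j ≠ 0 := by
  unfold num
  split_ifs
  · exact h.n0
  · exact h.n1
  · exact h.n2

theorem num_le {s : Gi × Gi × Gi} (h : Trp s) (j : Fin 3) : nm (num s j) ≤ nm s.2.2 := by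
  unfold num
  split_ifs
  · exact h.l01.trans h.l12
  · exact h.l12
  · exact le_rfl

theorem num_coprime {s : Gi × Gi × Gi} (h : Trp s) {i j : Fin 3} (hij : i ≠ j) :
    IsCoprime (num s i) (num s j) := by
  have h1 := h.c01
  have h2 := h.c02
  have h3 := h.c12
  fin_cases i <;> fin_cases j <;> simp [num] at hij ⊢ <;>
    first | assumption | (apply IsCoprime.symm; assumption)

theorem num_sum {s : Gi × Gi × Gi} (h : Trp s) {p q r : Fin 3} (hpq : p ≠ q)
    (hqr : q ≠ r) (hpr : p ≠ r) : num s p + num s q + num s r = 0 := by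
  have h1 := h.sum
  fin_cases p <;> fin_cases q <;> fin_cases r <;>
    first
      | exact absurd rfl hpq
      | exact absurd rfl hqr
      | exact absurd rfl hpr
      | (simp [num]; linear_combination h1)

theorem third_ne {p q : Fin 3} (hpq : p ≠ q) : ∃ r : Fin 3, q ≠ r ∧ p ≠ r := by
  revert p q; decide

theorem three_cases : ∀ p q r j : Fin 3, p ≠ q → q ≠ r → p ≠ r → j = p ∨ j = q ∨ j = r := by
  decide

theorem num_ext {s t : Gi × Gi × Gi} (h : ∀ j, num s j = num t j) : s = t := by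
  have h0 := h 0
  have h1 := h 1
  have h2 := h 2
  simp [num] at h0 h1 h2
  exact Prod.ext h0 (Prod.ext h1 h2)

theorem num_inj {s t : Gi × Gi × Gi} (hs : Trp s) (ht : Trp t) {p q : Fin 3} (hpq : p ≠ q)
    (h1 : num s p = num t p) (h2 : num s q = num t q) : s = t := by
  obtain ⟨r, hqr, hpr⟩ := third_ne hpq
  have e1 := num_sum hs hpq hqr hpr
  have e2 := num_sum ht hpq hqr hpr
  have h3 : num s r = num t r := by
    rw [h1, h2] at e1
    linear_combination e1 - e2
  apply num_ext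
  intro j
  rcases three_cases p q r j hpq hqr hpr with rfl | rfl | rfl <;> assumption

theorem num_le_X {K : ℕ} {T : Finset (Gi × Gi × Gi)} (hT : Cell K T) {s t : Gi × Gi × Gi}
    (ht : t ∈ T) (hs : s ∈ T) (j : Fin 3) : nm (num t j) ≤ 2 ^ (K + 1) * nm s.2.2 := by
  have h1 := num_le (hT.abc t ht) j
  have h2 := hT.pt_le t ht s hs 2 univ
  rw [pt_univ (num_ne (hT.abc t ht) 2), pt_univ (num_ne (hT.abc s hs) 2)] at h2
  exact h1.trans h2

theorem num_cmp {K : ℕ} {T : Finset (Gi × Gi × Gi)} (hT : Cell K T) {s t : Gi × Gi × Gi}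
    (ht : t ∈ T) (hs : s ∈ T) (j : Fin 3) : nm (num t j) ≤ 2 ^ (K + 1) * nm (num s j) := by
  have h2 := hT.pt_le t ht s hs j univ
  rwa [pt_univ (num_ne (hT.abc t ht) j), pt_univ (num_ne (hT.abc s hs) j)] at h2

theorem Trp.nm_le {s : Gi × Gi × Gi} (h : Trp s) : (nm s.2.2 : ℝ) ≤ 4 * nm s.2.1 := by
  have h1 : φ s.2.2 = -(φ s.1 + φ s.2.1) := by
    have := congrArg φ h.sum
    rw [φ_add, φ_add] at this
    have e : φ (0 : Gi) = 0 := by simp [φ]
    rw [e] at this
    linear_combination this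
  have h2 : ‖φ s.2.2‖ ≤ ‖φ s.1‖ + ‖φ s.2.1‖ := by
    rw [h1, norm_neg]
    exact norm_add_le _ _
  have h3 : ‖φ s.1‖ ^ 2 ≤ ‖φ s.2.1‖ ^ 2 := by
    rw [← nm_real, ← nm_real]
    exact_mod_cast h.l01
  have h4 : ‖φ s.1‖ ≤ ‖φ s.2.1‖ := le_of_pow_le_pow_left₀ two_ne_zero (norm_nonneg _) h3
  rw [nm_real, nm_real]
  have h5 : ‖φ s.2.2‖ ^ 2 ≤ (2 * ‖φ s.2.1‖) ^ 2 :=
    pow_le_pow_left₀ (norm_nonneg _) (by linarith) 2
  linarith

theorem norm_ratio_sq (x y : Gi) : ‖φ x / φ y‖ ^ 2 = (nm x : ℝ) / nm y := by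
  rw [norm_div, div_pow, nm_real, nm_real]

/-- the ratio lies in a disc -/
theorem ratio {K : ℕ} {T : Finset (Gi × Gi × Gi)} (hT : Cell K T) {s : Gi × Gi × Gi}
    (hs : s ∈ T) {p q r : Fin 3} (hpq : p ≠ q) (hqr : q ≠ r) (hpr : p ≠ r) :
    ∃ w0 : ℂ, w0 ≠ 0 ∧ ∀ t ∈ T, ‖w0‖ ≤ (2 : ℝ) ^ (K + 1) * ‖φ (num t p) / φ (num t q)‖ ∧
      ‖φ (num t p) / φ (num t q) - w0‖ ≤ 2 * (2 : ℝ) ^ (K + 1) * Real.sqrt (th s r) * ‖w0‖ := by
  have hs' := hT.abc s hs
  set κ : ℝ := (2 : ℝ) ^ (K + 1) with hκ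
  have hκ2 : 2 ≤ κ := by
    rw [hκ, pow_succ]
    have : (1 : ℝ) ≤ 2 ^ K := one_le_pow₀ (by norm_num)
    linarith
  have hpos : ∀ t ∈ T, ∀ j, (0 : ℝ) < nm (num t j) := fun t ht j => by
    exact_mod_cast nm_pos (num_ne (hT.abc t ht) j)
  have hcmp : ∀ t ∈ T, ∀ t' ∈ T, ∀ j, (nm (num t j) : ℝ) ≤ κ * nm (num t' j) := by
    intro t ht t' ht' j
    have := num_cmp hT ht ht' j
    rw [hκ]
    exact_mod_cast this
  by_cases hr : r = 0
  · have hth : th s r = (nm s.1 : ℝ) / nm s.2.2 := by simp [th, hr]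
    refine ⟨-1, by norm_num, fun t ht => ?_⟩
    have ht' := hT.abc t ht
    have hn0 : num t 0 = t.1 := by simp [num]
    have hn1 : num t 1 = t.2.1 := by simp [num]
    have hn2 : num t 2 = t.2.2 := by simp [num]
    have hs0 : num s 0 = s.1 := by simp [num]
    have hs2 : num s 2 = s.2.2 := by simp [num]
    have p0 := hpos t ht 0
    have p1 := hpos t ht 1
    have p2 := hpos t ht 2
    have ps0 := hpos s hs 0
    have ps2 := hpos s hs 2
    have c0 := hcmp t ht s hs 0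
    have c2 := hcmp s hs t ht 2
    have h4 := ht'.nm_le
    rw [hn0] at p0 c0
    rw [hn1] at p1
    rw [hn2] at p2 c2
    rw [hs0] at ps0 c0
    rw [hs2] at ps2 c2
    -- a general estimate
    have key : ∀ y : Gi, (nm t.2.2 : ℝ) ≤ 4 * nm y → y ≠ 0 → 
        ‖φ t.1 / φ y‖ ≤ 2 * κ * Real.sqrt (th s r) := by
      intro y hy hy0
      have hy1 : (0 : ℝ) < nm y := by exact_mod_cast nm_pos hy0
      apply le_of_pow_le_pow_left₀ two_ne_zero (by positivity)
      rw [norm_ratio_sq, mul_pow, Real.sq_sqrt (th_nonneg s r), hth, div_le_iff₀ hy1]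
      have e1 : (2 * κ) ^ 2 * ((nm s.1 : ℝ) / nm s.2.2) * nm y =
          (κ * nm s.1) * ((κ * (4 * nm y)) / nm s.2.2) := by
        field_simp
        ring
      rw [e1]
      have e2 : (1 : ℝ) ≤ (κ * (4 * nm y)) / nm s.2.2 := by
        rw [le_div_iff₀ ps2, one_mul]
        exact c2.trans (mul_le_mul_of_nonneg_left hy (by linarith))
      calc (nm t.1 : ℝ) ≤ κ * nm s.1 := c0
        _ = (κ * nm s.1) * 1 := by ring
        _ ≤ _ := mul_le_mul_of_nonneg_left e2 (by positivity)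
    have hcases : (p = 1 ∧ q = 2) ∨ (p = 2 ∧ q = 1) := by
      subst hr
      revert p q; decide
    rw [norm_neg, norm_one, mul_one, sub_neg_eq_add]
    have f1 := φ_ne ht'.n1
    have f2 := φ_ne ht'.n2
    have hsum : φ t.1 + φ t.2.1 + φ t.2.2 = 0 := by
      rw [← φ_add, ← φ_add, ht'.sum]
      simp [φ]
    rcases hcases with ⟨rfl, rfl⟩ | ⟨rfl, rfl⟩
    · rw [hn1, hn2]
      constructor
      · have e1 : (1 / 2 : ℝ) ≤ ‖φ t.2.1 / φ t.2.2‖ := by
          apply le_of_pow_le_pow_left₀ two_ne_zero (norm_nonneg _)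
          rw [norm_ratio_sq, le_div_iff₀ p2]
          linarith
        calc (1 : ℝ) = 2 * (1 / 2) := by norm_num
          _ ≤ κ * ‖φ t.2.1 / φ t.2.2‖ := mul_le_mul hκ2 e1 (by norm_num) (by linarith)
      · have e1 : φ t.2.1 / φ t.2.2 + 1 = -(φ t.1 / φ t.2.2) := by
          field_simp
          linear_combination hsum
        rw [e1, norm_neg]
        exact key _ (by linarith) ht'.n2
    · rw [hn1, hn2]
      constructor
      · have e1 : (1 : ℝ) ≤ ‖φ t.2.2 / φ t.2.1‖ := by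
          apply le_of_pow_le_pow_left₀ two_ne_zero (norm_nonneg _)
          rw [norm_ratio_sq, le_div_iff₀ p1, one_pow, one_mul]
          exact_mod_cast ht'.l12
        nlinarith
      · have e1 : φ t.2.2 / φ t.2.1 + 1 = -(φ t.1 / φ t.2.1) := by
          field_simp
          linear_combination hsum
        rw [e1, norm_neg]
        exact key _ h4 ht'.n1
  · have hth : th s r = 1 := by simp [th, hr]
    refine ⟨φ (num s p) / φ (num s q), div_ne_zero (φ_ne (num_ne hs' p)) (φ_ne (num_ne hs' q)),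
      fun t ht => ?_⟩
    have ht' := hT.abc t ht
    have hc : ∀ u ∈ T, ∀ v ∈ T, ‖φ (num u p) / φ (num u q)‖ ≤ κ * ‖φ (num v p) / φ (num v q)‖ := by
      intro u hu v hv
      apply le_of_pow_le_pow_left₀ two_ne_zero (by positivity)
      rw [norm_ratio_sq, mul_pow, norm_ratio_sq, div_le_iff₀ (hpos u hu q)]
      have e1 : κ ^ 2 * ((nm (num v p) : ℝ) / nm (num v q)) * nm (num u q) =
          (κ * nm (num v p)) * ((κ * nm (num u q)) / nm (num v q)) := by ring
      rw [e1]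
      have e2 : (1 : ℝ) ≤ (κ * nm (num u q)) / nm (num v q) := by
        rw [le_div_iff₀ (hpos v hv q), one_mul]
        exact hcmp v hv u hu q
      have := hpos v hv p
      calc (nm (num u p) : ℝ) ≤ κ * nm (num v p) := hcmp u hu v hv p
        _ = (κ * nm (num v p)) * 1 := by ring
        _ ≤ _ := mul_le_mul_of_nonneg_left e2 (by positivity)
    refine ⟨hc s hs t ht, ?_⟩
    rw [hth, Real.sqrt_one, mul_one]
    refine (norm_sub_le _ _).trans ?_
    have h1 := hc t ht s hs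
    have h2 : ‖φ (num s p) / φ (num s q)‖ ≤ κ * ‖φ (num s p) / φ (num s q)‖ :=
      le_mul_of_one_le_left (norm_nonneg _) (by linarith)
    linarith

def StmtMcell : Prop :=
  ∀ K : ℕ, ∀ ε : ℝ, 0 < ε → ∃ D : ℝ, 0 < D ∧ ∀ T : Finset (Gi × Gi × Gi), Cell K T → ∀ s ∈ T,
    ∀ p q r : Fin 3, p ≠ q → q ≠ r → p ≠ r → ∀ k : ℕ, 1 ≤ k → k ≤ K + 1 →
    ∀ Sp Sq F : Finset (Fin (K + 1)), Good K k Sp → Good K k Sq →
    (T.card : ℝ) ≤ D * (nm s.2.2 : ℝ) ^ ε *
      ((rd K (num s p) Spᶜ : ℝ) * rd K (num s q) Sqᶜ * rd K (num s r) F) *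
      (1 + th s r * ((pt K (num s p) Sp : ℝ) * pt K (num s q) Sq) ^ ((1 : ℝ) / k) /
        pt K (num s r) F)

theorem stmtMcell : StmtMcell := by
  intro K ε hε
  set kap : ℕ := 2 ^ (K + 1) with hkap
  have hkap1 : 1 ≤ kap := Nat.one_le_two_pow
  have hkapR : (1 : ℝ) ≤ (kap : ℝ) := by exact_mod_cast hkap1
  have hkapE : (kap : ℝ) = 2 ^ (K + 1) := by rw [hkap]; push_cast; rfl
  obtain ⟨DA, hDA, hA⟩ := stmtA4 (ε / 2) (half_pos hε)
  obtain ⟨DM, hDM, hM1⟩ := stmtM1 K (ε / 2) (half_pos hε) ((kap : ℝ) ^ 2) (one_le_pow₀ hkapR)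
  refine ⟨DA * DM * (4 * (kap : ℝ) ^ 8) * (kap : ℝ) ^ ε, by positivity, ?_⟩
  intro T hT s hs p q r hpq hqr hpr k hk hkK Sp Sq F hSp hSq
  -- basic facts about the members
  have habc := hT.abc
  have hs' := habc s hs
  set c : ℕ := nm s.2.2 with hc
  have hc1 : 1 ≤ c := nm_pos hs'.n2
  set X : ℕ := kap * c with hX
  have hX1 : 1 ≤ X := Nat.mul_pos hkap1 hc1
  have hleX : ∀ t ∈ T, ∀ j, nm (num t j) ≤ X := fun t ht j => num_le_X hT ht hs j
  -- the real quantities
  set RF : ℝ := (kap : ℝ) * rd K (num s r) F with hRF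
  set R : ℝ := (kap : ℝ) * rd K (num s p) Spᶜ with hR
  set R' : ℝ := (kap : ℝ) * rd K (num s q) Sqᶜ with hR'
  set A : ℝ := (kap : ℝ) * pt K (num s p) Sp with hAdef
  set A' : ℝ := (kap : ℝ) * pt K (num s q) Sq with hA'def
  have hpartpos : ∀ n S, (0 : ℝ) < pt K n S := by
    intro n S
    have := pt_pos n S
    exact_mod_cast this
  have hrdpos : ∀ n S, (0 : ℝ) < rd K n S := by
    intro n S
    have := rd_pos n S
    exact_mod_cast this
  have hthpos : 0 ≤ th s r := th_nonneg s r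
  obtain ⟨w0, hw0, hratio⟩ := ratio hT hs hpq hqr hpr
  set θ : ℝ := 2 * (2 : ℝ) ^ (K + 1) * Real.sqrt (th s r) with hθ
  have hθ0 : 0 ≤ θ := by positivity
  have hθ2 : θ ^ 2 = 4 * (kap : ℝ) ^ 2 * th s r := by
    rw [hθ, hkapE, mul_pow, Real.sq_sqrt hthpos]
    ring
  -- the set of moduli
  set G : Finset Gi := T.image (fun t => ptg K (num t r) F) with hG
  have hRF0 : 0 ≤ RF := by positivity
  have hGcard : (G.card : ℝ) ≤ DA * (X : ℝ) ^ (ε / 2) * RF := by
    apply hA X hX1 RF hRF0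
    intro f hf
    rw [hG, mem_image] at hf
    obtain ⟨t, ht, rfl⟩ := hf
    refine ⟨ptg_ne _ _, (pt_le (num_ne (habc t ht) r) F).trans (hleX t ht r), ?_⟩
    rw [rad_ptg, hRF]
    exact_mod_cast hT.rd_le t ht s hs r F
  -- the fibres
  set B : ℝ := DM * (X : ℝ) ^ (ε / 2) * (R * R') * (4 * (kap : ℝ) ^ 5 *
    (1 + th s r * ((pt K (num s p) Sp : ℝ) * pt K (num s q) Sq) ^ ((1 : ℝ) / k) /
        pt K (num s r) F)) with hB
  have hfib : ∀ f ∈ G, ((T.filter fun t => ptg K (num t r) F = f).card : ℝ) ≤ B := by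
    intro f hf
    obtain ⟨t0, ht0, htf0⟩ := mem_image.1 hf
    have hf0 : f ≠ 0 := by rw [← htf0]; exact ptg_ne _ _
    have hfX : nm f ≤ X := by
      rw [← htf0]
      exact (pt_le (num_ne (habc t0 ht0) r) F).trans (hleX t0 ht0 r)
    set P : Finset (Gi × Gi) := (T.filter fun t => ptg K (num t r) F = f).image
      (fun t => (num t p, num t q)) with hP
    have hPcard : P.card = (T.filter fun t => ptg K (num t r) F = f).card := by
      apply card_image_of_injOn
      intro t ht t' ht' h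
      rw [mem_coe, mem_filter] at ht ht'
      simp only [Prod.mk.injEq] at h
      exact num_inj (habc t ht.1) (habc t' ht'.1) hpq h.1 h.2
    rw [← hPcard]
    have hApos : 0 < A := by have := hpartpos (num s p) Sp; positivity
    have hA'pos : 0 < A' := by have := hpartpos (num s q) Sq; positivity
    have hmain := hM1 k hk hkK X f hf0 hfX Sp Sq hSp hSq A A' R R' w0 θ
      hApos hA'pos (by positivity) (by positivity) hw0 hθ0 P ?_
    · refine hmain.trans ?_
      rw [hB]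
      apply mul_le_mul_of_nonneg_left _ (by positivity)
      -- comparison of the last factor
      have hkR : (1 : ℝ) ≤ k := by exact_mod_cast hk
      have hk1 : (1 : ℝ) / k ≤ 1 := by
        rw [div_le_one (by linarith)]; exact hkR
      have hk0 : (0 : ℝ) ≤ (1 : ℝ) / k := by positivity
      set PP : ℝ := (pt K (num s p) Sp : ℝ) * pt K (num s q) Sq with hPP
      have hPP0 : 0 < PP := mul_pos (hpartpos _ _) (hpartpos _ _)
      have hAA : A * A' = (kap : ℝ) ^ 2 * PP := by rw [hAdef, hA'def, hPP]; ring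
      have hAA2 : (A * A') ^ ((1 : ℝ) / k) ≤ (kap : ℝ) ^ 2 * PP ^ ((1 : ℝ) / k) := by
        rw [hAA, Real.mul_rpow (by positivity) hPP0.le]
        apply mul_le_mul_of_nonneg_right _ (by positivity)
        calc ((kap : ℝ) ^ 2) ^ ((1 : ℝ) / k) ≤ ((kap : ℝ) ^ 2) ^ (1 : ℝ) :=
              Real.rpow_le_rpow_of_exponent_le (one_le_pow₀ hkapR) hk1
          _ = _ := Real.rpow_one _
      have hfge : (pt K (num s r) F : ℝ) ≤ kap * nm f := by
        rw [← htf0]
        exact_mod_cast hT.pt_le s hs t0 ht0 r F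
      have hfpos : (0 : ℝ) < nm f := by exact_mod_cast nm_pos hf0
      have hFpos := hpartpos (num s r) F
      have hPk : 0 < PP ^ ((1 : ℝ) / k) := Real.rpow_pos_of_pos hPP0 _
      have hinv : (1 : ℝ) / nm f ≤ kap / pt K (num s r) F := by
        rw [div_le_div_iff₀ hfpos hFpos]; linarith
      have hk7 : (1 : ℝ) ≤ (kap : ℝ) ^ 5 := one_le_pow₀ hkapR
      have e1 : θ ^ 2 * (A * A') ^ ((1 : ℝ) / k) / nm f ≤ (4 * (kap : ℝ) ^ 2 * th s r) *
          ((kap : ℝ) ^ 2 * PP ^ ((1 : ℝ) / k)) * (kap / pt K (num s r) F) := by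
        calc θ ^ 2 * (A * A') ^ ((1 : ℝ) / k) / nm f =
              θ ^ 2 * (A * A') ^ ((1 : ℝ) / k) * (1 / nm f) := by ring
          _ ≤ _ := by
            rw [hθ2]
            apply mul_le_mul _ hinv (by positivity) (by positivity)
            exact mul_le_mul_of_nonneg_left hAA2 (by positivity)
      have e2 : (4 * (kap : ℝ) ^ 2 * th s r) *
          ((kap : ℝ) ^ 2 * PP ^ ((1 : ℝ) / k)) * (kap / pt K (num s r) F) =
          4 * (kap : ℝ) ^ 5 * (th s r * PP ^ ((1 : ℝ) / k) / pt K (num s r) F) := by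
        field_simp
      rw [e2] at e1
      calc 1 + θ ^ 2 * (A * A') ^ ((1 : ℝ) / k) / nm f ≤
          4 * (kap : ℝ) ^ 5 + 4 * (kap : ℝ) ^ 5 * (th s r * PP ^ ((1 : ℝ) / k) /
            pt K (num s r) F) := by linarith
        _ = _ := by ring
    · intro x hx
      rw [hP, mem_image] at hx
      obtain ⟨t, ht, rfl⟩ := hx
      rw [mem_filter] at ht
      obtain ⟨ht, htf⟩ := ht
      have ht' := habc t ht
      have hfd : f ∣ num t r := by
        rw [← htf]; exact ptg_dvd (num_ne ht' r) F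
      refine ⟨⟨num_ne ht' p, hleX t ht p, num_ne ht' q, hleX t ht q, num_coprime ht' hpq,
        (num_coprime ht' hpr).of_isCoprime_of_dvd_right hfd,
        (num_coprime ht' hqr).of_isCoprime_of_dvd_right hfd, ?_, ?_, ?_, ?_, ?_, ?_⟩, ?_, ?_⟩
      · obtain ⟨z, hz⟩ := hfd
        have := num_sum ht' hpq hqr hpr
        exact ⟨-z, by linear_combination this - hz⟩
      · have h1 := hT.pt_le t ht s hs p Sp
        rw [← hkap] at h1
        change (pt K (num t p) Sp : ℝ) ≤ (kap : ℝ) * pt K (num s p) Sp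
        exact_mod_cast h1
      · have h1 := hT.pt_le t ht s hs q Sq
        rw [← hkap] at h1
        change (pt K (num t q) Sq : ℝ) ≤ (kap : ℝ) * pt K (num s q) Sq
        exact_mod_cast h1
      · have h1 : (pt K (num s q) Sq : ℝ) ≤ kap * pt K (num t q) Sq := by
          exact_mod_cast hT.pt_le s hs t ht q Sq
        rw [hA'def, sq, mul_assoc]
        exact mul_le_mul_of_nonneg_left h1 (by positivity)
      · have h1 := (hratio t ht).1
        rw [← hkapE] at h1
        refine h1.trans ?_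
        apply mul_le_mul_of_nonneg_right _ (norm_nonneg _)
        nlinarith
      · exact (hratio t ht).2
      · have h1 := hT.rd_le t ht s hs p Spᶜ
        rw [← hkap] at h1
        change (rd K (num t p) Spᶜ : ℝ) ≤ (kap : ℝ) * rd K (num s p) Spᶜ
        exact_mod_cast h1
      · have h1 := hT.rd_le t ht s hs q Sqᶜ
        rw [← hkap] at h1
        change (rd K (num t q) Sqᶜ : ℝ) ≤ (kap : ℝ) * rd K (num s q) Sqᶜ
        exact_mod_cast h1
  -- conclusion
  have hTcard : (T.card : ℝ) ≤ G.card * B := by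
    have h1 : T.card = ∑ f ∈ G, (T.filter fun t => ptg K (num t r) F = f).card :=
      card_eq_sum_card_image _ _
    rw [h1]
    push_cast
    calc ∑ f ∈ G, ((T.filter fun t => ptg K (num t r) F = f).card : ℝ) ≤ ∑ _f ∈ G, B :=
          sum_le_sum hfib
      _ = _ := by rw [sum_const, nsmul_eq_mul]
  have hBnn : 0 ≤ B := by positivity
  have hXpow : (X : ℝ) ^ (ε / 2) * (X : ℝ) ^ (ε / 2) = (kap : ℝ) ^ ε * (c : ℝ) ^ ε := by
    have hX0 : (0 : ℝ) < X := by exact_mod_cast hX1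
    rw [← Real.rpow_add hX0, add_halves, hX]
    push_cast
    rw [Real.mul_rpow (by positivity) (by positivity)]
  calc (T.card : ℝ) ≤ G.card * B := hTcard
    _ ≤ (DA * (X : ℝ) ^ (ε / 2) * RF) * B := mul_le_mul_of_nonneg_right hGcard hBnn
    _ = DA * DM * (4 * (kap : ℝ) ^ 5) * ((X : ℝ) ^ (ε / 2) * (X : ℝ) ^ (ε / 2)) * (RF * (R * R')) *
        (1 + th s r * ((pt K (num s p) Sp : ℝ) * pt K (num s q) Sq) ^ ((1 : ℝ) / k) /
        pt K (num s r) F) := by rw [hB]; ring
    _ = _ := by rw [hXpow, hRF, hR, hR']; ring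

end Pool.Agent.W17.AB
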