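import Mathlib
import Pool.Agent.W17.AB.Mcell
import Pool.Agent.H705R2.ABC.Dc

/-!
# abc over the Gaussian integers: the difference bound
-/

namespace Pool.Agent.W17.AB

open Finset UniqueFactorizationMonoid
open Pool.Agent.H785R2.ABC (cls Good)
open Pool.Agent.H705R2.ABC.Dc (cs_count combine)

noncomputable local instance instDecDc : DecidableEq Gi := Classical.decEq _

namespace Dc

theorem nm_sub_le (a b : Gi) : nm (a - b) ≤ 2 * (nm a + nm b) := by
  have h1 := nm_val a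
  have h2 := nm_val b
  have h3 := nm_val (a - b)
  rw [Zsqrtd.re_sub, Zsqrtd.im_sub] at h3
  have h4 : (nm (a - b) : ℤ) ≤ 2 * (nm a + nm b) := by
    rw [h1, h2, h3]
    nlinarith [sq_nonneg (a.re + b.re), sq_nonneg (a.im + b.im)]
  exact_mod_cast h4

/-- the polynomial equation has few roots -/
theorem few_roots {k : ℕ} (hk : 2 ≤ k) {h : Gi} (hh : h ≠ 0) (β : Gi) (S : Finset Gi)
    (hS : ∀ x ∈ S, x ^ k - (x - h) ^ k = β) : S.card ≤ k := by
  classical
  set pol : Polynomial Gi := Polynomial.X ^ k - (Polynomial.X - Polynomial.C h) ^ k -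
    Polynomial.C β with hpol
  have hdeg : pol.natDegree ≤ k := by
    rw [hpol]
    refine (Polynomial.natDegree_sub_le _ _).trans (max_le ?_ ?_)
    · refine (Polynomial.natDegree_sub_le _ _).trans (max_le ?_ ?_)
      · exact Polynomial.natDegree_X_pow_le k
      · refine Polynomial.natDegree_pow_le.trans ?_
        have : (Polynomial.X - Polynomial.C h).natDegree ≤ 1 :=
          Polynomial.natDegree_X_sub_C_le h
        nlinarith
    · rw [Polynomial.natDegree_C]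
      omega
  have hne : pol ≠ 0 := by
    intro h0
    have e1 : pol.eval h = 0 := by rw [h0, Polynomial.eval_zero]
    have e2 : pol.eval (2 * h) = 0 := by rw [h0, Polynomial.eval_zero]
    rw [hpol] at e1 e2
    simp only [Polynomial.eval_sub, Polynomial.eval_pow, Polynomial.eval_X, Polynomial.eval_C,
      sub_self] at e1 e2
    rw [zero_pow (by omega), sub_zero] at e1
    have e3 : (2 * h - h) = h := by ring
    rw [e3, mul_pow] at e2
    have e4 : ((2 : Gi) ^ k - 2) * h ^ k = 0 := by linear_combination e2 - e1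
    rcases mul_eq_zero.1 e4 with e5 | e5
    · have e6 : ((2 ^ k : ℕ) : Gi) = ((2 : ℕ) : Gi) := by
        push_cast
        linear_combination e5
      have e7 : 2 ^ k = 2 := by exact_mod_cast e6
      have e8 : 2 ^ 2 ≤ 2 ^ k := Nat.pow_le_pow_right (by norm_num) hk
      omega
    · exact pow_ne_zero k hh e5
  have hsub : S ⊆ pol.roots.toFinset := by
    intro x hx
    rw [Multiset.mem_toFinset, Polynomial.mem_roots hne, Polynomial.IsRoot.def, hpol]
    simp only [Polynomial.eval_sub, Polynomial.eval_pow, Polynomial.eval_X, Polynomial.eval_C]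
    rw [hS x hx, sub_self]
  calc S.card ≤ pol.roots.toFinset.card := card_le_card hsub
    _ ≤ Multiset.card pol.roots := Multiset.toFinset_card_le _
    _ ≤ pol.natDegree := Polynomial.card_roots' _
    _ ≤ k := hdeg

end Dc

/-- DC: the difference bound -/
def StmtDc : Prop :=
  ∀ K : ℕ, ∀ ε : ℝ, 0 < ε → ∃ D : ℝ, 0 < D ∧ ∀ T : Finset (Gi × Gi × Gi), Cell K T → ∀ s ∈ T,
    ∀ p q r : Fin 3, p ≠ q → q ≠ r → p ≠ r → ∀ i : Fin (K + 1), 1 ≤ (i : ℕ) → (i : ℕ) < K →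
    (T.card : ℝ) ≤ D * (nm s.2.2 : ℝ) ^ ε *
      ((rd K (num s p) {i}ᶜ : ℝ) * rd K (num s q) univ +
        ((rd K (num s p) {i}ᶜ : ℝ) * rd K (num s q) univ) ^ ((1 : ℝ) / 2) *
          rd K (num s r) univ)

open Dc in
theorem stmtDc : StmtDc := by
  classical
  intro K ε hε
  obtain ⟨D4, hD4, hA⟩ := stmtA4 (ε / 3) (by positivity)
  obtain ⟨Dt0, hDt0, hτ⟩ := divisors (ε / 3) (by positivity)
  obtain ⟨Dt, hDtd⟩ : ∃ Dt : ℝ, Dt = Dt0 * (4 : ℝ) ^ (ε / 3) := ⟨_, rfl⟩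
  have hDt : 0 < Dt := by rw [hDtd]; positivity
  refine ⟨2 * (D4 * 2 ^ (K + 1)) ^ 2 * (1 + ((K : ℝ) + 1) * Dt) * ((2 : ℝ) ^ (K + 1)) ^ ε,
    by positivity, ?_⟩
  intro T hcell s hs p q r hpq hqr hpr i hi1 hiK
  obtain ⟨c, hc⟩ : ∃ c, c = nm s.2.2 := ⟨_, rfl⟩
  have hcpos : 1 ≤ c := by rw [hc]; exact nm_pos (hcell.abc s hs).n2
  obtain ⟨X, hX⟩ : ∃ X, X = 2 ^ (K + 1) * c := ⟨_, rfl⟩
  have hXpos : 1 ≤ X := by rw [hX]; exact Nat.mul_pos (by positivity) hcpos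
  have hnumX : ∀ t ∈ T, ∀ j, nm (num t j) ≤ X := fun t ht j => by
    rw [hX, hc]; exact num_le_X hcell ht hs j
  have hnum1 : ∀ t ∈ T, ∀ j, num t j ≠ 0 := fun t ht j => num_ne (hcell.abc t ht) j
  obtain ⟨Rp, hRp⟩ : ∃ R : ℝ, R = (rd K (num s p) {i}ᶜ : ℝ) := ⟨_, rfl⟩
  obtain ⟨Rq, hRq⟩ : ∃ R : ℝ, R = (rd K (num s q) univ : ℝ) := ⟨_, rfl⟩
  obtain ⟨Rr, hRr⟩ : ∃ R : ℝ, R = (rd K (num s r) univ : ℝ) := ⟨_, rfl⟩
  have hRp0 : 0 ≤ Rp := by rw [hRp]; positivity
  have hRq0 : 0 ≤ Rq := by rw [hRq]; positivity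
  have hRr0 : 0 ≤ Rr := by rw [hRr]; positivity
  rw [← hRp, ← hRq, ← hRr, ← hc]
  -- the power of X
  obtain ⟨y, hy⟩ : ∃ y : ℝ, y = (X : ℝ) ^ (ε / 3) := ⟨_, rfl⟩
  have hXr : (1 : ℝ) ≤ X := by exact_mod_cast hXpos
  have hy1 : 1 ≤ y := by rw [hy]; exact Real.one_le_rpow hXr (by positivity)
  have hy3 : y ^ 3 = ((2 : ℝ) ^ (K + 1)) ^ ε * (c : ℝ) ^ ε := by
    rw [hy, ← Real.rpow_natCast, ← Real.rpow_mul (by positivity), ← Real.mul_rpow (by positivity)
      (by positivity), hX]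
    push_cast
    congr 1
    ring
  -- the sets of numbers with small radical
  have hU : ∀ R : ℝ, 0 ≤ R → ∀ V : Finset Gi,
      (∀ d ∈ V, d ≠ 0 ∧ nm d ≤ X ∧ (rad d : ℝ) ≤ 2 ^ (K + 1) * R) →
      (V.card : ℝ) ≤ (D4 * 2 ^ (K + 1)) * y * R := by
    intro R hR V hV
    have h1 := hA X hXpos (2 ^ (K + 1) * R) (by positivity) V hV
    rw [← hy] at h1
    linarith
  -- the map G
  let G : Gi × Gi × Gi → Gi × Gi := fun t => (cop K (num t p) {i}, num t q)
  have himg : ((T.image G).card : ℝ) ≤ ((D4 * 2 ^ (K + 1)) * y * Rp) * ((D4 * 2 ^ (K + 1)) * y * Rq) := by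
    have h1 : T.image G ⊆ (T.image fun t => cop K (num t p) {i}) ×ˢ (T.image fun t => num t q) := by
      intro z hz
      obtain ⟨t, ht, rfl⟩ := mem_image.1 hz
      exact mem_product.2 ⟨mem_image_of_mem _ ht, mem_image_of_mem _ ht⟩
    have h2 : ((T.image fun t => cop K (num t p) {i}).card : ℝ) ≤ (D4 * 2 ^ (K + 1)) * y * Rp := by
      apply hU Rp hRp0
      intro d hd
      obtain ⟨t, ht, rfl⟩ := mem_image.1 hd
      refine ⟨cop_ne _ _, (nm_le_of_dvd (hnum1 t ht p) (cop_dvd (hnum1 t ht p) {i})).trans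
        (hnumX t ht p), ?_⟩
      rw [rad_cop, hRp]
      exact_mod_cast hcell.rd_le t ht s hs p {i}ᶜ
    have h3 : ((T.image fun t => num t q).card : ℝ) ≤ (D4 * 2 ^ (K + 1)) * y * Rq := by
      apply hU Rq hRq0
      intro d hd
      obtain ⟨t, ht, rfl⟩ := mem_image.1 hd
      refine ⟨hnum1 t ht q, hnumX t ht q, ?_⟩
      rw [← rd_univ (K := K), hRq]
      exact_mod_cast hcell.rd_le t ht s hs q univ
    calc ((T.image G).card : ℝ) ≤ (((T.image fun t => cop K (num t p) {i}) ×ˢ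
        (T.image fun t => num t q)).card : ℝ) := by exact_mod_cast card_le_card h1
      _ = ((T.image fun t => cop K (num t p) {i}).card : ℝ) * ((T.image fun t => num t q).card : ℝ) := by
          rw [card_product]; push_cast; ring
      _ ≤ _ := mul_le_mul h2 h3 (Nat.cast_nonneg _) (by positivity)
  -- the pairs
  let U : Finset Gi := T.image fun t => num t r
  have hUcard : (U.card : ℝ) ≤ (D4 * 2 ^ (K + 1)) * y * Rr := by
    apply hU Rr hRr0
    intro d hd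
    obtain ⟨t, ht, rfl⟩ := mem_image.1 hd
    refine ⟨hnum1 t ht r, hnumX t ht r, ?_⟩
    rw [← rd_univ (K := K), hRr]
    exact_mod_cast hcell.rd_le t ht s hs r univ
  let x : Gi × Gi × Gi → Gi := fun t => rdg K (num t p) {i}
  let A : Gi × Gi × Gi → Gi := fun t => cop K (num t p) {i}
  have hnp : ∀ t ∈ T, num t p = A t * x t ^ ((i : ℕ) + 1) := by
    intro t ht
    have h1 := part_mul_cop (K := K) (hnum1 t ht p) {i}
    rw [ptg_single (num t p) i hiK] at h1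
    rw [mul_comm]
    exact h1.symm
  let P := (T ×ˢ T).filter fun z => z.1 ≠ z.2 ∧ G z.1 = G z.2
  have hP : ∀ z ∈ P, z.1 ∈ T ∧ z.2 ∈ T ∧ z.1 ≠ z.2 ∧ A z.1 = A z.2 ∧
      num z.1 q = num z.2 q := by
    intro z hz
    simp only [P, mem_filter, mem_product, G, Prod.mk.injEq] at hz
    exact ⟨hz.1.1, hz.1.2, hz.2.1, hz.2.2.1, hz.2.2.2⟩
  have hdiff : ∀ z ∈ P, num z.1 r - num z.2 r =
      -(A z.1 * (x z.1 ^ ((i : ℕ) + 1) - x z.2 ^ ((i : ℕ) + 1))) := by
    intro z hz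
    obtain ⟨h1, h2, h3, h4, h5⟩ := hP z hz
    have e1 := num_sum (hcell.abc _ h1) hpq hqr hpr
    have e2 := num_sum (hcell.abc _ h2) hpq hqr hpr
    have e3 := hnp z.1 h1
    have e4 := hnp z.2 h2
    rw [← h4] at e4
    rw [h5] at e1
    linear_combination e1 - e2 - e3 + e4
  have hxne : ∀ z ∈ P, x z.1 - x z.2 ≠ 0 := by
    intro z hz hx
    rw [sub_eq_zero] at hx
    obtain ⟨h1, h2, h3, h4, h5⟩ := hP z hz
    refine h3 (num_inj (hcell.abc _ h1) (hcell.abc _ h2) hpq ?_ h5)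
    rw [hnp z.1 h1, hnp z.2 h2, h4, hx]
  have hrne : ∀ z ∈ P, num z.1 r - num z.2 r ≠ 0 := by
    intro z hz hx
    rw [sub_eq_zero] at hx
    obtain ⟨h1, h2, h3, h4, h5⟩ := hP z hz
    exact h3 (num_inj (hcell.abc _ h1) (hcell.abc _ h2) hqr h5 hx)
  let Φ : (Gi × Gi × Gi) × (Gi × Gi × Gi) → (Gi × Gi) × (Gi × Gi) := fun z =>
    ((num z.1 r, num z.2 r), (A z.1, x z.1 - x z.2))
  -- the fibres of Φ
  have hfibΦ : ∀ v ∈ P.image Φ, (P.filter fun z => Φ z = v).card ≤ K + 1 := by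
    intro v hv
    obtain ⟨z0, hz0, rfl⟩ := mem_image.1 hv
    obtain ⟨β, hβ⟩ : ∃ β, β = x z0.1 ^ ((i : ℕ) + 1) - (x z0.1 - (x z0.1 - x z0.2)) ^ ((i : ℕ) + 1) :=
      ⟨_, rfl⟩
    have hz : ∀ z ∈ P.filter (fun z => Φ z = Φ z0), z ∈ P ∧ num z.1 r = num z0.1 r ∧
        num z.2 r = num z0.2 r ∧ A z.1 = A z0.1 ∧ x z.1 - x z.2 = x z0.1 - x z0.2 := by
      intro z hz
      rw [mem_filter] at hz
      simp only [Φ, Prod.mk.injEq] at hz
      exact ⟨hz.1, hz.2.1.1, hz.2.1.2, hz.2.2.1, hz.2.2.2⟩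
    have hinj : Set.InjOn (fun z : (Gi × Gi × Gi) × (Gi × Gi × Gi) => x z.1)
        (P.filter fun z => Φ z = Φ z0) := by
      intro z hz1 w hw1 hzw
      simp only at hzw
      obtain ⟨a1, a2, a3, a4, a5⟩ := hz z hz1
      obtain ⟨b1, b2, b3, b4, b5⟩ := hz w hw1
      obtain ⟨h1, h2, h3, h4, h5⟩ := hP z a1
      obtain ⟨g1, g2, g3, g4, g5⟩ := hP w b1
      have hx2 : x z.2 = x w.2 := by linear_combination hzw - a5 + b5
      refine Prod.ext ?_ ?_
      · refine num_inj (hcell.abc _ h1) (hcell.abc _ g1) hpr ?_ (a2.trans b2.symm)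
        rw [hnp z.1 h1, hnp w.1 g1, a4, b4, hzw]
      · refine num_inj (hcell.abc _ h2) (hcell.abc _ g2) hpr ?_ (a3.trans b3.symm)
        rw [hnp z.2 h2, hnp w.2 g2, ← h4, ← g4, a4, b4, hx2]
    rw [← card_image_of_injOn hinj]
    have := few_roots (k := (i : ℕ) + 1) (by omega) (hxne z0 hz0) β
      ((P.filter fun z => Φ z = Φ z0).image fun z => x z.1) (by
        intro u hu
        obtain ⟨z, hz1, rfl⟩ := mem_image.1 hu
        obtain ⟨a1, a2, a3, a4, a5⟩ := hz z hz1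
        have d1 := hdiff z a1
        have d2 := hdiff z0 hz0
        rw [a2, a3, d2, a4] at d1
        have hA0 : A z0.1 ≠ 0 := cop_ne _ _
        have d3 := mul_left_cancel₀ hA0 (neg_injective d1)
        rw [hβ, ← a5]
        have e1 : x z.1 - (x z.1 - x z.2) = x z.2 := by ring
        have e2 : x z0.1 - (x z.1 - x z.2) = x z0.2 := by rw [a5]; ring
        rw [e1, e2]
        exact d3.symm)
    have hi2 := i.2
    omega
  -- the image of Φ
  have himΦ : ((P.image Φ).card : ℝ) ≤ ((D4 * 2 ^ (K + 1)) * y * Rr) ^ 2 * (Dt * y) ^ 2 := by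
    have hmaps : ∀ v ∈ P.image Φ, v.1 ∈ U ×ˢ U := by
      intro v hv
      obtain ⟨z, hz, rfl⟩ := mem_image.1 hv
      obtain ⟨h1, h2, -⟩ := hP z hz
      exact mem_product.2 ⟨mem_image_of_mem _ h1, mem_image_of_mem _ h2⟩
    rw [card_eq_sum_card_fiberwise hmaps]
    push_cast
    have hfib : ∀ w ∈ U ×ˢ U, (((P.image Φ).filter fun v => v.1 = w).card : ℝ) ≤ (Dt * y) ^ 2 := by
      intro w _
      set S := (P.image Φ).filter fun v => v.1 = w with hS
      have hSm : ∀ v ∈ S, v.1 = w ∧ v.2.1 ∣ w.1 - w.2 ∧ v.2.2 ∣ w.1 - w.2 ∧ w.1 - w.2 ≠ 0 ∧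
          nm (w.1 - w.2) ≤ 4 * X := by
        intro v hv
        rw [hS, mem_filter] at hv
        obtain ⟨hv1, hv2⟩ := hv
        obtain ⟨z, hz, rfl⟩ := mem_image.1 hv1
        obtain ⟨h1, h2, -⟩ := hP z hz
        have hd := hdiff z hz
        refine ⟨hv2, ?_, ?_, ?_, ?_⟩
        · rw [← hv2]
          change A z.1 ∣ num z.1 r - num z.2 r
          rw [hd]
          exact (Dvd.intro _ rfl).neg_right
        · rw [← hv2]
          change x z.1 - x z.2 ∣ num z.1 r - num z.2 r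
          rw [hd]
          exact (Dvd.dvd.mul_left (sub_dvd_pow_sub_pow _ _ _) _).neg_right
        · rw [← hv2]
          exact hrne z hz
        · rw [← hv2]
          change nm (num z.1 r - num z.2 r) ≤ 4 * X
          refine (nm_sub_le _ _).trans ?_
          have e1 := hnumX z.1 h1 r
          have e2 := hnumX z.2 h2 r
          omega
      have hinj : Set.InjOn (fun v : (Gi × Gi) × (Gi × Gi) => v.2) S := by
        intro v hv v' hv' h
        exact Prod.ext ((hSm v hv).1.trans (hSm v' hv').1.symm) h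
      rcases S.eq_empty_or_nonempty with h0 | ⟨v0, hv0⟩
      · rw [h0]
        simp only [card_empty, Nat.cast_zero]
        positivity
      obtain ⟨-, -, -, hw0, hwX⟩ := hSm v0 hv0
      have hb : Dt0 * (nm (w.1 - w.2) : ℝ) ^ (ε / 3) ≤ Dt * y := by
        rw [hDtd, hy, mul_assoc, ← Real.mul_rpow (by norm_num) (by positivity)]
        refine mul_le_mul_of_nonneg_left ?_ hDt0.le
        exact Real.rpow_le_rpow (Nat.cast_nonneg _) (by exact_mod_cast hwX) (by positivity)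
      have h1 : ((S.image fun v => v.2.1).card : ℝ) ≤ Dt * y := by
        refine (hτ _ hw0 _ ?_).trans hb
        intro d hd
        obtain ⟨v, hv, rfl⟩ := mem_image.1 hd
        exact (hSm v hv).2.1
      have h2 : ((S.image fun v => v.2.2).card : ℝ) ≤ Dt * y := by
        refine (hτ _ hw0 _ ?_).trans hb
        intro d hd
        obtain ⟨v, hv, rfl⟩ := mem_image.1 hd
        exact (hSm v hv).2.2.1
      have h3 : S.card ≤ (S.image fun v => v.2.1).card * (S.image fun v => v.2.2).card := by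
        rw [← card_image_of_injOn hinj, ← card_product]
        apply card_le_card
        intro u hu
        obtain ⟨v, hv, rfl⟩ := mem_image.1 hu
        exact mem_product.2 ⟨mem_image_of_mem _ hv, mem_image_of_mem _ hv⟩
      calc (S.card : ℝ) ≤ ((S.image fun v => v.2.1).card : ℝ) * (S.image fun v => v.2.2).card := by
            exact_mod_cast h3
        _ ≤ (Dt * y) * (Dt * y) := mul_le_mul h1 h2 (Nat.cast_nonneg _) (by positivity)
        _ = (Dt * y) ^ 2 := by ring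
    refine (sum_le_sum hfib).trans ?_
    rw [sum_const, nsmul_eq_mul, card_product]
    push_cast
    apply mul_le_mul_of_nonneg_right _ (by positivity)
    rw [sq]
    exact mul_le_mul hUcard hUcard (Nat.cast_nonneg _) (by positivity)
  have hPcard : (P.card : ℝ) ≤ ((K : ℝ) + 1) * (((D4 * 2 ^ (K + 1)) * y * Rr) ^ 2 * (Dt * y) ^ 2) := by
    have h1 : P.card ≤ (K + 1) * (P.image Φ).card := card_le_mul_card_image P (K + 1) hfibΦ
    calc (P.card : ℝ) ≤ ((K : ℝ) + 1) * (P.image Φ).card := by exact_mod_cast h1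
      _ ≤ _ := mul_le_mul_of_nonneg_left himΦ (by positivity)
  -- Cauchy-Schwarz
  have hcs : (T.card : ℝ) ^ 2 ≤ ((T.image G).card : ℝ) * (T.card + P.card) := by
    exact_mod_cast cs_count T G
  obtain ⟨E, hE⟩ : ∃ E : ℝ, E = D4 * 2 ^ (K + 1) := ⟨_, rfl⟩
  have hE0 : 0 < E := by rw [hE]; positivity
  rw [← hE] at himg hPcard ⊢
  have hy0 : 0 ≤ y := by linarith
  obtain ⟨ρ, hρ⟩ : ∃ ρ : ℝ, ρ = (Rp * Rq) ^ ((1 : ℝ) / 2) := ⟨_, rfl⟩
  have hρ0 : 0 ≤ ρ := by rw [hρ]; positivity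
  have hρ2 : ρ ^ 2 = Rp * Rq := by
    rw [hρ, ← Real.rpow_natCast, ← Real.rpow_mul (by positivity)]
    norm_num
  rw [← hρ]
  obtain ⟨κ, hκ⟩ : ∃ κ : ℝ, κ = (K : ℝ) + 1 := ⟨_, rfl⟩
  have hκ1 : 1 ≤ κ := by
    have : (0 : ℝ) ≤ K := Nat.cast_nonneg _
    linarith
  rw [← hκ] at hPcard ⊢
  have hfin : (T.card : ℝ) ≤ 2 * ((E * y * Rp) * (E * y * Rq)) +
      2 * E ^ 2 * (κ * Dt) * y ^ 3 * ρ * Rr := by
    refine combine (M := (κ * ((E * y * Rr) ^ 2 * (Dt * y) ^ 2))) (Nat.cast_nonneg _)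
      (by positivity) (by positivity) ?_ ?_
    · refine hcs.trans ?_
      exact mul_le_mul himg (by linarith) (add_nonneg (Nat.cast_nonneg _) (Nat.cast_nonneg _))
        (by positivity)
    · have : (2 * E ^ 2 * (κ * Dt) * y ^ 3 * ρ * Rr) ^ 2 =
          4 * κ ^ 2 * (E ^ 4 * Dt ^ 2 * y ^ 6 * ρ ^ 2 * Rr ^ 2) := by
        ring
      rw [this, hρ2]
      have h0 : 0 ≤ E ^ 4 * Dt ^ 2 * y ^ 6 * (Rp * Rq) * Rr ^ 2 := by positivity
      have h1 : 2 * κ ≤ 4 * κ ^ 2 := by nlinarith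
      calc 2 * (E * y * Rp * (E * y * Rq) * (κ * ((E * y * Rr) ^ 2 * (Dt * y) ^ 2))) =
            (2 * κ) * (E ^ 4 * Dt ^ 2 * y ^ 6 * (Rp * Rq) * Rr ^ 2) := by ring
        _ ≤ (4 * κ ^ 2) * (E ^ 4 * Dt ^ 2 * y ^ 6 * (Rp * Rq) * Rr ^ 2) :=
            mul_le_mul_of_nonneg_right h1 h0
  have hy23 : y ^ 2 ≤ y ^ 3 := pow_le_pow_right₀ hy1 (by norm_num)
  calc (T.card : ℝ) ≤ 2 * ((E * y * Rp) * (E * y * Rq)) + 2 * E ^ 2 * (κ * Dt) * y ^ 3 * ρ * Rr := hfin
    _ = 2 * E ^ 2 * (Rp * Rq) * y ^ 2 + 2 * E ^ 2 * (κ * Dt) * y ^ 3 * (ρ * Rr) := by ring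
    _ ≤ 2 * E ^ 2 * (Rp * Rq) * y ^ 3 + 2 * E ^ 2 * (κ * Dt) * y ^ 3 * (ρ * Rr) := by
        have : 2 * E ^ 2 * (Rp * Rq) * y ^ 2 ≤ 2 * E ^ 2 * (Rp * Rq) * y ^ 3 :=
          mul_le_mul_of_nonneg_left hy23 (by positivity)
        linarith
    _ ≤ 2 * E ^ 2 * (1 + κ * Dt) * y ^ 3 * (Rp * Rq + ρ * Rr) := by
        have h1 : 0 ≤ E ^ 2 * (κ * Dt) * y ^ 3 * (Rp * Rq) := by positivity
        have h2 : 0 ≤ E ^ 2 * y ^ 3 * (ρ * Rr) := by positivity
        nlinarith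
    _ = _ := by rw [hy3]; ring

end Pool.Agent.W17.AB
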