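import Mathlib
import Pool.Agent.W17.AB.DD

/-!
# abc over the Gaussian integers: the two-variable multiplicative energy modulo `f`
-/

namespace Pool.Agent.W17.AB

open Finset UniqueFactorizationMonoid

noncomputable local instance instDecT : DecidableEq Gi := Classical.decEq _

namespace Two

lemma card_le_of_fib {α β : Type*} [DecidableEq β] (s : Finset α) (t : Finset β) (f : α → β)
    (hf : ∀ a ∈ s, f a ∈ t) (F : ℝ)
    (h : ∀ b ∈ t, (((s.filter fun a => f a = b).card : ℕ) : ℝ) ≤ F) :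
    (s.card : ℝ) ≤ t.card * F := by
  rw [Finset.card_eq_sum_card_fiberwise (f := f) (t := t) hf]
  push_cast
  refine (Finset.sum_le_sum h).trans ?_
  rw [Finset.sum_const, nsmul_eq_mul]

/-- coprime solutions of `x ^ k = c y ^ k` in a box -/
def Full (M : ℕ) (ε D : ℝ) : Prop :=
    ∀ k : ℕ, 1 ≤ k → k ≤ M → ∀ (X : ℕ) (f : Gi), f ≠ 0 → nm f ≤ X → ∀ A : ℝ, 0 < A →
    ∀ c : Rs f, IsUnit c → ∀ P : Finset (Gi × Gi),
    (∀ t ∈ P, t.1 ≠ 0 ∧ t.2 ≠ 0 ∧ (nm t.1 : ℝ) ≤ A ∧ (nm t.2 : ℝ) ≤ A ∧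
      IsCoprime t.1 t.2 ∧ IsCoprime t.1 f ∧ IsCoprime t.2 f ∧
      qm f t.1 ^ k = c * qm f t.2 ^ k) →
    (P.card : ℝ) ≤ D * (X : ℝ) ^ ε * (1 + A ^ 2 / nm f)

lemma full (M : ℕ) (ε : ℝ) (hε : 0 < ε) : ∃ D : ℝ, 0 < D ∧ Full M ε D := by
  classical
  obtain ⟨D0, hD0, hb⟩ := stmtD M ε hε
  refine ⟨8 * D0, by positivity, ?_⟩
  intro k hk hkM X f hf hfX A hA c hc P hP
  have hf0 : (0 : ℝ) < nm f := by exact_mod_cast nm_pos hf
  have hhalf : ∀ c : Rs f, ∀ P : Finset (Gi × Gi),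
      (∀ t ∈ P, t.1 ≠ 0 ∧ t.2 ≠ 0 ∧ nm t.1 ≤ nm t.2 ∧ (nm t.2 : ℝ) ≤ A ∧
      IsCoprime t.1 t.2 ∧ IsCoprime t.1 f ∧ IsCoprime t.2 f ∧
      qm f t.1 ^ k = c * qm f t.2 ^ k) → (P.card : ℝ) ≤ 4 * D0 * (X : ℝ) ^ ε * (1 + A ^ 2 / nm f) := by
    intro c P hP
    have h1 := hb k hk hkM f hf c 1 one_ne_zero 2 A (by norm_num) hA P (by
      intro t ht
      obtain ⟨a1, a2, a3, a4, a5, a6, a7, a8⟩ := hP t ht
      refine ⟨a1, a2, a5, a6, a7, a8, a4, ?_⟩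
      rw [one_pow, norm_one, one_pow, mul_one]
      refine (norm_sub_le _ _).trans ?_
      rw [norm_one, norm_pow]
      have h2 : ‖φ t.1 / φ t.2‖ ≤ 1 := by
        apply le_of_pow_le_pow_left₀ two_ne_zero (by norm_num)
        rw [norm_div, div_pow, ← nm_real, ← nm_real, one_pow]
        have : (0 : ℝ) < nm t.2 := by exact_mod_cast nm_pos a2
        rw [div_le_one this]
        exact_mod_cast a3
      have h3 : ‖φ t.1 / φ t.2‖ ^ k ≤ 1 := pow_le_one₀ (norm_nonneg _) h2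
      linarith)
    refine h1.trans ?_
    rw [norm_one, one_pow, mul_one]
    have h2 : (nm f : ℝ) ^ ε ≤ (X : ℝ) ^ ε :=
      Real.rpow_le_rpow hf0.le (by exact_mod_cast hfX) hε.le
    have h3 : 1 + (2 : ℝ) ^ 2 * A ^ 2 / nm f ≤ 4 * (1 + A ^ 2 / nm f) := by
      have e : (2 : ℝ) ^ 2 * A ^ 2 / nm f = 4 * (A ^ 2 / nm f) := by ring
      rw [e]
      linarith
    calc D0 * (nm f : ℝ) ^ ε * (1 + (2 : ℝ) ^ 2 * A ^ 2 / nm f)
        ≤ D0 * (X : ℝ) ^ ε * (4 * (1 + A ^ 2 / nm f)) := by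
          apply mul_le_mul _ h3 (by positivity) (by positivity)
          exact mul_le_mul_of_nonneg_left h2 hD0.le
      _ = _ := by ring
  have h1 := hhalf c (P.filter fun t => nm t.1 ≤ nm t.2) (by
    intro t ht
    rw [Finset.mem_filter] at ht
    obtain ⟨h1, h2, h3, h4, h5, h6, h7, h8⟩ := hP t ht.1
    exact ⟨h1, h2, ht.2, h4, h5, h6, h7, h8⟩)
  obtain ⟨u, rfl⟩ := hc
  have h2 : ((P.filter fun t => ¬ nm t.1 ≤ nm t.2).card : ℝ) ≤
      4 * D0 * (X : ℝ) ^ ε * (1 + A ^ 2 / nm f) := by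
    rw [← Finset.card_image_of_injective _ Prod.swap_injective]
    apply hhalf ((u⁻¹ : (Rs f)ˣ) : Rs f)
    intro t ht
    rw [Finset.mem_image] at ht
    obtain ⟨s, hs, rfl⟩ := ht
    rw [Finset.mem_filter] at hs
    obtain ⟨h1, h2, h3, h4, h5, h6, h7, h8⟩ := hP s hs.1
    refine ⟨h2, h1, ?_, h3, h5.symm, h7, h6, ?_⟩
    · change nm s.2 ≤ nm s.1
      omega
    · change qm f s.2 ^ k = _ * qm f s.1 ^ k
      rw [h8, Units.inv_mul_cancel_left]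
  have h3 : (P.card : ℝ) = ((P.filter fun t => nm t.1 ≤ nm t.2).card : ℝ) +
      ((P.filter fun t => ¬ nm t.1 ≤ nm t.2).card : ℝ) := by
    rw [← Nat.cast_add, Finset.card_filter_add_card_filter_not]
  rw [h3]
  linarith

/-- the greatest common divisor -/
noncomputable def gc (x y : Gi) : Gi := EuclideanDomain.gcd x y

lemma gc_spec {x y : Gi} (hx : x ≠ 0) : gc x y ≠ 0 ∧ ∃ a b : Gi, x = gc x y * a ∧ y = gc x y * b ∧
    IsCoprime a b := by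
  have h1 : gc x y ∣ x := EuclideanDomain.gcd_dvd_left x y
  have h2 : gc x y ∣ y := EuclideanDomain.gcd_dvd_right x y
  have h0 : gc x y ≠ 0 := by
    intro h
    rw [h, zero_dvd_iff] at h1
    exact hx h1
  obtain ⟨a, ha⟩ := h1
  obtain ⟨b, hb⟩ := h2
  refine ⟨h0, a, b, ha, hb, EuclideanDomain.gcdA x y, EuclideanDomain.gcdB x y, ?_⟩
  have h3 : gc x y = x * EuclideanDomain.gcdA x y + y * EuclideanDomain.gcdB x y :=
    EuclideanDomain.gcd_eq_gcd_ab x y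
  apply mul_left_cancel₀ h0
  linear_combination (-1 : Gi) * h3 - EuclideanDomain.gcdA x y * ha - EuclideanDomain.gcdB x y * hb

/-- conditions on a quadruple -/
def Cond (f : Gi) (N T k l : ℕ) (t : (Gi × Gi) × (Gi × Gi)) : Prop :=
  t.1.1 ≠ 0 ∧ nm t.1.1 ≤ N ∧ t.1.2 ≠ 0 ∧ nm t.1.2 ≤ N ∧
      t.2.1 ≠ 0 ∧ nm t.2.1 ≤ T ∧ t.2.2 ≠ 0 ∧ nm t.2.2 ≤ T ∧
      IsCoprime t.1.1 f ∧ IsCoprime t.1.2 f ∧ IsCoprime t.2.1 f ∧ IsCoprime t.2.2 f ∧
      qm f t.1.1 ^ k * qm f t.2.1 ^ l = qm f t.1.2 ^ k * qm f t.2.2 ^ l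

lemma fixge {M : ℕ} {ε D : ℝ} (hD : 0 < D) (hF : Full M ε D) (k l : ℕ) (hk : 1 ≤ k) (hkM : k ≤ M)
    (X : ℕ) (f : Gi) (N T : ℕ) (g e : Gi) (hf : f ≠ 0) (hfX : nm f ≤ X) (hN : 1 ≤ N)
    (hg : g ≠ 0) (he : e ≠ 0)
    (Q : Finset ((Gi × Gi) × (Gi × Gi)))
    (hQ : ∀ t ∈ Q, Cond f N T k l t ∧ gc t.1.1 t.1.2 = g ∧ gc t.2.1 t.2.2 = e) :
    (Q.card : ℝ) ≤ 81 * ((T : ℝ) / nm e) ^ 2 *
      (D * (X : ℝ) ^ ε * (1 + ((N : ℝ) / nm g) ^ 2 / nm f)) := by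
  classical
  have hg0 : (0 : ℝ) < nm g := by exact_mod_cast nm_pos hg
  have he0 : (0 : ℝ) < nm e := by exact_mod_cast nm_pos he
  have hf0 : (0 : ℝ) < nm f := by exact_mod_cast nm_pos hf
  have hN0 : (0 : ℝ) < N := by exact_mod_cast hN
  have hX0 : (0 : ℝ) < X := by exact_mod_cast lt_of_lt_of_le (nm_pos hf) hfX
  have hdiv : ∀ {a b : Gi}, a ≠ 0 → a * b / a = b := fun {a b} ha => mul_div_cancel_left₀ b ha
  -- the reduced quadruples
  have hred : ∀ t ∈ Q, ∃ x x' y y' : Gi, t = ((g * x, g * x'), (e * y, e * y')) ∧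
      IsCoprime x x' := by
    rintro ⟨⟨a, a'⟩, ⟨b, b'⟩⟩ ht
    obtain ⟨hC, h1, h2⟩ := hQ _ ht
    simp only at h1 h2
    obtain ⟨-, x, x', hx, hx', hco⟩ := gc_spec (x := a) (y := a') hC.1
    obtain ⟨-, y, y', hy, hy', -⟩ := gc_spec (x := b) (y := b') hC.2.2.2.2.1
    rw [h1] at hx hx'
    rw [h2] at hy hy'
    exact ⟨x, x', y, y', by rw [hx, hx', hy, hy'], hco⟩
  -- fibres over the second component
  have hmap : ∀ t ∈ Q, (t.2.1 / e, t.2.2 / e) ∈ (bx (T / nm e)) ×ˢ (bx (T / nm e)) := by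
    intro t ht
    obtain ⟨x, x', y, y', rfl, hc⟩ := hred t ht
    obtain ⟨⟨h1, h2, h3, h4, h5, h6, h7, h8, -⟩, -⟩ := hQ _ ht
    simp only at h1 h2 h3 h4 h5 h6 h7 h8 ⊢
    rw [hdiv he, hdiv he, Finset.mem_product, mem_bx, mem_bx]
    refine ⟨⟨right_ne_zero_of_mul h5, ?_⟩, ⟨right_ne_zero_of_mul h7, ?_⟩⟩
    · rw [Nat.le_div_iff_mul_le (nm_pos he), mul_comm, ← nm_mul]
      exact h6
    · rw [Nat.le_div_iff_mul_le (nm_pos he), mul_comm, ← nm_mul]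
      exact h8
  have hfib : ∀ b ∈ (bx (T / nm e)) ×ˢ (bx (T / nm e)),
      (((Q.filter fun t => (t.2.1 / e, t.2.2 / e) = b).card : ℕ) : ℝ) ≤
        D * (X : ℝ) ^ ε * (1 + ((N : ℝ) / nm g) ^ 2 / nm f) := by
    rintro ⟨y, y'⟩ _
    rcases (Q.filter fun t => (t.2.1 / e, t.2.2 / e) = (y, y')).eq_empty_or_nonempty with h0 | h0
    · rw [h0]
      simp only [Finset.card_empty, Nat.cast_zero]
      positivity
    obtain ⟨t0, ht0⟩ := h0
    have hform : ∀ t ∈ Q.filter (fun t => (t.2.1 / e, t.2.2 / e) = (y, y')), t ∈ Q ∧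
        ∃ x x' : Gi, t = ((g * x, g * x'), (e * y, e * y')) ∧ IsCoprime x x' := by
      intro t ht
      rw [Finset.mem_filter] at ht
      obtain ⟨ht, h2⟩ := ht
      obtain ⟨x, x', z, z', rfl, hc⟩ := hred t ht
      refine ⟨ht, x, x', ?_, hc⟩
      simp only [Prod.mk.injEq] at h2
      rw [hdiv he, hdiv he] at h2
      rw [h2.1, h2.2]
    obtain ⟨ht0Q, x0, x0', rfl, -⟩ := hform t0 ht0
    obtain ⟨⟨-, -, -, -, -, -, -, -, c1, c2, c3, c4, -⟩, -⟩ := hQ _ ht0Q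
    simp only at c1 c2 c3 c4
    have ug : IsUnit (qm f g) := qm_isUnit c1.of_mul_left_left
    have ue : IsUnit (qm f e) := qm_isUnit c3.of_mul_left_left
    obtain ⟨u, hu⟩ : IsUnit (qm f y) := qm_isUnit c3.of_mul_left_right
    obtain ⟨v, hv⟩ : IsUnit (qm f y') := qm_isUnit c4.of_mul_left_right
    have hinj : Set.InjOn (fun t : (Gi × Gi) × (Gi × Gi) => (t.1.1 / g, t.1.2 / g))
        (Q.filter fun t => (t.2.1 / e, t.2.2 / e) = (y, y')) := by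
      intro s hs t ht h
      obtain ⟨-, x, x', rfl, -⟩ := hform s hs
      obtain ⟨-, z, z', rfl, -⟩ := hform t ht
      simp only [Prod.mk.injEq] at h
      rw [hdiv hg, hdiv hg, hdiv hg, hdiv hg] at h
      rw [h.1, h.2]
    rw [← Finset.card_image_of_injOn hinj]
    apply hF k hk hkM X f hf hfX ((N : ℝ) / nm g) (by positivity)
      (((v ^ l * (u ^ l)⁻¹ : (Rs f)ˣ)) : Rs f) (Units.isUnit _)
    intro p hp
    rw [Finset.mem_image] at hp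
    obtain ⟨t, ht, rfl⟩ := hp
    obtain ⟨htQ, x, x', rfl, hc⟩ := hform t ht
    obtain ⟨⟨h1, h2, h3, h4, h5, h6, h7, h8, h9, h10, h11, h12, h13⟩, -⟩ := hQ _ htQ
    simp only at h1 h2 h3 h4 h5 h6 h7 h8 h9 h10 h11 h12 h13 ⊢
    rw [hdiv hg, hdiv hg]
    refine ⟨right_ne_zero_of_mul h1, right_ne_zero_of_mul h3, ?_, ?_, hc, h9.of_mul_left_right,
      h10.of_mul_left_right, ?_⟩
    · rw [le_div_iff₀ hg0]
      have : (nm x : ℝ) * nm g = ((nm (g * x) : ℕ) : ℝ) := by rw [nm_mul]; push_cast; ring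
      rw [this]
      exact_mod_cast h2
    · rw [le_div_iff₀ hg0]
      have : (nm x' : ℝ) * nm g = ((nm (g * x') : ℕ) : ℝ) := by rw [nm_mul]; push_cast; ring
      rw [this]
      exact_mod_cast h4
    · rw [map_mul, map_mul, map_mul, map_mul, ← hu, ← hv] at h13
      have huu : IsUnit (qm f g ^ k * qm f e ^ l) := (ug.pow k).mul (ue.pow l)
      have h14 : qm f g ^ k * qm f e ^ l * (qm f x ^ k * (u : Rs f) ^ l) =
          qm f g ^ k * qm f e ^ l * (qm f x' ^ k * (v : Rs f) ^ l) := by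
        linear_combination h13
      have h15 := huu.mul_left_cancel h14
      have h16 : qm f x ^ k = qm f x ^ k * (u : Rs f) ^ l *
          (((u ^ l)⁻¹ : (Rs f)ˣ) : Rs f) := by
        rw [mul_assoc, ← Units.val_pow_eq_pow_val, ← Units.val_mul, mul_inv_cancel,
          Units.val_one, mul_one]
      rw [h16, h15, Units.val_mul, Units.val_pow_eq_pow_val]
      ring
  have hcard := card_le_of_fib Q _ (fun t => (t.2.1 / e, t.2.2 / e)) hmap _ hfib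
  refine hcard.trans ?_
  apply mul_le_mul_of_nonneg_right _ (by positivity)
  rw [Finset.card_product]
  push_cast
  have h1 : ((bx (T / nm e)).card : ℝ) ≤ 9 * ((T : ℝ) / nm e) := by
    refine (card_bx_real _).trans ?_
    exact mul_le_mul_of_nonneg_left Nat.cast_div_le (by norm_num)
  have h2 : (0 : ℝ) ≤ ((bx (T / nm e)).card : ℝ) := by positivity
  nlinarith

end Two

open Two

/-- TWO: the two-variable multiplicative energy modulo `f` -/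
def StmtTwo : Prop :=
  ∀ M : ℕ, ∀ ε : ℝ, 0 < ε → ∃ D : ℝ, 0 < D ∧ ∀ k l : ℕ, 1 ≤ k → k ≤ M → 1 ≤ l → l ≤ M →
    ∀ (X : ℕ) (f : Gi) (N T : ℕ), f ≠ 0 → nm f ≤ X → 1 ≤ N → N ≤ X → 1 ≤ T → T ≤ X →
    ∀ Q : Finset ((Gi × Gi) × (Gi × Gi)), (∀ t ∈ Q, Cond f N T k l t) →
    (Q.card : ℝ) ≤ D * (X : ℝ) ^ ε * ((N : ℝ) * T * (1 + (N : ℝ) * T / nm f))

theorem stmtTwo : StmtTwo := by
  classical
  intro M ε hε
  obtain ⟨D, hD0, hF⟩ := full M (ε / 3) (by positivity)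
  obtain ⟨Ds, hDs, hsi⟩ := sum_inv (ε / 3) (by positivity)
  refine ⟨81 * D * Ds ^ 2, by positivity, ?_⟩
  intro k l hk hkM hl hlM X f N T hf hfX hN hNX hT hTX Q hQ
  have hX : 1 ≤ X := hN.trans hNX
  have hX0 : (0 : ℝ) < X := by exact_mod_cast hX
  have hf0 : (0 : ℝ) < nm f := by exact_mod_cast nm_pos hf
  have hN0 : (0 : ℝ) < N := by exact_mod_cast hN
  have hT0 : (0 : ℝ) < T := by exact_mod_cast hT
  set V : ℝ := 81 * D * (X : ℝ) ^ (ε / 3) with hV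
  have hV0 : 0 < V := by positivity
  -- bound for a fixed pair of gcds
  have hfix : ∀ ge ∈ (bx N) ×ˢ (bx T),
      (((Q.filter fun t => (gc t.1.1 t.1.2, gc t.2.1 t.2.2) = ge).card : ℕ) : ℝ) ≤
        V * (((1 : ℝ) / nm ge.1 * (1 / nm ge.2)) * (N * T + (N * T) ^ 2 / nm f)) := by
    rintro ⟨g, e⟩ hge
    rw [Finset.mem_product, mem_bx, mem_bx] at hge
    obtain ⟨⟨hg, -⟩, ⟨he, -⟩⟩ := hge
    simp only at hg he ⊢
    have hg1 : (1 : ℝ) ≤ nm g := by exact_mod_cast nm_pos hg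
    have he1 : (1 : ℝ) ≤ nm e := by exact_mod_cast nm_pos he
    have hg0 : (0 : ℝ) < nm g := by linarith
    have he0 : (0 : ℝ) < nm e := by linarith
    set R := Q.filter fun t => (gc t.1.1 t.1.2, gc t.2.1 t.2.2) = (g, e) with hR
    have b1 : (R.card : ℝ) ≤ ((T : ℝ) / nm e) ^ 2 * (V * (1 + ((N : ℝ) / nm g) ^ 2 / nm f)) := by
      have := fixge hD0 hF k l hk hkM X f N T g e hf hfX hN hg he R (by
        intro t ht
        rw [hR, Finset.mem_filter] at ht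
        simp only [Prod.mk.injEq] at ht
        exact ⟨hQ t ht.1, ht.2.1, ht.2.2⟩)
      refine this.trans (le_of_eq ?_)
      rw [hV]
      ring
    have b2 : (R.card : ℝ) ≤ ((N : ℝ) / nm g) ^ 2 * (V * (1 + ((T : ℝ) / nm e) ^ 2 / nm f)) := by
      rw [← Finset.card_image_of_injective R Prod.swap_injective]
      have := fixge hD0 hF l k hl hlM X f T N e g hf hfX hT he hg (R.image Prod.swap) (by
        intro t ht
        rw [Finset.mem_image] at ht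
        obtain ⟨s, hs, rfl⟩ := ht
        rw [hR, Finset.mem_filter] at hs
        simp only [Prod.mk.injEq] at hs
        obtain ⟨h1, h2, h3, h4, h5, h6, h7, h8, h9, h10, h11, h12, h13⟩ := hQ s hs.1
        refine ⟨⟨h5, h6, h7, h8, h1, h2, h3, h4, h11, h12, h9, h10, ?_⟩, hs.2.2, hs.2.1⟩
        change qm f s.2.1 ^ l * qm f s.1.1 ^ k = qm f s.2.2 ^ l * qm f s.1.2 ^ k
        rw [mul_comm, h13, mul_comm])
      refine this.trans (le_of_eq ?_)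
      rw [hV]
      ring
    set A : ℝ := (N : ℝ) / nm g with hA
    set B : ℝ := (T : ℝ) / nm e with hB
    have hA0 : 0 < A := by positivity
    have hB0 : 0 < B := by positivity
    have b3 : (R.card : ℝ) ≤ V * (A * B + (A * B) ^ 2 / nm f) := by
      rcases le_total A B with h | h
      · refine b2.trans ?_
        have h1 : A ^ 2 * (V * (1 + B ^ 2 / nm f)) = V * (A * A + (A * B) ^ 2 / nm f) := by ring
        rw [h1]
        apply mul_le_mul_of_nonneg_left _ hV0.le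
        have := mul_le_mul_of_nonneg_left h hA0.le
        linarith
      · refine b1.trans ?_
        have h1 : B ^ 2 * (V * (1 + A ^ 2 / nm f)) = V * (B * B + (A * B) ^ 2 / nm f) := by ring
        rw [h1]
        apply mul_le_mul_of_nonneg_left _ hV0.le
        have := mul_le_mul_of_nonneg_right h hB0.le
        linarith
    refine b3.trans ?_
    apply mul_le_mul_of_nonneg_left _ hV0.le
    set w : ℝ := (1 : ℝ) / nm g * (1 / nm e) with hw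
    have hw0 : 0 < w := by positivity
    have hw1 : w ≤ 1 := by
      have h1 : (1 : ℝ) / nm g ≤ 1 := by rw [div_le_one hg0]; exact hg1
      have h2 : (1 : ℝ) / nm e ≤ 1 := by rw [div_le_one he0]; exact he1
      have h3 : (0 : ℝ) < 1 / nm g := by positivity
      have h4 : (0 : ℝ) < 1 / nm e := by positivity
      nlinarith
    have hAB : A * B = w * (N * T) := by
      rw [hA, hB, hw]
      field_simp
    rw [hAB]
    have h5 : (w * (N * T)) ^ 2 / nm f = w * (w * ((N * T) ^ 2 / nm f)) := by ring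
    rw [h5]
    have h6 : w * ((N * T : ℝ) ^ 2 / nm f) ≤ (N * T) ^ 2 / nm f := by
      have : (0 : ℝ) ≤ (N * T) ^ 2 / nm f := by positivity
      nlinarith
    have h7 := mul_le_mul_of_nonneg_left h6 hw0.le
    linarith
  have hmap : ∀ t ∈ Q, (gc t.1.1 t.1.2, gc t.2.1 t.2.2) ∈ (bx N) ×ˢ (bx T) := by
    intro t ht
    obtain ⟨h1, h2, h3, h4, h5, h6, h7, h8, -⟩ := hQ t ht
    obtain ⟨g0, x, x', hx, -, -⟩ := gc_spec (x := t.1.1) (y := t.1.2) h1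
    obtain ⟨e0, y, y', hy, -, -⟩ := gc_spec (x := t.2.1) (y := t.2.2) h5
    rw [Finset.mem_product, mem_bx, mem_bx]
    exact ⟨⟨g0, (nm_le_of_dvd h1 ⟨x, hx⟩).trans h2⟩, ⟨e0, (nm_le_of_dvd h5 ⟨y, hy⟩).trans h6⟩⟩
  have hsum : (Q.card : ℝ) ≤ ∑ ge ∈ (bx N) ×ˢ (bx T),
      V * (((1 : ℝ) / nm ge.1 * (1 / nm ge.2)) * (N * T + (N * T) ^ 2 / nm f)) := by
    rw [Finset.card_eq_sum_card_fiberwise
      (f := fun t : (Gi × Gi) × (Gi × Gi) => (gc t.1.1 t.1.2, gc t.2.1 t.2.2)) hmap]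
    push_cast
    exact Finset.sum_le_sum hfix
  have hN1 := hsi N X hN hNX
  have hT1 := hsi T X hT hTX
  have hval : ∑ ge ∈ (bx N) ×ˢ (bx T),
      V * (((1 : ℝ) / nm ge.1 * (1 / nm ge.2)) * (N * T + (N * T) ^ 2 / nm f)) =
      V * (((∑ g ∈ bx N, (1 : ℝ) / nm g) * (∑ e ∈ bx T, (1 : ℝ) / nm e)) *
        (N * T + (N * T) ^ 2 / nm f)) := by
    rw [← Finset.mul_sum, ← Finset.sum_mul, Finset.sum_product, Finset.sum_mul_sum]
  rw [hval] at hsum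
  refine hsum.trans ?_
  have hS0 : (0 : ℝ) ≤ ∑ e ∈ bx T, (1 : ℝ) / nm e :=
    Finset.sum_nonneg fun e _ => by positivity
  have hP0 : (0 : ℝ) ≤ N * T + (N * T) ^ 2 / nm f := by positivity
  have h1 := mul_le_mul hN1 hT1 hS0 (by positivity)
  have h2 := mul_le_mul_of_nonneg_left (mul_le_mul_of_nonneg_right h1 hP0) hV0.le
  refine h2.trans (le_of_eq ?_)
  have h3 : (X : ℝ) ^ ε = (X : ℝ) ^ (ε / 3) * (X : ℝ) ^ (ε / 3) * (X : ℝ) ^ (ε / 3) := by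
    rw [← Real.rpow_add hX0, ← Real.rpow_add hX0]
    congr 1
    ring
  rw [h3, hV]
  ring

/-- PWR: the same with `t` replaced by a product of `h` variables up to `B` -/
def StmtPwr : Prop :=
  ∀ M h : ℕ, ∀ ε : ℝ, 0 < ε → ∃ D : ℝ, 0 < D ∧ ∀ k l : ℕ, 1 ≤ k → k ≤ M → 1 ≤ l → l ≤ M →
    ∀ (X : ℕ) (f : Gi) (N B : ℕ), f ≠ 0 → nm f ≤ X → 1 ≤ N → N ≤ X → 1 ≤ B → B ^ h ≤ X →
    ∀ Q : Finset ((Gi × Gi) × ((Fin h → Gi) × (Fin h → Gi))),
    (∀ t ∈ Q, t.1.1 ≠ 0 ∧ nm t.1.1 ≤ N ∧ t.1.2 ≠ 0 ∧ nm t.1.2 ≤ N ∧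
      IsCoprime t.1.1 f ∧ IsCoprime t.1.2 f ∧
      (∀ j, t.2.1 j ≠ 0 ∧ nm (t.2.1 j) ≤ B ∧ IsCoprime (t.2.1 j) f) ∧
      (∀ j, t.2.2 j ≠ 0 ∧ nm (t.2.2 j) ≤ B ∧ IsCoprime (t.2.2 j) f) ∧
      qm f t.1.1 ^ k * (∏ j, qm f (t.2.1 j)) ^ l =
        qm f t.1.2 ^ k * (∏ j, qm f (t.2.2 j)) ^ l) →
    (Q.card : ℝ) ≤ D * (X : ℝ) ^ ε *
      ((N : ℝ) * (B : ℝ) ^ h * (1 + (N : ℝ) * (B : ℝ) ^ h / nm f))

namespace Pwr

/-- replace the tuples by their products -/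
def phi {h : ℕ} (t : (Gi × Gi) × ((Fin h → Gi) × (Fin h → Gi))) : (Gi × Gi) × (Gi × Gi) :=
  (t.1, (∏ j, t.2.1 j, ∏ j, t.2.2 j))

lemma prod_le_pow {h B : ℕ} (x : Fin h → Gi) (hx : ∀ j, nm (x j) ≤ B) : nm (∏ j, x j) ≤ B ^ h := by
  rw [nm_prod]
  calc ∏ j, nm (x j) ≤ ∏ _j : Fin h, B := Finset.prod_le_prod' fun j _ => hx j
    _ = B ^ h := by rw [Finset.prod_const, Finset.card_univ, Fintype.card_fin]

lemma prod_ne {h : ℕ} (x : Fin h → Gi) (hx : ∀ j, x j ≠ 0) : ∏ j, x j ≠ 0 :=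
  Finset.prod_ne_zero_iff.2 fun j _ => hx j

/-- bound for a fibre -/
lemma fibre_le {h : ℕ} {ε D : ℝ} (hε : 0 < ε) (hD : 0 < D)
    (hF : ∀ t : Gi, t ≠ 0 → ∀ P : Finset (Fin h → Gi),
      (∀ x ∈ P, ∏ j, x j = t) → (P.card : ℝ) ≤ D * (nm t : ℝ) ^ ε)
    {X : ℕ} (u : (Gi × Gi) × (Gi × Gi)) (h1 : u.2.1 ≠ 0) (h2 : u.2.2 ≠ 0) (h1X : nm u.2.1 ≤ X)
    (h2X : nm u.2.2 ≤ X) (S : Finset ((Gi × Gi) × ((Fin h → Gi) × (Fin h → Gi))))
    (hS : ∀ t ∈ S, phi t = u) : (S.card : ℝ) ≤ (D * (X : ℝ) ^ ε) * (D * (X : ℝ) ^ ε) := by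
  classical
  have hinj : Set.InjOn (fun t : (Gi × Gi) × ((Fin h → Gi) × (Fin h → Gi)) => t.2) (S : Set _) := by
    intro t ht t' ht' he
    have e1 : t.1 = t'.1 := by
      have a1 := congrArg Prod.fst (hS t ht)
      have a2 := congrArg Prod.fst (hS t' ht')
      simp only [phi] at a1 a2
      rw [a1, a2]
    exact Prod.ext e1 he
  have hsub : S.image (fun t => t.2) ⊆
      (S.image (fun t => t.2.1)) ×ˢ (S.image (fun t => t.2.2)) := by
    intro x hx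
    obtain ⟨t, ht, rfl⟩ := Finset.mem_image.1 hx
    exact Finset.mem_product.2 ⟨Finset.mem_image.2 ⟨t, ht, rfl⟩, Finset.mem_image.2 ⟨t, ht, rfl⟩⟩
  have hcard : S.card ≤ (S.image (fun t => t.2.1)).card * (S.image (fun t => t.2.2)).card := by
    rw [← Finset.card_image_of_injOn hinj, ← Finset.card_product]
    exact Finset.card_le_card hsub
  have hb : ∀ v : ℕ, v ≤ X → D * (v : ℝ) ^ ε ≤ D * (X : ℝ) ^ ε := by
    intro v hvX
    refine mul_le_mul_of_nonneg_left ?_ hD.le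
    exact Real.rpow_le_rpow (by positivity) (by exact_mod_cast hvX) hε.le
  have c1 : ((S.image (fun t => t.2.1)).card : ℝ) ≤ D * (X : ℝ) ^ ε := by
    refine (hF u.2.1 h1 _ ?_).trans (hb _ h1X)
    intro x hx
    obtain ⟨t, ht, rfl⟩ := Finset.mem_image.1 hx
    exact congrArg (fun z => z.2.1) (hS t ht)
  have c2 : ((S.image (fun t => t.2.2)).card : ℝ) ≤ D * (X : ℝ) ^ ε := by
    refine (hF u.2.2 h2 _ ?_).trans (hb _ h2X)
    intro x hx
    obtain ⟨t, ht, rfl⟩ := Finset.mem_image.1 hx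
    exact congrArg (fun z => z.2.2) (hS t ht)
  calc (S.card : ℝ) ≤ ((S.image (fun t => t.2.1)).card : ℝ) * (S.image (fun t => t.2.2)).card := by
        exact_mod_cast hcard
    _ ≤ _ := mul_le_mul c1 c2 (by positivity) (by positivity)

end Pwr

/-- module PWR from TWO and FAC -/
theorem stmtPwr : StmtPwr := by
  classical
  intro M h ε hε
  obtain ⟨D1, hD1, H1⟩ := stmtTwo M (ε / 2) (by positivity)
  obtain ⟨D2, hD2, H2⟩ := stmtFac h (ε / 4) (by positivity)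
  refine ⟨D1 * (D2 * D2), by positivity, ?_⟩
  intro k l hk hkM hl hlM X f N B hf hfX hN hNX hB hBX Q hQ
  have hX0 : (0 : ℝ) < X := by exact_mod_cast hN.trans hNX
  have hQ1 := H1 k l hk hkM hl hlM X f N (B ^ h) hf hfX hN hNX (Nat.one_le_pow _ _ hB) hBX
    (Q.image Pwr.phi) (by
      intro u hu
      obtain ⟨t, ht, rfl⟩ := Finset.mem_image.1 hu
      obtain ⟨a1, a2, a3, a4, a5, a6, a7, a8, a9⟩ := hQ t ht
      refine ⟨a1, a2, a3, a4, Pwr.prod_ne _ fun j => (a7 j).1,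
        Pwr.prod_le_pow _ fun j => (a7 j).2.1, Pwr.prod_ne _ fun j => (a8 j).1,
        Pwr.prod_le_pow _ fun j => (a8 j).2.1, a5, a6,
        IsCoprime.prod_left fun j _ => (a7 j).2.2,
        IsCoprime.prod_left fun j _ => (a8 j).2.2, ?_⟩
      simp only [Pwr.phi, map_prod]
      exact a9)
  have hfib : ∀ u ∈ Q.image Pwr.phi, ((Q.filter fun t => Pwr.phi t = u).card : ℝ) ≤
      (D2 * (X : ℝ) ^ (ε / 4)) * (D2 * (X : ℝ) ^ (ε / 4)) := by
    intro u hu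
    obtain ⟨t, ht, rfl⟩ := Finset.mem_image.1 hu
    obtain ⟨-, -, -, -, -, -, a7, a8, -⟩ := hQ t ht
    refine Pwr.fibre_le (by positivity) hD2 H2 (Pwr.phi t)
      (Pwr.prod_ne _ fun j => (a7 j).1) (Pwr.prod_ne _ fun j => (a8 j).1)
      ((Pwr.prod_le_pow _ fun j => (a7 j).2.1).trans hBX)
      ((Pwr.prod_le_pow _ fun j => (a8 j).2.1).trans hBX) _ ?_
    intro t' ht'
    exact (Finset.mem_filter.1 ht').2
  have hcard : (Q.card : ℝ) ≤ ((Q.image Pwr.phi).card : ℝ) *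
      ((D2 * (X : ℝ) ^ (ε / 4)) * (D2 * (X : ℝ) ^ (ε / 4))) := by
    rw [Finset.card_eq_sum_card_image Pwr.phi Q, Nat.cast_sum]
    refine (Finset.sum_le_sum hfib).trans (le_of_eq ?_)
    rw [Finset.sum_const, nsmul_eq_mul]
  refine hcard.trans ?_
  have hpow : (X : ℝ) ^ (ε / 2) * ((X : ℝ) ^ (ε / 4) * (X : ℝ) ^ (ε / 4)) = (X : ℝ) ^ ε := by
    rw [← Real.rpow_add hX0, ← Real.rpow_add hX0]
    congr 1
    ring
  calc ((Q.image Pwr.phi).card : ℝ) * ((D2 * (X : ℝ) ^ (ε / 4)) * (D2 * (X : ℝ) ^ (ε / 4)))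
      ≤ (D1 * (X : ℝ) ^ (ε / 2) * ((N : ℝ) * ((B ^ h : ℕ) : ℝ) *
        (1 + (N : ℝ) * ((B ^ h : ℕ) : ℝ) / nm f))) *
        ((D2 * (X : ℝ) ^ (ε / 4)) * (D2 * (X : ℝ) ^ (ε / 4))) :=
        mul_le_mul_of_nonneg_right hQ1 (by positivity)
    _ = D1 * (D2 * D2) * ((X : ℝ) ^ (ε / 2) * ((X : ℝ) ^ (ε / 4) * (X : ℝ) ^ (ε / 4))) *
        ((N : ℝ) * (B : ℝ) ^ h * (1 + (N : ℝ) * (B : ℝ) ^ h / nm f)) := by
        push_cast
        ring
    _ = _ := by rw [hpow]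

end Pool.Agent.W17.AB
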