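import Mathlib
import Pool.Agent.W17.AB.Two
import Pool.Agent.H705R2.ABC.JJ

/-!
# abc over the Gaussian integers: the multiplicative energy of a product set
-/

namespace Pool.Agent.W17.AB

open Finset UniqueFactorizationMonoid
open Pool.Agent.H705R2.ABC.JJ (hoelder exists_pow)

noncomputable local instance instDecJ : DecidableEq Gi := Classical.decEq _

namespace JJ

section chars

variable {V : Type} [AddCommGroup V] [Fintype V]

/-- character sum over a finite family -/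
noncomputable def F {α : Type*} (Ω : Finset α) (g : α → V) (χ : AddChar V ℂ) : ℂ :=
  ∑ ω ∈ Ω, χ (g ω)

theorem orth {α : Type*} [DecidableEq α] [DecidableEq V] (Ω : Finset α) (g : α → V) (c : V) :
    ∑ χ : AddChar V ℂ, χ (-c) * (((‖F Ω g χ‖ ^ 2 : ℝ)) : ℂ) =
      ((Fintype.card V : ℝ) : ℂ) * ((((Ω ×ˢ Ω).filter fun p => g p.1 = c + g p.2).card : ℝ) : ℂ) := by
  have h1 : ∀ χ : AddChar V ℂ, χ (-c) * (((‖F Ω g χ‖ ^ 2 : ℝ)) : ℂ) =
      ∑ p ∈ Ω ×ˢ Ω, χ (g p.1 - (c + g p.2)) := by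
    intro χ
    have e1 : (((‖F Ω g χ‖ ^ 2 : ℝ)) : ℂ) = F Ω g χ * (starRingEnd ℂ) (F Ω g χ) := by
      rw [Complex.mul_conj, Complex.normSq_eq_norm_sq]
    rw [e1]
    unfold F
    rw [map_sum, Finset.sum_product, Finset.sum_mul_sum, Finset.mul_sum]
    refine Finset.sum_congr rfl fun ω hω => ?_
    rw [Finset.mul_sum]
    refine Finset.sum_congr rfl fun ω' hω' => ?_
    rw [← AddChar.map_neg_eq_conj, ← AddChar.map_add_eq_mul, ← AddChar.map_add_eq_mul]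
    congr 1
    abel
  have h2 : ∀ p ∈ Ω ×ˢ Ω, ∑ χ : AddChar V ℂ, χ (g p.1 - (c + g p.2)) =
      if g p.1 = c + g p.2 then (Fintype.card V : ℂ) else 0 := by
    intro p hp
    rw [AddChar.sum_apply_eq_ite]
    simp only [sub_eq_zero]
  rw [Finset.sum_congr rfl fun χ _ => h1 χ, Finset.sum_comm, Finset.sum_congr rfl h2,
    ← Finset.sum_filter, Finset.sum_const, nsmul_eq_mul]
  push_cast
  ring

theorem orth_eq {α : Type*} [DecidableEq α] [DecidableEq V] (Ω : Finset α) (g : α → V) :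
    ∑ χ : AddChar V ℂ, ‖F Ω g χ‖ ^ 2 =
      (Fintype.card V : ℝ) * ((((Ω ×ˢ Ω).filter fun p => g p.1 = g p.2).card : ℝ)) := by
  have h := orth Ω g 0
  simp only [neg_zero, AddChar.map_zero_eq_one, one_mul, zero_add] at h
  exact_mod_cast h

theorem orth_le {α : Type*} [DecidableEq α] [DecidableEq V] (Ω : Finset α) (g : α → V) (c : V) :
    (Fintype.card V : ℝ) * ((((Ω ×ˢ Ω).filter fun p => g p.1 = c + g p.2).card : ℝ)) ≤
      ∑ χ : AddChar V ℂ, ‖F Ω g χ‖ ^ 2 := by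
  have h := orth Ω g c
  have h1 : (Fintype.card V : ℝ) * ((((Ω ×ˢ Ω).filter fun p => g p.1 = c + g p.2).card : ℝ)) =
      ‖∑ χ : AddChar V ℂ, χ (-c) * (((‖F Ω g χ‖ ^ 2 : ℝ)) : ℂ)‖ := by
    rw [h, ← Complex.ofReal_mul, Complex.norm_real, Real.norm_eq_abs, abs_of_nonneg (by positivity)]
  rw [h1]
  refine (norm_sum_le _ _).trans (Finset.sum_le_sum fun χ _ => ?_)
  rw [norm_mul, Complex.norm_real, Real.norm_eq_abs, abs_of_nonneg (by positivity),
    AddChar.norm_apply, one_mul]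

end chars

theorem finite_Rs {f : Gi} (hf : f ≠ 0) : Finite (Rs f) := by
  refine Finite.of_surjective (fun r : ((insert 0 (bx (nm f)) : Finset Gi) : Set Gi) => qm f r) ?_
  intro z
  obtain ⟨x, rfl⟩ := Ideal.Quotient.mk_surjective z
  refine ⟨⟨x % f, ?_⟩, ?_⟩
  · rw [mem_coe, mem_insert, mem_bx]
    by_cases h0 : x % f = 0
    · left; exact h0
    · right
      exact ⟨h0, (GaussianInt.natAbs_norm_mod_lt x hf).le⟩
  · change qm f (x % f) = qm f x
    rw [qm_eq, GaussianInt.mod_def]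
    exact ⟨-(x / f), by ring⟩

/-- the group of units modulo `f`, written additively -/
abbrev VV (f : Gi) := Additive (Rs f)ˣ

/-- the unit as an element of the ring -/
noncomputable def val {f : Gi} (v : VV f) : Rs f := ((Additive.toMul v : (Rs f)ˣ) : Rs f)

theorem val_add {f : Gi} (u v : VV f) : val (u + v) = val u * val v := by
  unfold val
  rw [toMul_add, Units.val_mul]

theorem val_nsmul {f : Gi} (k : ℕ) (u : VV f) : val (k • u) = val u ^ k := by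
  unfold val
  rw [toMul_nsmul, Units.val_pow_eq_pow_val]

theorem val_inj {f : Gi} {u v : VV f} (h : val u = val v) : u = v := by
  unfold val at h
  exact Additive.toMul.injective (Units.ext h)

theorem val_zero {f : Gi} : val (0 : VV f) = 1 := rfl

theorem val_sum {f : Gi} {ι : Type*} (s : Finset ι) (u : ι → VV f) :
    val (∑ i ∈ s, u i) = ∏ i ∈ s, val (u i) := by
  classical
  induction s using Finset.induction_on with
  | empty => rw [sum_empty, prod_empty, val_zero]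
  | insert a s ha ih => rw [sum_insert ha, prod_insert ha, val_add, ih]

open Classical in
/-- the class of an element coprime to `f` -/
noncomputable def lg (f a : Gi) : VV f :=
  if h : IsCoprime a f then Additive.ofMul (qm_isUnit h).unit else 0

theorem val_lg {f a : Gi} (h : IsCoprime a f) : val (lg f a) = qm f a := by
  unfold lg val
  rw [dif_pos h, toMul_ofMul, IsUnit.unit_spec]

/-- elements of norm up to `N` coprime to `f` -/
noncomputable def A (f : Gi) (N : ℕ) : Finset Gi := by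
  classical exact (bx N).filter fun x => IsCoprime x f

theorem mem_A {f : Gi} {N : ℕ} {x : Gi} : x ∈ A f N ↔ x ≠ 0 ∧ nm x ≤ N ∧ IsCoprime x f := by
  classical
  unfold A
  rw [mem_filter, mem_bx, and_assoc]

theorem acs {V ι : Type*} [AddCommGroup V] (χ : AddChar V ℂ) (s : Finset ι) (u : ι → V) :
    χ (∑ i ∈ s, u i) = ∏ i ∈ s, χ (u i) := by
  classical
  induction s using Finset.induction_on with
  | empty => simp
  | insert a s ha ih => rw [sum_insert ha, prod_insert ha, AddChar.map_add_eq_mul, ih]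

/-- the sum `S_i` -/
noncomputable def S {f : Gi} (N k : ℕ) (χ : AddChar (VV f) ℂ) : ℂ := ∑ x ∈ A f N, χ (lg f x) ^ k

theorem S_norm_le {f : Gi} (hf : f ≠ 0) (N k : ℕ) (χ : AddChar (VV f) ℂ) : ‖S N k χ‖ ≤ 9 * N := by
  have := finite_Rs hf
  unfold S
  refine (norm_sum_le _ _).trans ?_
  have h1 : ∑ x ∈ A f N, ‖χ (lg f x) ^ k‖ ≤ ∑ x ∈ A f N, (1 : ℝ) := by
    refine Finset.sum_le_sum fun x _ => ?_
    rw [norm_pow, AddChar.norm_apply, one_pow]
  refine h1.trans ?_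
  rw [Finset.sum_const, nsmul_eq_mul, mul_one]
  have : (A f N).card ≤ (bx N).card := by
    apply card_le_card
    intro x hx
    rw [mem_A] at hx
    exact mem_bx.2 ⟨hx.1, hx.2.1⟩
  calc ((A f N).card : ℝ) ≤ ((bx N).card : ℝ) := by exact_mod_cast this
    _ ≤ 9 * N := card_bx_real N

theorem prod_eq {f : Gi} {K : ℕ} (N : Fin K → ℕ) (χ : AddChar (VV f) ℂ) :
    ∑ x ∈ Fintype.piFinset fun i => A f (N i), χ (∑ i : Fin K, ((i : ℕ) + 1) • lg f (x i)) =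
      ∏ i, S (N i) ((i : ℕ) + 1) χ := by
  unfold S
  rw [Finset.prod_univ_sum]
  refine Finset.sum_congr rfl fun x _ => ?_
  rw [acs]
  refine Finset.prod_congr rfl fun i _ => ?_
  rw [AddChar.map_nsmul_eq_pow]

theorem pwr_eq {f : Gi} (N B k l h : ℕ) (χ : AddChar (VV f) ℂ) :
    ∑ x ∈ (A f N) ×ˢ (Fintype.piFinset fun _ : Fin h => A f B),
      χ (k • lg f x.1 + l • ∑ j, lg f (x.2 j)) = S N k χ * S B l χ ^ h := by
  rw [Finset.sum_product]
  have h1 : S B l χ ^ h = ∑ u ∈ Fintype.piFinset (fun _ : Fin h => A f B),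
      ∏ j, χ (lg f (u j)) ^ l := by
    rw [← Finset.prod_univ_sum (t := fun _ : Fin h => A f B)
      (f := fun _ u => χ (lg f u) ^ l)]
    rw [Finset.prod_const, Finset.card_univ, Fintype.card_fin]
    rfl
  rw [h1]
  unfold S
  rw [Finset.sum_mul_sum]
  refine Finset.sum_congr rfl fun x _ => Finset.sum_congr rfl fun u _ => ?_
  rw [AddChar.map_add_eq_mul, AddChar.map_nsmul_eq_pow, AddChar.map_nsmul_eq_pow,
    acs, Finset.prod_pow]

/-- the moment bound -/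
def Mom (K H : ℕ) (ε D : ℝ) : Prop :=
  ∀ k l h : ℕ, 1 ≤ k → k ≤ K → 1 ≤ l → l ≤ K → h ≤ H →
    ∀ (X : ℕ) (f : Gi) (N B : ℕ), ∀ [Fintype (VV f)], f ≠ 0 → nm f ≤ X → 1 ≤ N → N ≤ X →
      1 ≤ B → B ^ h ≤ X →
    ∑ χ : AddChar (VV f) ℂ, ‖S N k χ‖ ^ 2 * (‖S B l χ‖ ^ 2) ^ h ≤
      (Fintype.card (VV f) : ℝ) * (D * (X : ℝ) ^ ε *
        ((N : ℝ) * (B : ℝ) ^ h * (1 + (N : ℝ) * (B : ℝ) ^ h / nm f)))

theorem moment (K H : ℕ) (ε : ℝ) (hε : 0 < ε) : ∃ D : ℝ, 1 ≤ D ∧ Mom K H ε D := by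
  classical
  choose D hD0 hD using fun h : ℕ => stmtPwr K h ε hε
  refine ⟨1 + ∑ h ∈ range (H + 1), D h, ?_, ?_⟩
  · have : 0 ≤ ∑ h ∈ range (H + 1), D h := Finset.sum_nonneg fun h _ => (hD0 h).le
    linarith
  intro k l h hk hkK hl hlK hhH X f N B _ hf hfX hN hNX hB hBX
  have hDle : D h ≤ 1 + ∑ h ∈ range (H + 1), D h := by
    have := Finset.single_le_sum (f := D) (s := range (H + 1)) (fun h _ => (hD0 h).le)
      (mem_range.2 (by omega : h < H + 1))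
    linarith
  set Ω : Finset (Gi × (Fin h → Gi)) := (A f N) ×ˢ (Fintype.piFinset fun _ : Fin h => A f B) with hΩ
  set g : Gi × (Fin h → Gi) → VV f := fun x => k • lg f x.1 + l • ∑ j, lg f (x.2 j) with hg
  have h1 : ∀ χ : AddChar (VV f) ℂ, ‖S N k χ‖ ^ 2 * (‖S B l χ‖ ^ 2) ^ h = ‖F Ω g χ‖ ^ 2 := by
    intro χ
    have : F Ω g χ = S N k χ * S B l χ ^ h := pwr_eq N B k l h χ
    rw [this, norm_mul, norm_pow, mul_pow, ← pow_mul, ← pow_mul, mul_comm 2 h]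
  rw [Finset.sum_congr rfl fun χ _ => h1 χ, orth_eq Ω g]
  refine mul_le_mul_of_nonneg_left ?_ (Nat.cast_nonneg _)
  set P := (Ω ×ˢ Ω).filter fun p => g p.1 = g p.2 with hPd
  set φ' : (Gi × (Fin h → Gi)) × (Gi × (Fin h → Gi)) → (Gi × Gi) × ((Fin h → Gi) × (Fin h → Gi)) :=
    fun p => ((p.1.1, p.2.1), (p.1.2, p.2.2)) with hφ
  have hinj : Function.Injective φ' := by
    rintro ⟨⟨a, b⟩, ⟨c, d⟩⟩ ⟨⟨a', b'⟩, ⟨c', d'⟩⟩ hh
    simp only [hφ, Prod.mk.injEq] at hh ⊢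
    tauto
  rw [← Finset.card_image_of_injective P hinj]
  refine (hD h k l hk hkK hl hlK X f N B hf hfX hN hNX hB hBX (P.image φ') ?_).trans ?_
  · intro t ht
    obtain ⟨p, hp, rfl⟩ := mem_image.1 ht
    rw [hPd, mem_filter, mem_product, hΩ, mem_product, mem_product, Fintype.mem_piFinset,
      Fintype.mem_piFinset] at hp
    obtain ⟨⟨⟨a1, a2⟩, ⟨a3, a4⟩⟩, a5⟩ := hp
    simp only [mem_A] at a1 a2 a3 a4
    refine ⟨a1.1, a1.2.1, a3.1, a3.2.1, a1.2.2, a3.2.2, a2, a4, ?_⟩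
    have h2 := congrArg val a5
    simp only [hg] at h2
    rw [val_add, val_add, val_nsmul, val_nsmul, val_nsmul, val_nsmul, val_sum, val_sum,
      val_lg a1.2.2, val_lg a3.2.2, prod_congr rfl fun j _ => val_lg (a2 j).2.2,
      prod_congr rfl fun j _ => val_lg (a4 j).2.2] at h2
    exact h2
  · have : 0 ≤ (X : ℝ) ^ ε * ((N : ℝ) * (B : ℝ) ^ h * (1 + (N : ℝ) * (B : ℝ) ^ h / nm f)) := by
      positivity
    nlinarith

/-- the main inequality for the big classes -/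
theorem big (K H : ℕ) (ε D : ℝ) (hD : 1 ≤ D) (hmom : Mom K H ε D)
    (X : ℕ) (f : Gi) [Fintype (VV f)] (hf : f ≠ 0) (hfX : nm f ≤ X) (N : Fin K → ℕ)
    (hN : ∀ i, 1 ≤ N i) (hNX : ∏ i, N i ≤ X) (I : Finset (Fin K)) (hI : I.Nonempty)
    (h2 : ∀ i ∈ I, 2 ≤ N i) (hH : ∀ i ∈ I, ∀ h : ℕ, N i ^ h ≤ X → h + 1 ≤ H) :
    ∑ χ : AddChar (VV f) ℂ, ∏ i ∈ I, ‖S (N i) ((i : ℕ) + 1) χ‖ ^ 2 ≤
      (Fintype.card (VV f) : ℝ) * (D * (X : ℝ) ^ ε *
        ((∏ i ∈ I, (N i : ℝ)) * (1 + (∏ i, (N i : ℝ)) ^ ((3 : ℝ) / 2) / nm f))) := by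
  classical
  have hX : 1 ≤ X := (nm_pos hf).trans_le hfX
  obtain ⟨i1, hi1, hmax⟩ := Finset.exists_max_image I N hI
  set I' := I.erase i1 with hI'
  set Z : ℕ := ∏ i ∈ I', N i with hZ
  have hZ1 : 1 ≤ Z := Finset.one_le_prod' fun i _ => hN i
  have hNZ : N i1 * Z = ∏ i ∈ I, N i := by rw [hZ, hI', Finset.mul_prod_erase I N hi1]
  have hIX : ∏ i ∈ I, N i ≤ ∏ i, N i :=
    Finset.prod_le_prod_of_subset_of_one_le' (subset_univ _) fun i _ _ => hN i
  have hle : ∀ i ∈ I', N i ≤ Z := fun i hi =>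
    Finset.single_le_prod' (f := N) (fun j _ => hN j) hi
  have hex : ∀ i : Fin K, ∃ h : ℕ, i ∈ I' → 1 ≤ h ∧ Z ≤ N i ^ h ∧ N i ^ (h - 1) ≤ Z := by
    intro i
    by_cases hi : i ∈ I'
    · obtain ⟨h, hh⟩ := exists_pow (N i) Z (h2 i (mem_of_mem_erase hi))
        ((h2 i (mem_of_mem_erase hi)).trans (hle i hi))
      exact ⟨h, fun _ => hh⟩
    · exact ⟨0, fun h => absurd h hi⟩
  choose h0 hh0 using hex
  set h : Fin K → ℕ := fun i => if i = i1 then 0 else h0 i with hh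
  set θ : Fin K → ℝ := fun i => if i = i1 then 1 - ∑ j ∈ I', 1 / (h0 j : ℝ) else 1 / (h0 i : ℝ)
    with hθ
  have hI'ne : ∀ i ∈ I', i ≠ i1 := fun i hi => ne_of_mem_erase hi
  have hI'I : ∀ i ∈ I', i ∈ I := fun i hi => mem_of_mem_erase hi
  -- sum of the weights
  have hsum1 : ∑ j ∈ I', 1 / (h0 j : ℝ) ≤ 1 := by
    rcases I'.eq_empty_or_nonempty with he | ⟨j0, hj0⟩
    · rw [he]; simp
    have hZ2 : 2 ≤ Z := (h2 j0 (hI'I j0 hj0)).trans (hle j0 hj0)
    have hlogZ : 0 < Real.log Z := Real.log_pos (by exact_mod_cast hZ2)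
    have h3 : ∀ j ∈ I', 1 / (h0 j : ℝ) ≤ Real.log (N j) / Real.log Z := by
      intro j hj
      obtain ⟨a1, a2, a3⟩ := hh0 j hj
      have a1' : (0 : ℝ) < h0 j := by exact_mod_cast a1
      rw [div_le_div_iff₀ a1' hlogZ, one_mul]
      have a4 : Real.log Z ≤ Real.log ((N j : ℝ) ^ h0 j) :=
        Real.log_le_log (by exact_mod_cast (by omega : 0 < Z)) (by exact_mod_cast a2)
      rw [Real.log_pow] at a4
      linarith
    calc ∑ j ∈ I', 1 / (h0 j : ℝ) ≤ ∑ j ∈ I', Real.log (N j) / Real.log Z := Finset.sum_le_sum h3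
      _ = Real.log (∏ j ∈ I', (N j : ℝ)) / Real.log Z := by
          rw [← Finset.sum_div, Real.log_prod]
          intro j hj
          have := h2 j (hI'I j hj)
          exact_mod_cast (by omega : N j ≠ 0)
      _ = 1 := by
          have : ((Z : ℕ) : ℝ) = ∏ j ∈ I', (N j : ℝ) := by rw [hZ]; push_cast; rfl
          rw [← this]
          exact div_self hlogZ.ne'
  have hθsum : ∑ i ∈ I, θ i = 1 := by
    rw [← Finset.add_sum_erase I θ hi1]
    have e1 : θ i1 = 1 - ∑ j ∈ I', 1 / (h0 j : ℝ) := by simp [hθ]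
    have e2 : ∑ x ∈ I.erase i1, θ x = ∑ j ∈ I', 1 / (h0 j : ℝ) := by
      refine Finset.sum_congr rfl fun i hi => ?_
      simp only [hθ]
      rw [if_neg (hI'ne i hi)]
    rw [e1, e2]
    ring
  have hθ0 : ∀ i ∈ I, 0 ≤ θ i := by
    intro i _
    simp only [hθ]
    split_ifs
    · linarith
    · positivity
  -- sizes
  have hNi1 : 2 ≤ N i1 := h2 i1 hi1
  have hpow : ∀ i ∈ I, N i ^ h i ≤ Z * N i := by
    intro i hi
    by_cases hi' : i = i1
    · simp only [hh, hi', if_true, pow_zero]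
      exact Nat.mul_pos hZ1 (by omega)
    · obtain ⟨a1, a2, a3⟩ := hh0 i (mem_erase.2 ⟨hi', hi⟩)
      simp only [hh, if_neg hi']
      obtain ⟨m, hm⟩ : ∃ m, h0 i = m + 1 := ⟨h0 i - 1, by omega⟩
      rw [hm] at a3 ⊢
      simp only [Nat.add_sub_cancel] at a3
      rw [pow_succ]
      exact Nat.mul_le_mul_right _ a3
  have hpowX : ∀ i ∈ I, N i ^ h i ≤ X := by
    intro i hi
    calc N i ^ h i ≤ Z * N i := hpow i hi
      _ ≤ Z * N i1 := Nat.mul_le_mul_left _ (hmax i hi)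
      _ = ∏ i ∈ I, N i := by rw [mul_comm]; exact hNZ
      _ ≤ X := hIX.trans hNX
  have hhH : ∀ i ∈ I, h i ≤ H := by
    intro i hi
    have := hH i hi (h i) (hpowX i hi)
    omega
  have hY1 : (1 : ℝ) ≤ ∏ i, (N i : ℝ) := by
    have : 1 ≤ ∏ i, N i := Finset.one_le_prod' fun i _ => hN i
    exact_mod_cast this
  set Y : ℝ := ∏ i, (N i : ℝ) with hY
  have hYc : ((∏ i, N i : ℕ) : ℝ) = Y := by rw [hY]; push_cast; rfl
  have hsize : ∀ i ∈ I, (N i1 : ℝ) * (N i : ℝ) ^ h i ≤ Y ^ ((3 : ℝ) / 2) := by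
    intro i hi
    have e1 : (N i1 : ℝ) * (N i : ℝ) ^ h i ≤ Y * N i := by
      have : N i1 * N i ^ h i ≤ (∏ i, N i) * N i := by
        calc N i1 * N i ^ h i ≤ N i1 * (Z * N i) := Nat.mul_le_mul_left _ (hpow i hi)
          _ = (N i1 * Z) * N i := by ring
          _ ≤ _ := Nat.mul_le_mul_right _ (by rw [hNZ]; exact hIX)
      rw [← hYc]
      exact_mod_cast this
    by_cases hi' : i = i1
    · -- h = 0
      have e3 : (N i1 : ℝ) * (N i : ℝ) ^ h i ≤ Y := by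
        simp only [hh, hi', if_true, pow_zero, mul_one]
        rw [← hYc]
        exact_mod_cast Finset.single_le_prod' (f := N) (fun j _ => hN j) (mem_univ i1)
      refine e3.trans ?_
      calc Y = Y ^ (1 : ℝ) := (Real.rpow_one Y).symm
        _ ≤ Y ^ ((3 : ℝ) / 2) := Real.rpow_le_rpow_of_exponent_le hY1 (by norm_num)
    · have e2 : (N i : ℝ) ≤ Y ^ ((1 : ℝ) / 2) := by
        have : N i * N i ≤ ∏ i, N i := by
          calc N i * N i ≤ N i1 * Z :=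
                Nat.mul_le_mul (hmax i hi) (hle i (mem_erase.2 ⟨hi', hi⟩))
            _ ≤ _ := by rw [hNZ]; exact hIX
        have h4 : (N i : ℝ) ^ 2 ≤ Y := by
          rw [← hYc, sq]
          exact_mod_cast this
        rw [← Real.sqrt_eq_rpow]
        exact Real.le_sqrt_of_sq_le h4
      calc (N i1 : ℝ) * (N i : ℝ) ^ h i ≤ Y * N i := e1
        _ ≤ Y * Y ^ ((1 : ℝ) / 2) := mul_le_mul_of_nonneg_left e2 (by linarith)
        _ = Y ^ ((3 : ℝ) / 2) := by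
            nth_rewrite 1 [← Real.rpow_one Y]
            rw [← Real.rpow_add (by linarith)]
            norm_num
  -- the bounds
  have hfp : (0 : ℝ) < nm f := by exact_mod_cast nm_pos hf
  set C0 : ℝ := D * (X : ℝ) ^ ε * (1 + Y ^ ((3 : ℝ) / 2) / nm f) with hC0
  have hXp : (0 : ℝ) < X := by exact_mod_cast hX
  have hC0p : 0 < C0 := by
    rw [hC0]
    have : 0 < D := by linarith
    have : 0 ≤ Y ^ ((3 : ℝ) / 2) / nm f := by positivity
    positivity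
  have hmain := hoelder I θ (fun i => C0 * ((N i1 : ℝ) * (N i : ℝ) ^ h i))
    (fun i (χ : AddChar (VV f) ℂ) => ‖S (N i1) ((i1 : ℕ) + 1) χ‖ ^ 2 *
      (‖S (N i) ((i : ℕ) + 1) χ‖ ^ 2) ^ h i) hθ0 hθsum
    (fun i hi => by
      have := h2 i hi
      have e1 : (0 : ℝ) < N i := by exact_mod_cast (by omega : 0 < N i)
      have e2 : (0 : ℝ) < N i1 := by exact_mod_cast (by omega : 0 < N i1)
      positivity) (fun i hi χ => by positivity) (Fintype.card (VV f) : ℝ) (fun i hi => by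
      refine (hmom ((i1 : ℕ) + 1) ((i : ℕ) + 1) (h i) (by omega) (by have := i1.2; omega)
        (by omega) (by have := i.2; omega) (hhH i hi) X f (N i1) (N i) hf hfX (hN i1)
        ((Finset.single_le_prod' (f := N) (fun j _ => hN j) (mem_univ i1)).trans hNX) (hN i)
        (hpowX i hi)).trans ?_
      refine mul_le_mul_of_nonneg_left ?_ (Nat.cast_nonneg _)
      have e3 : (N i1 : ℝ) * (N i : ℝ) ^ h i / nm f ≤ Y ^ ((3 : ℝ) / 2) / nm f :=
        div_le_div_of_nonneg_right (hsize i hi) hfp.le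
      have e4 : 0 ≤ D * (X : ℝ) ^ ε * ((N i1 : ℝ) * (N i : ℝ) ^ h i) := by
        have : 0 < D := by linarith
        positivity
      calc D * (X : ℝ) ^ ε * ((N i1 : ℝ) * (N i : ℝ) ^ h i *
            (1 + (N i1 : ℝ) * (N i : ℝ) ^ h i / nm f))
          = D * (X : ℝ) ^ ε * ((N i1 : ℝ) * (N i : ℝ) ^ h i) *
            (1 + (N i1 : ℝ) * (N i : ℝ) ^ h i / nm f) := by ring
        _ ≤ D * (X : ℝ) ^ ε * ((N i1 : ℝ) * (N i : ℝ) ^ h i) * (1 + Y ^ ((3 : ℝ) / 2) / nm f) :=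
            mul_le_mul_of_nonneg_left (by linarith) e4
        _ = C0 * ((N i1 : ℝ) * (N i : ℝ) ^ h i) := by rw [hC0]; ring)
  -- identify both sides
  have hexp : ∀ i ∈ I', (h i : ℝ) * θ i = 1 := by
    intro i hi
    simp only [hh, hθ]
    rw [if_neg (hI'ne i hi), if_neg (hI'ne i hi)]
    have : (0 : ℝ) < h0 i := by exact_mod_cast (hh0 i hi).1
    field_simp
  have hgen : ∀ (a : ℝ) (b : Fin K → ℝ), 0 < a → (∀ i, 0 ≤ b i) →
      ∏ i ∈ I, (a * (b i) ^ h i) ^ θ i = a * ∏ i ∈ I', b i := by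
    intro a b ha hb
    have e1 : ∀ i ∈ I, (a * (b i) ^ h i) ^ θ i = a ^ θ i * ((b i) ^ h i) ^ θ i := fun i _ =>
      Real.mul_rpow ha.le (pow_nonneg (hb i) _)
    rw [Finset.prod_congr rfl e1, Finset.prod_mul_distrib]
    congr 1
    · rw [← Real.rpow_sum_of_pos ha, hθsum, Real.rpow_one]
    · rw [← Finset.mul_prod_erase I _ hi1]
      have e2 : (b i1 ^ h i1) ^ θ i1 = 1 := by simp [hh]
      rw [e2, one_mul]
      refine Finset.prod_congr rfl fun i hi => ?_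
      rw [← Real.rpow_natCast, ← Real.rpow_mul (hb i), hexp i hi, Real.rpow_one]
  have hgen0 : ∀ (a : ℝ) (b : Fin K → ℝ), 0 ≤ a → (∀ i, 0 ≤ b i) →
      a * ∏ i ∈ I', b i ≤ ∏ i ∈ I, (a * (b i) ^ h i) ^ θ i := by
    intro a b ha hb
    rcases ha.eq_or_lt with ha0 | ha0
    · rw [← ha0, zero_mul]
      exact Finset.prod_nonneg fun i _ => Real.rpow_nonneg (by rw [zero_mul]) _
    · exact (hgen a b ha0 hb).ge
  have hL : ∀ χ : AddChar (VV f) ℂ, ∏ i ∈ I, ‖S (N i) ((i : ℕ) + 1) χ‖ ^ 2 ≤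
      ∏ i ∈ I, (‖S (N i1) ((i1 : ℕ) + 1) χ‖ ^ 2 * (‖S (N i) ((i : ℕ) + 1) χ‖ ^ 2) ^ h i) ^ θ i := by
    intro χ
    have := hgen0 (‖S (N i1) ((i1 : ℕ) + 1) χ‖ ^ 2)
      (fun i => ‖S (N i) ((i : ℕ) + 1) χ‖ ^ 2) (by positivity) (fun i => by positivity)
    refine le_trans (le_of_eq ?_) this
    rw [← Finset.mul_prod_erase I _ hi1]
  refine (Finset.sum_le_sum fun χ _ => hL χ).trans (hmain.trans ?_)
  refine mul_le_mul_of_nonneg_left ?_ (Nat.cast_nonneg _)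
  have e5 : ∏ i ∈ I, (C0 * ((N i1 : ℝ) * (N i : ℝ) ^ h i)) ^ θ i =
      C0 * (N i1 : ℝ) * ∏ i ∈ I', (N i : ℝ) := by
    have e6 := hgen (C0 * (N i1 : ℝ)) (fun i => (N i : ℝ))
      (mul_pos hC0p (by exact_mod_cast (by omega : 0 < N i1))) (fun i => Nat.cast_nonneg _)
    rw [← e6]
    refine Finset.prod_congr rfl fun i _ => ?_
    rw [← mul_assoc C0]
  rw [e5, mul_assoc, hI', Finset.mul_prod_erase I (fun i => (N i : ℝ)) hi1, hC0]
  apply le_of_eq
  ring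

end JJ

/-- JJ: the multiplicative energy of a product set -/
def StmtJ : Prop :=
  ∀ K : ℕ, ∀ ε : ℝ, 0 < ε → ∃ D : ℝ, 0 < D ∧ ∀ (X : ℕ) (f : Gi), f ≠ 0 → nm f ≤ X →
    ∀ N : Fin K → ℕ, (∀ i, 1 ≤ N i) → ∏ i, N i ≤ X → ∀ c : Rs f, IsUnit c →
    ∀ Q : Finset ((Fin K → Gi) × (Fin K → Gi)),
    (∀ t ∈ Q, (∀ i, t.1 i ≠ 0 ∧ nm (t.1 i) ≤ N i ∧ IsCoprime (t.1 i) f) ∧
      (∀ i, t.2 i ≠ 0 ∧ nm (t.2 i) ≤ N i ∧ IsCoprime (t.2 i) f) ∧
      ∏ i, qm f (t.1 i) ^ ((i : ℕ) + 1) = c * ∏ i, qm f (t.2 i) ^ ((i : ℕ) + 1)) →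
    (Q.card : ℝ) ≤ D * (X : ℝ) ^ ε *
      ((∏ i, (N i : ℝ)) * (1 + (∏ i, (N i : ℝ)) ^ ((3 : ℝ) / 2) / nm f))

open JJ in
theorem stmtJ : StmtJ := by
  classical
  intro K ε hε
  obtain ⟨η, hη⟩ : ∃ η : ℝ, η = ε / (4 * ((K : ℝ) + 1)) := ⟨_, rfl⟩
  have hηp : 0 < η := by rw [hη]; positivity
  obtain ⟨H, hH⟩ := exists_nat_gt (1 / η + 1)
  obtain ⟨D, hD1, hmom⟩ := moment K H (ε / 4) (by positivity)
  refine ⟨81 ^ K * D, by positivity, ?_⟩
  intro X f hf hfX N hN hNX c hc Q hQ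
  have := finite_Rs hf
  have : Fintype (VV f) := Fintype.ofFinite _
  have hX : 1 ≤ X := (nm_pos hf).trans_le hfX
  have hX1 : (1 : ℝ) ≤ X := by exact_mod_cast hX
  have hXp : (0 : ℝ) < X := by linarith
  have hfp : (0 : ℝ) < nm f := by exact_mod_cast nm_pos hf
  have hφ : (0 : ℝ) < (Fintype.card (VV f) : ℝ) := by exact_mod_cast Fintype.card_pos
  set Y : ℝ := ∏ i, (N i : ℝ) with hY
  have hYc : ((∏ i, N i : ℕ) : ℝ) = Y := by rw [hY]; push_cast; rfl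
  have hY1 : (1 : ℝ) ≤ Y := by
    have : 1 ≤ ∏ i, N i := Finset.one_le_prod' fun i _ => hN i
    rw [← hYc]
    exact_mod_cast this
  obtain ⟨uc, rfl⟩ := hc
  set Ω : Finset (Fin K → Gi) := Fintype.piFinset fun i => A f (N i) with hΩ
  set g : (Fin K → Gi) → VV f := fun x => ∑ i : Fin K, ((i : ℕ) + 1) • lg f (x i) with hg
  have hval : ∀ x : Fin K → Gi, (∀ i, IsCoprime (x i) f) →
      val (g x) = ∏ i, qm f (x i) ^ ((i : ℕ) + 1) := by
    intro x hx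
    simp only [hg]
    rw [val_sum]
    refine prod_congr rfl fun i _ => ?_
    rw [val_nsmul, val_lg (hx i)]
  have hQ1 : Q ⊆ (Ω ×ˢ Ω).filter fun p => g p.1 = Additive.ofMul uc + g p.2 := by
    intro t ht
    obtain ⟨a1, a2, a3⟩ := hQ t ht
    rw [mem_filter, mem_product, hΩ, Fintype.mem_piFinset, Fintype.mem_piFinset]
    refine ⟨⟨fun i => mem_A.2 (a1 i), fun i => mem_A.2 (a2 i)⟩, ?_⟩
    apply JJ.val_inj
    rw [val_add, hval _ fun i => (a1 i).2.2, hval _ fun i => (a2 i).2.2]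
    exact a3
  have h1 : (Fintype.card (VV f) : ℝ) * Q.card ≤
      ∑ χ : AddChar (VV f) ℂ, ∏ i, ‖S (N i) ((i : ℕ) + 1) χ‖ ^ 2 := by
    have e1 := orth_le Ω g (Additive.ofMul uc)
    have e2 : ∀ χ : AddChar (VV f) ℂ, ‖F Ω g χ‖ ^ 2 =
        ∏ i, ‖S (N i) ((i : ℕ) + 1) χ‖ ^ 2 := by
      intro χ
      have : F Ω g χ = ∏ i, S (N i) ((i : ℕ) + 1) χ := prod_eq N χ
      rw [this, norm_prod, Finset.prod_pow]
    rw [Finset.sum_congr rfl fun χ _ => e2 χ] at e1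
    refine le_trans ?_ e1
    exact mul_le_mul_of_nonneg_left (by exact_mod_cast card_le_card hQ1) hφ.le
  suffices hS : ∑ χ : AddChar (VV f) ℂ, ∏ i, ‖S (N i) ((i : ℕ) + 1) χ‖ ^ 2 ≤
      (Fintype.card (VV f) : ℝ) * (81 ^ K * D * (X : ℝ) ^ ε * (Y * (1 + Y ^ ((3 : ℝ) / 2) / nm f))) by
    exact le_of_mul_le_mul_left (h1.trans hS) hφ
  set I : Finset (Fin K) := univ.filter fun i => (X : ℝ) ^ η < N i with hI
  have hc81 : ((Iᶜ).card : ℝ) ≤ K := by
    have := (Iᶜ).card_le_univ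
    rw [Fintype.card_fin] at this
    exact_mod_cast this
  -- small classes
  have hsmall : ∀ χ : AddChar (VV f) ℂ, ∏ i ∈ Iᶜ, ‖S (N i) ((i : ℕ) + 1) χ‖ ^ 2 ≤
      81 ^ K * (X : ℝ) ^ (ε / 4) * ∏ i ∈ Iᶜ, (N i : ℝ) := by
    intro χ
    calc ∏ i ∈ Iᶜ, ‖S (N i) ((i : ℕ) + 1) χ‖ ^ 2 ≤ ∏ i ∈ Iᶜ, (81 * (X : ℝ) ^ η * N i) := by
          refine Finset.prod_le_prod (fun i _ => by positivity) fun i hi => ?_
          have e1 : (N i : ℝ) ≤ (X : ℝ) ^ η := by
            have : i ∉ I := by simpa using hi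
            rw [hI, mem_filter] at this
            push Not at this
            exact this (mem_univ i)
          have e2 := S_norm_le hf (N i) ((i : ℕ) + 1) χ
          have e3 : 0 ≤ ‖S (N i) ((i : ℕ) + 1) χ‖ := norm_nonneg _
          calc ‖S (N i) ((i : ℕ) + 1) χ‖ ^ 2 ≤ (9 * (N i : ℝ)) ^ 2 := pow_le_pow_left₀ e3 e2 2
            _ = 81 * N i * N i := by ring
            _ ≤ 81 * (X : ℝ) ^ η * N i :=
              mul_le_mul_of_nonneg_right (by linarith) (Nat.cast_nonneg _)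
      _ = 81 ^ (Iᶜ).card * ((X : ℝ) ^ η) ^ (Iᶜ).card * ∏ i ∈ Iᶜ, (N i : ℝ) := by
          rw [Finset.prod_mul_distrib, Finset.prod_const, mul_pow]
      _ ≤ 81 ^ K * (X : ℝ) ^ (ε / 4) * ∏ i ∈ Iᶜ, (N i : ℝ) := by
          refine mul_le_mul_of_nonneg_right ?_ (Finset.prod_nonneg fun i _ => Nat.cast_nonneg _)
          apply mul_le_mul
          · exact pow_le_pow_right₀ (by norm_num) (by exact_mod_cast hc81)
          · rw [← Real.rpow_natCast, ← Real.rpow_mul hXp.le]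
            refine Real.rpow_le_rpow_of_exponent_le hX1 ?_
            have e5 : η * ((K : ℝ) + 1) = ε / 4 := by rw [hη]; field_simp
            nlinarith
          · positivity
          · positivity
  have hNp : 0 ≤ ∏ i ∈ Iᶜ, (N i : ℝ) := Finset.prod_nonneg fun i _ => Nat.cast_nonneg _
  have hbracket : (1 : ℝ) ≤ 1 + Y ^ ((3 : ℝ) / 2) / nm f := by
    have : 0 ≤ Y ^ ((3 : ℝ) / 2) / nm f := by positivity
    linarith
  have hXX : (X : ℝ) ^ (ε / 4) * (X : ℝ) ^ (ε / 4) ≤ (X : ℝ) ^ ε := by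
    rw [← Real.rpow_add hXp]
    exact Real.rpow_le_rpow_of_exponent_le hX1 (by linarith)
  have hXε : (1 : ℝ) ≤ (X : ℝ) ^ (ε / 4) := Real.one_le_rpow hX1 (by positivity)
  have hbigsum : ∑ χ : AddChar (VV f) ℂ, ∏ i ∈ I, ‖S (N i) ((i : ℕ) + 1) χ‖ ^ 2 ≤
      (Fintype.card (VV f) : ℝ) * (D * (X : ℝ) ^ (ε / 4) *
        ((∏ i ∈ I, (N i : ℝ)) * (1 + Y ^ ((3 : ℝ) / 2) / nm f))) := by
    rcases I.eq_empty_or_nonempty with he | hne
    · rw [he]
      simp only [Finset.prod_empty, Finset.sum_const, nsmul_eq_mul, mul_one, one_mul,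
        Finset.card_univ]
      rw [AddChar.card_eq]
      have e2 : 1 ≤ D * (X : ℝ) ^ (ε / 4) * (1 + Y ^ ((3 : ℝ) / 2) / nm f) := by
        have e3 : 1 ≤ D * (X : ℝ) ^ (ε / 4) := by nlinarith
        nlinarith
      nlinarith
    · refine big K H (ε / 4) D hD1 hmom X f hf hfX N hN hNX I hne ?_ ?_
      · intro i hi
        rw [hI, mem_filter] at hi
        have e1 : (1 : ℝ) ≤ (X : ℝ) ^ η := Real.one_le_rpow hX1 hηp.le
        have e2 : (1 : ℝ) < N i := lt_of_le_of_lt e1 hi.2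
        have : 1 < N i := by exact_mod_cast e2
        omega
      · intro i hi h hh
        rw [hI, mem_filter] at hi
        by_contra hcon
        have e0 : (H : ℝ) ≤ h := by exact_mod_cast (by omega : H ≤ h)
        have e1 : (1 : ℝ) < η * h := by
          have : 1 / η < h := by linarith
          rw [div_lt_iff₀ hηp] at this
          linarith
        have e2 : (X : ℝ) ≤ ((X : ℝ) ^ η) ^ h := by
          rw [← Real.rpow_natCast, ← Real.rpow_mul hXp.le]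
          nth_rewrite 1 [← Real.rpow_one (X : ℝ)]
          exact Real.rpow_le_rpow_of_exponent_le hX1 e1.le
        have e3 : ((X : ℝ) ^ η) ^ h < (N i : ℝ) ^ h := by
          have hh0 : h ≠ 0 := by
            rintro rfl
            simp at e1
            linarith
          exact pow_lt_pow_left₀ hi.2 (by positivity) hh0
        have e4 : ((N i : ℝ)) ^ h ≤ X := by exact_mod_cast hh
        linarith
  calc ∑ χ : AddChar (VV f) ℂ, ∏ i, ‖S (N i) ((i : ℕ) + 1) χ‖ ^ 2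
      = ∑ χ : AddChar (VV f) ℂ, (∏ i ∈ I, ‖S (N i) ((i : ℕ) + 1) χ‖ ^ 2) *
          ∏ i ∈ Iᶜ, ‖S (N i) ((i : ℕ) + 1) χ‖ ^ 2 :=
        Finset.sum_congr rfl fun χ _ => (Finset.prod_mul_prod_compl I _).symm
    _ ≤ ∑ χ : AddChar (VV f) ℂ, (∏ i ∈ I, ‖S (N i) ((i : ℕ) + 1) χ‖ ^ 2) *
          (81 ^ K * (X : ℝ) ^ (ε / 4) * ∏ i ∈ Iᶜ, (N i : ℝ)) :=
        Finset.sum_le_sum fun χ _ => mul_le_mul_of_nonneg_left (hsmall χ)
          (Finset.prod_nonneg fun i _ => by positivity)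
    _ = (∑ χ : AddChar (VV f) ℂ, (∏ i ∈ I, ‖S (N i) ((i : ℕ) + 1) χ‖ ^ 2)) *
          (81 ^ K * (X : ℝ) ^ (ε / 4) * ∏ i ∈ Iᶜ, (N i : ℝ)) := by rw [Finset.sum_mul]
    _ ≤ ((Fintype.card (VV f) : ℝ) * (D * (X : ℝ) ^ (ε / 4) *
        ((∏ i ∈ I, (N i : ℝ)) * (1 + Y ^ ((3 : ℝ) / 2) / nm f)))) *
          (81 ^ K * (X : ℝ) ^ (ε / 4) * ∏ i ∈ Iᶜ, (N i : ℝ)) :=
        mul_le_mul_of_nonneg_right hbigsum (by positivity)
    _ = (Fintype.card (VV f) : ℝ) * (81 ^ K * D * ((X : ℝ) ^ (ε / 4) * (X : ℝ) ^ (ε / 4)) *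
        (((∏ i ∈ I, (N i : ℝ)) * ∏ i ∈ Iᶜ, (N i : ℝ)) * (1 + Y ^ ((3 : ℝ) / 2) / nm f))) := by ring
    _ = (Fintype.card (VV f) : ℝ) * (81 ^ K * D * ((X : ℝ) ^ (ε / 4) * (X : ℝ) ^ (ε / 4)) *
        (Y * (1 + Y ^ ((3 : ℝ) / 2) / nm f))) := by rw [Finset.prod_mul_prod_compl]
    _ ≤ (Fintype.card (VV f) : ℝ) * (81 ^ K * D * (X : ℝ) ^ ε *
        (Y * (1 + Y ^ ((3 : ℝ) / 2) / nm f))) := by
        have e1 : 0 ≤ Y * (1 + Y ^ ((3 : ℝ) / 2) / nm f) := by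
          have : 0 ≤ Y := by linarith
          positivity
        have e2 : 0 ≤ 81 ^ K * D := by
          have : 0 ≤ D := by linarith
          positivity
        exact mul_le_mul_of_nonneg_left (mul_le_mul_of_nonneg_right
          (mul_le_mul_of_nonneg_left hXX e2) e1) hφ.le

end Pool.Agent.W17.AB
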