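import Mathlib
import Pool.Agent.W17.AB.JJ
import Pool.Agent.W17.AB.Mcell

/-!
# abc over the Gaussian integers: Cauchy-Schwarz over residue classes
-/

namespace Pool.Agent.W17.AB

open Finset UniqueFactorizationMonoid
open Pool.Agent.H785R2.ABC (cls Good)

noncomputable local instance instDecE : DecidableEq Gi := Classical.decEq _

namespace Est

theorem card_pairs {α β : Type*} [DecidableEq α] [DecidableEq β] (P Q : Finset α) (κP κQ : α → β)
    (C : Finset β) (hC : ∀ n ∈ P, κP n ∈ C) :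
    ((P ×ˢ Q).filter fun t => κP t.1 = κQ t.2).card =
      ∑ c ∈ C, (P.filter fun n => κP n = c).card * (Q.filter fun n => κQ n = c).card := by
  rw [card_eq_sum_card_fiberwise (f := fun t => κP t.1) (t := C)]
  · apply sum_congr rfl
    intro c _
    rw [← card_product]
    congr 1
    ext ⟨a, b⟩
    simp only [mem_filter, mem_product]
    constructor
    · rintro ⟨⟨⟨h1, h2⟩, h3⟩, h4⟩
      exact ⟨⟨h1, h4⟩, h2, by rw [← h3]; exact h4⟩
    · rintro ⟨⟨h1, h2⟩, h3, h4⟩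
      exact ⟨⟨⟨h1, h3⟩, by rw [h2, h4]⟩, h2⟩
  · intro t ht
    have h1 : t ∈ (P ×ˢ Q).filter fun t => κP t.1 = κQ t.2 := ht
    rw [mem_filter, mem_product] at h1
    exact hC _ h1.1.1

theorem cs {α β : Type*} [DecidableEq α] [DecidableEq β] (P Q : Finset α) (κP κQ : α → β) :
    (((P ×ˢ Q).filter fun t => κP t.1 = κQ t.2).card : ℝ) ^ 2 ≤
      (((P ×ˢ P).filter fun t => κP t.1 = κP t.2).card : ℝ) *
      (((Q ×ˢ Q).filter fun t => κQ t.1 = κQ t.2).card : ℝ) := by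
  classical
  set C : Finset β := P.image κP ∪ Q.image κQ with hC
  have hP : ∀ n ∈ P, κP n ∈ C := fun n hn => mem_union_left _ (mem_image_of_mem _ hn)
  have hQ : ∀ n ∈ Q, κQ n ∈ C := fun n hn => mem_union_right _ (mem_image_of_mem _ hn)
  rw [card_pairs P Q κP κQ C hP, card_pairs P P κP κP C hP, card_pairs Q Q κQ κQ C hQ]
  push_cast
  have := sum_mul_sq_le_sq_mul_sq C (fun c => ((P.filter fun n => κP n = c).card : ℝ))
    (fun c => ((Q.filter fun n => κQ n = c).card : ℝ))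
  simpa [sq] using this

/-- the last part with the unit -/
noncomputable def cl (K : ℕ) (n : Gi) : Gi := un n * ptg K n {Fin.last K}

theorem cl_ne (K : ℕ) (n : Gi) : cl K n ≠ 0 := mul_ne_zero (un_isUnit n).ne_zero (ptg_ne _ _)

theorem nm_cl (K : ℕ) (n : Gi) : nm (cl K n) = pt K n {Fin.last K} := by
  unfold cl
  rw [nm_mul, nm_unit (un_isUnit n), one_mul]
  rfl

theorem rad_cl (K : ℕ) (n : Gi) : rad (cl K n) = rd K n {Fin.last K} := by
  unfold cl rad rd rdg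
  rw [pfs_mul_unit (un_isUnit n), pfs_ptg]

theorem cl_dvd (K : ℕ) {n : Gi} (hn : n ≠ 0) : cl K n ∣ n := by
  refine ⟨∏ i : Fin K, rdg K n {i.castSucc} ^ ((i : ℕ) + 1), ?_⟩
  rw [mul_comm]
  exact fact hn

/-- the body of `StmtJ` -/
def JBody (K : ℕ) (D ε : ℝ) : Prop :=
  ∀ (X : ℕ) (f : Gi), f ≠ 0 → nm f ≤ X →
    ∀ N : Fin K → ℕ, (∀ i, 1 ≤ N i) → ∏ i, N i ≤ X → ∀ c : Rs f, IsUnit c →
    ∀ Q : Finset ((Fin K → Gi) × (Fin K → Gi)),
    (∀ t ∈ Q, (∀ i, t.1 i ≠ 0 ∧ nm (t.1 i) ≤ N i ∧ IsCoprime (t.1 i) f) ∧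
      (∀ i, t.2 i ≠ 0 ∧ nm (t.2 i) ≤ N i ∧ IsCoprime (t.2 i) f) ∧
      ∏ i, qm f (t.1 i) ^ ((i : ℕ) + 1) = c * ∏ i, qm f (t.2 i) ^ ((i : ℕ) + 1)) →
    (Q.card : ℝ) ≤ D * (X : ℝ) ^ ε *
      ((∏ i, (N i : ℝ)) * (1 + (∏ i, (N i : ℝ)) ^ ((3 : ℝ) / 2) / nm f))

end Est

/-- the factor of side `j` in the bound `EST` -/
noncomputable def side (K : ℕ) (s : Gi × Gi × Gi) (r j : Fin 3) (F : Finset (Fin (K + 1))) : ℝ :=
  (rd K (num s j) univ : ℝ) * rd K (num s j) {Fin.last K} *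
    (1 + (rd K (num s j) univ : ℝ) ^ ((3 : ℝ) / 2) / pt K (num s r) F)

theorem side_nonneg (K : ℕ) (s : Gi × Gi × Gi) (r j : Fin 3) (F : Finset (Fin (K + 1))) :
    0 ≤ side K s r j F := by
  unfold side
  positivity

namespace Est

theorem numeric (K : ℕ) {k e c l U R pr nf D4 DJ : ℝ} (hk : 1 ≤ k) (hc : 0 < c) (hR : 0 ≤ R)
    (hRU : R ≤ U) (hRUl : R * l = U) (hpr1 : 1 ≤ pr) (hprf : pr ≤ k * nf)
    (hfR : 1 ≤ nf) (hDJ : 0 ≤ DJ) :
    (D4 * (k * c) ^ e * (k * l)) ^ 2 * (DJ * (k ^ (K + 1) * c) ^ e *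
      ((k ^ K * R) * (1 + (k ^ K * R) ^ ((3 : ℝ) / 2) / nf))) ≤
      (D4 ^ 2 * DJ * k ^ (3 * K + 3) * ((k ^ e) ^ 2 * (k ^ (K + 1)) ^ e)) * c ^ (3 * e) *
        (U * l * (1 + U ^ ((3 : ℝ) / 2) / pr)) := by
  have hk0 : 0 < k := by linarith
  have hU0 : 0 ≤ U := hR.trans hRU
  have hbr : 1 + (k ^ K * R) ^ ((3 : ℝ) / 2) / nf ≤
      k ^ (2 * K + 1) * (1 + U ^ ((3 : ℝ) / 2) / pr) := by
    have e1 : (k ^ K * R) ^ ((3 : ℝ) / 2) ≤ k ^ (2 * K) * U ^ ((3 : ℝ) / 2) := by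
      rw [Real.mul_rpow (by positivity) hR]
      apply mul_le_mul
      · have h8 : (1 : ℝ) ≤ k ^ K := one_le_pow₀ hk
        calc (k ^ K) ^ ((3 : ℝ) / 2) ≤ (k ^ K) ^ (2 : ℝ) :=
              Real.rpow_le_rpow_of_exponent_le h8 (by norm_num)
          _ = k ^ (2 * K) := by
            rw [Real.rpow_two, ← pow_mul, mul_comm]
      · exact Real.rpow_le_rpow hR hRU (by norm_num)
      · positivity
      · positivity
    have e2 : 1 / nf ≤ k / pr := by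
      rw [div_le_div_iff₀ (by linarith) (by linarith)]
      linarith
    have e3 : (k ^ K * R) ^ ((3 : ℝ) / 2) / nf ≤
        k ^ (2 * K + 1) * (U ^ ((3 : ℝ) / 2) / pr) := by
      calc (k ^ K * R) ^ ((3 : ℝ) / 2) / nf = (k ^ K * R) ^ ((3 : ℝ) / 2) * (1 / nf) := by ring
        _ ≤ (k ^ (2 * K) * U ^ ((3 : ℝ) / 2)) * (k / pr) :=
            mul_le_mul e1 e2 (by positivity) (by positivity)
        _ = _ := by ring
    have e4 : (1 : ℝ) ≤ k ^ (2 * K + 1) := one_le_pow₀ hk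
    rw [mul_add, mul_one]
    linarith
  have hXe1 : (k * c) ^ e = k ^ e * c ^ e := Real.mul_rpow hk0.le hc.le
  have hXe2 : (k ^ (K + 1) * c) ^ e = (k ^ (K + 1)) ^ e * c ^ e :=
    Real.mul_rpow (by positivity) hc.le
  have hce : c ^ (3 * e) = (c ^ e) ^ 3 := by
    rw [← Real.rpow_natCast, ← Real.rpow_mul hc.le]
    congr 1
    push_cast; ring
  rw [hXe1, hXe2, hce]
  calc (D4 * (k ^ e * c ^ e) * (k * l)) ^ 2 * (DJ * ((k ^ (K + 1)) ^ e * c ^ e) *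
      ((k ^ K * R) * (1 + (k ^ K * R) ^ ((3 : ℝ) / 2) / nf))) ≤
      (D4 * (k ^ e * c ^ e) * (k * l)) ^ 2 * (DJ * ((k ^ (K + 1)) ^ e * c ^ e) *
      ((k ^ K * R) * (k ^ (2 * K + 1) * (1 + U ^ ((3 : ℝ) / 2) / pr)))) := by
        apply mul_le_mul_of_nonneg_left _ (by positivity)
        apply mul_le_mul_of_nonneg_left _ (by positivity)
        exact mul_le_mul_of_nonneg_left hbr (by positivity)
    _ = (D4 ^ 2 * DJ * k ^ (3 * K + 3) * ((k ^ e) ^ 2 * (k ^ (K + 1)) ^ e)) *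
      (c ^ e) ^ 3 * ((R * l) * l * (1 + U ^ ((3 : ℝ) / 2) / pr)) := by ring
    _ = _ := by rw [hRUl]

theorem energy {K : ℕ} {T : Finset (Gi × Gi × Gi)} (hT : Cell K T) {s : Gi × Gi × Gi}
    (hs : s ∈ T) {j r : Fin 3} (hjr : j ≠ r) (F : Finset (Fin (K + 1))) {f : Gi} {D4 DJ e : ℝ}
    (hD4 : 0 ≤ D4) (hDJ : 0 ≤ DJ)
    (h4 : ∀ X : ℕ, 1 ≤ X → ∀ R : ℝ, 0 ≤ R → ∀ P : Finset Gi,
      (∀ d ∈ P, d ≠ 0 ∧ nm d ≤ X ∧ (rad d : ℝ) ≤ R) → (P.card : ℝ) ≤ D4 * (X : ℝ) ^ e * R)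
    (hJ : JBody K DJ e) (hf : ∃ t ∈ T, ptg K (num t r) F = f)
    (Q : Finset (Gi × Gi))
    (hQ : ∀ x ∈ Q, qm f x.1 = qm f x.2 ∧
      (∃ t ∈ T, ptg K (num t r) F = f ∧ num t j = x.1) ∧
      (∃ t ∈ T, ptg K (num t r) F = f ∧ num t j = x.2)) :
    (Q.card : ℝ) ≤ (D4 ^ 2 * DJ * ((2 : ℝ) ^ (K + 1)) ^ (3 * K + 3) *
      ((((2 : ℝ) ^ (K + 1)) ^ e) ^ 2 * (((2 : ℝ) ^ (K + 1)) ^ (K + 1)) ^ e)) *
      (nm s.2.2 : ℝ) ^ (3 * e) * side K s r j F := by
  classical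
  obtain ⟨t0, ht0, hft0⟩ := hf
  have hk : (1 : ℝ) ≤ (2 : ℝ) ^ (K + 1) := one_le_pow₀ (by norm_num)
  have hkN : 1 ≤ 2 ^ (K + 1) := Nat.one_le_two_pow
  have hf0 : f ≠ 0 := hft0 ▸ ptg_ne _ _
  have hf1 : 1 ≤ nm f := nm_pos hf0
  obtain ⟨c, hc⟩ : ∃ c, c = nm s.2.2 := ⟨_, rfl⟩
  rw [← hc]
  have hc1 : 1 ≤ c := by rw [hc]; exact nm_pos (hT.abc s hs).n2
  have hX1 : 1 ≤ 2 ^ (K + 1) * c := Nat.mul_pos hkN hc1
  have hleX : ∀ t ∈ T, ∀ j, nm (num t j) ≤ 2 ^ (K + 1) * c := fun t ht j => by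
    rw [hc]; exact num_le_X hT ht hs j
  have hfX : nm f ≤ 2 ^ (K + 1) * c := by
    have h1 := pt_le (num_ne (hT.abc t0 ht0) r) F
    unfold pt at h1
    rw [hft0] at h1
    exact h1.trans (hleX t0 ht0 r)
  set kap : ℕ := 2 ^ (K + 1) with hkap
  set X2 : ℕ := kap ^ (K + 1) * c with hX2
  have hX12 : kap * c ≤ X2 := by
    rw [hX2]
    apply Nat.mul_le_mul_right
    calc kap = kap ^ 1 := (pow_one _).symm
      _ ≤ kap ^ (K + 1) := Nat.pow_le_pow_right hkN (by omega)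
  set N : Fin K → ℕ := fun i => kap * rd K (num s j) {i.castSucc} with hN
  have hN1 : ∀ i, 1 ≤ N i := fun i => Nat.mul_pos hkN (rd_pos _ _)
  set R' : ℕ := ∏ i : Fin K, rd K (num s j) {i.castSucc} with hR'
  have hsj0 : num s j ≠ 0 := num_ne (hT.abc s hs) j
  have hprodN : ∏ i, N i = kap ^ K * R' := by
    rw [hN, prod_mul_distrib, prod_const, card_univ, Fintype.card_fin]
  have hRU : R' * rd K (num s j) {Fin.last K} = rd K (num s j) univ := rd_split _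
  have hR1 : 1 ≤ R' := Nat.pos_of_ne_zero (by
    intro h
    rw [h, zero_mul] at hRU
    have := rd_pos (K := K) (num s j) univ
    omega)
  have hl1 : 1 ≤ rd K (num s j) {Fin.last K} := rd_pos _ _
  have hU1 : 1 ≤ rd K (num s j) univ := rd_pos _ _
  have hRU' : R' ≤ rd K (num s j) univ := by rw [← hRU]; exact Nat.le_mul_of_pos_right _ hl1
  have hprodX : ∏ i, N i ≤ X2 := by
    rw [hprodN, hX2]
    apply Nat.mul_le_mul (Nat.pow_le_pow_right hkN (by omega))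
    calc R' ≤ rd K (num s j) univ := hRU'
      _ ≤ nm (num s j) := rd_le hsj0 _
      _ ≤ c := by rw [hc]; exact num_le (hT.abc s hs) j
  set l : ℝ := (rd K (num s j) {Fin.last K} : ℝ) with hl
  set U : ℝ := (rd K (num s j) univ : ℝ) with hU
  set pr : ℝ := (pt K (num s r) F : ℝ) with hpr
  have hpr1 : 1 ≤ pr := by rw [hpr]; exact_mod_cast pt_pos (K := K) _ F
  have hprf : pr ≤ 2 ^ (K + 1) * nm f := by
    rw [hpr, ← hft0]
    exact_mod_cast hT.pt_le s hs t0 ht0 r F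
  have hfR : (1 : ℝ) ≤ nm f := by exact_mod_cast hf1
  -- facts on members
  have hmem : ∀ n : Gi, (∃ t ∈ T, ptg K (num t r) F = f ∧ num t j = n) →
      n ≠ 0 ∧ IsCoprime n f ∧ (cl K n ≠ 0 ∧ nm (cl K n) ≤ kap * c ∧
        (rad (cl K n) : ℝ) ≤ 2 ^ (K + 1) * l) ∧
      (∀ i : Fin K, rdg K n {i.castSucc} ≠ 0 ∧ nm (rdg K n {i.castSucc}) ≤ N i ∧
        IsCoprime (rdg K n {i.castSucc}) f) ∧ IsCoprime (cl K n) f := by
    rintro n ⟨t, ht, htf, rfl⟩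
    have hn := num_ne (hT.abc t ht) j
    have hco : IsCoprime (num t j) f := by
      have g1 := ptg_dvd (K := K) (num_ne (hT.abc t ht) r) F
      rw [htf] at g1
      exact (num_coprime (hT.abc t ht) hjr).of_isCoprime_of_dvd_right g1
    refine ⟨hn, hco, ⟨cl_ne _ _, (nm_le_of_dvd hn (cl_dvd K hn)).trans (hleX t ht j), ?_⟩, ?_, ?_⟩
    · rw [rad_cl, hl]
      exact_mod_cast hT.rd_le t ht s hs j {Fin.last K}
    · intro i
      have h7 := hT.rd_le t ht s hs j {i.castSucc}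
      have h8 : nm (rdg K (num t j) {i.castSucc}) ≤ N i := by
        rw [hN]
        exact h7
      have h9 : rdg K (num t j) {i.castSucc} ∣ num t j := rdg_dvd hn {i.castSucc}
      exact ⟨rdg_ne (num t j) {i.castSucc}, h8, hco.of_isCoprime_of_dvd_left h9⟩
    · exact hco.of_isCoprime_of_dvd_left (cl_dvd K hn)
  set W : ℝ := DJ * (X2 : ℝ) ^ e *
      ((∏ i, (N i : ℝ)) * (1 + (∏ i, (N i : ℝ)) ^ ((3 : ℝ) / 2) / nm f)) with hW
  have hPN : (0 : ℝ) ≤ ∏ i, (N i : ℝ) := Finset.prod_nonneg fun i _ => Nat.cast_nonneg _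
  have hW0 : 0 ≤ W := by
    rw [hW]
    exact mul_nonneg (mul_nonneg hDJ (Real.rpow_nonneg (Nat.cast_nonneg _) _)) (mul_nonneg hPN
      (add_nonneg zero_le_one (div_nonneg (Real.rpow_nonneg hPN _) (Nat.cast_nonneg _))))
  set Y1 : Finset Gi := Q.image fun x => cl K x.1 with hY1
  set Y2 : Finset Gi := Q.image fun x => cl K x.2 with hY2
  have hYcard1 : (Y1.card : ℝ) ≤ D4 * ((kap * c : ℕ) : ℝ) ^ e * (2 ^ (K + 1) * l) := by
    apply h4 _ hX1 _ (by positivity)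
    intro d hd
    obtain ⟨x, hx, rfl⟩ := mem_image.1 hd
    exact (hmem _ (hQ x hx).2.1).2.2.1
  have hYcard2 : (Y2.card : ℝ) ≤ D4 * ((kap * c : ℕ) : ℝ) ^ e * (2 ^ (K + 1) * l) := by
    apply h4 _ hX1 _ (by positivity)
    intro d hd
    obtain ⟨x, hx, rfl⟩ := mem_image.1 hd
    exact (hmem _ (hQ x hx).2.2).2.2.1
  have hfib : ∀ z ∈ Y1 ×ˢ Y2, ((Q.filter fun x => (cl K x.1, cl K x.2) = z).card : ℝ) ≤ W := by
    intro z _
    set Qz := Q.filter fun x => (cl K x.1, cl K x.2) = z with hQz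
    rcases Qz.eq_empty_or_nonempty with h0 | ⟨x0, hx0⟩
    · rw [h0]; simpa using hW0
    have hQzm : ∀ x ∈ Qz, x ∈ Q ∧ cl K x.1 = z.1 ∧ cl K x.2 = z.2 := by
      intro x hx
      rw [hQz, mem_filter] at hx
      exact ⟨hx.1, congrArg Prod.fst hx.2, congrArg Prod.snd hx.2⟩
    obtain ⟨hx0Q, hx01, hx02⟩ := hQzm x0 hx0
    have hz1 : IsCoprime z.1 f := by
      rw [← hx01]; exact (hmem _ (hQ x0 hx0Q).2.1).2.2.2.2
    have hz2 : IsCoprime z.2 f := by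
      rw [← hx02]; exact (hmem _ (hQ x0 hx0Q).2.2).2.2.2.2
    set G : Gi × Gi → (Fin K → Gi) × (Fin K → Gi) :=
      fun x => (fun i => rdg K x.1 {i.castSucc}, fun i => rdg K x.2 {i.castSucc}) with hG
    have hinj : Set.InjOn G Qz := by
      intro x hx x' hx' hxx
      obtain ⟨hxQ, hx1, hx2⟩ := hQzm x hx
      obtain ⟨hxQ', hx1', hx2'⟩ := hQzm x' hx'
      have e1 := congrArg Prod.fst hxx
      have e2 := congrArg Prod.snd hxx
      simp only [hG] at e1 e2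
      apply Prod.ext
      · rw [fact (K := K) (hmem _ (hQ x hxQ).2.1).1, fact (K := K) (hmem _ (hQ x' hxQ').2.1).1]
        change _ * cl K x.1 = _ * cl K x'.1
        rw [hx1, hx1']
        congr 1
        apply prod_congr rfl
        intro i _
        rw [congrFun e1 i]
      · rw [fact (K := K) (hmem _ (hQ x hxQ).2.2).1, fact (K := K) (hmem _ (hQ x' hxQ').2.2).1]
        change _ * cl K x.2 = _ * cl K x'.2
        rw [hx2, hx2']
        congr 1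
        apply prod_congr rfl
        intro i _
        rw [congrFun e2 i]
    rw [← card_image_of_injOn hinj]
    obtain ⟨u, hu⟩ := qm_isUnit hz1
    obtain ⟨u', hu'⟩ := qm_isUnit hz2
    apply hJ X2 f hf0 (hfX.trans hX12) N hN1 hprodX
      ((u' : Rs f) * ((u⁻¹ : (Rs f)ˣ) : Rs f)) (u'.isUnit.mul (u⁻¹).isUnit)
    intro y hy
    obtain ⟨x, hx, rfl⟩ := mem_image.1 hy
    obtain ⟨hxQ, hx1, hx2⟩ := hQzm x hx
    obtain ⟨hcong, hm1, hm2⟩ := hQ x hxQ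
    obtain ⟨hp1, -, -, hr1, -⟩ := hmem _ hm1
    obtain ⟨hp2, -, -, hr2, -⟩ := hmem _ hm2
    refine ⟨hr1, hr2, ?_⟩
    have g1 : qm f x.1 = (∏ i : Fin K, qm f (rdg K x.1 {i.castSucc}) ^ ((i : ℕ) + 1)) *
        qm f (cl K x.1) := by
      conv_lhs => rw [fact (K := K) hp1]
      rw [map_mul, map_prod]
      simp only [map_pow]
      rfl
    have g2 : qm f x.2 = (∏ i : Fin K, qm f (rdg K x.2 {i.castSucc}) ^ ((i : ℕ) + 1)) *
        qm f (cl K x.2) := by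
      conv_lhs => rw [fact (K := K) hp2]
      rw [map_mul, map_prod]
      simp only [map_pow]
      rfl
    rw [g1, g2, hx1, hx2, ← hu, ← hu'] at hcong
    change ∏ i : Fin K, qm f (rdg K x.1 {i.castSucc}) ^ ((i : ℕ) + 1) =
      (u' : Rs f) * ((u⁻¹ : (Rs f)ˣ) : Rs f) *
        ∏ i : Fin K, qm f (rdg K x.2 {i.castSucc}) ^ ((i : ℕ) + 1)
    have h7 : (u : Rs f) * ((u⁻¹ : (Rs f)ˣ) : Rs f) = 1 := Units.mul_inv u
    calc ∏ i : Fin K, qm f (rdg K x.1 {i.castSucc}) ^ ((i : ℕ) + 1)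
        = (∏ i : Fin K, qm f (rdg K x.1 {i.castSucc}) ^ ((i : ℕ) + 1)) * (u : Rs f) *
            ((u⁻¹ : (Rs f)ˣ) : Rs f) := by rw [mul_assoc, h7, mul_one]
      _ = _ := by rw [hcong]; ring
  have hsum : Q.card = ∑ z ∈ Y1 ×ˢ Y2,
      (Q.filter fun x => (cl K x.1, cl K x.2) = z).card := by
    apply card_eq_sum_card_fiberwise
    intro x hx
    rw [mem_coe] at hx ⊢
    rw [mem_product]
    exact ⟨mem_image_of_mem _ hx, mem_image_of_mem _ hx⟩
  set Yb : ℝ := D4 * ((kap * c : ℕ) : ℝ) ^ e * (2 ^ (K + 1) * l) with hYb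
  have hYb0 : 0 ≤ Yb := by positivity
  have hcard : (Q.card : ℝ) ≤ Yb ^ 2 * W := by
    rw [hsum]
    push_cast
    calc _ ≤ ∑ _z ∈ Y1 ×ˢ Y2, W := sum_le_sum hfib
      _ = ((Y1.card : ℝ) * Y2.card) * W := by
        rw [sum_const, card_product, nsmul_eq_mul]; push_cast; ring
      _ ≤ Yb ^ 2 * W := by
        apply mul_le_mul_of_nonneg_right _ hW0
        rw [sq]
        exact mul_le_mul hYcard1 hYcard2 (Nat.cast_nonneg _) hYb0
  have hkR : ((kap : ℕ) : ℝ) = (2 : ℝ) ^ (K + 1) := by rw [hkap]; push_cast; rfl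
  have hprodNR : (∏ i, (N i : ℝ)) = ((2 : ℝ) ^ (K + 1)) ^ K * R' := by
    have h9 : ((∏ i, N i : ℕ) : ℝ) = ((kap ^ K * R' : ℕ) : ℝ) := by rw [hprodN]
    rw [Nat.cast_prod, Nat.cast_mul, Nat.cast_pow, hkR] at h9
    exact h9
  have hXe1 : ((kap * c : ℕ) : ℝ) = (2 : ℝ) ^ (K + 1) * c := by
    rw [Nat.cast_mul, hkR]
  have hXe2 : (X2 : ℝ) = ((2 : ℝ) ^ (K + 1)) ^ (K + 1) * c := by
    rw [hX2, Nat.cast_mul, Nat.cast_pow, hkR]
  have hcR : (0 : ℝ) < c := by exact_mod_cast hc1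
  have hRr1 : (0 : ℝ) ≤ (R' : ℝ) := Nat.cast_nonneg _
  have hRUr : (R' : ℝ) ≤ U := by rw [hU]; exact_mod_cast hRU'
  have hRUl : (R' : ℝ) * l = U := by rw [hl, hU]; exact_mod_cast hRU
  have hfin := numeric K hk hcR hRr1 hRUr hRUl hpr1 hprf hfR hDJ (D4 := D4) (e := e)
  refine hcard.trans (le_trans (le_of_eq ?_) hfin)
  rw [hYb, hW, hprodNR, hXe1, hXe2]

end Est

/-- EST: fix the part `F` of side `r`, Cauchy-Schwarz over residue classes for the two others -/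
def StmtEst : Prop :=
  ∀ K : ℕ, ∀ ε : ℝ, 0 < ε → ∃ D : ℝ, 0 < D ∧ ∀ T : Finset (Gi × Gi × Gi), Cell K T → ∀ s ∈ T,
    ∀ p q r : Fin 3, p ≠ q → q ≠ r → p ≠ r → ∀ F : Finset (Fin (K + 1)),
    (T.card : ℝ) ≤ D * (nm s.2.2 : ℝ) ^ ε * (rd K (num s r) F : ℝ) *
      (side K s r p F * side K s r q F) ^ ((1 : ℝ) / 2)

/-- Module EST -/
theorem stmtEst : StmtEst := by
  classical
  intro K ε hε
  obtain ⟨D4, hD4, h4⟩ := stmtA4 (ε / 4) (by linarith)
  obtain ⟨DJ, hDJ, hJ'⟩ := stmtJ K (ε / 4) (by linarith)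
  set e := ε / 4 with he
  have hJB : Est.JBody K DJ e := hJ'
  set k : ℝ := (2 : ℝ) ^ (K + 1) with hk
  have hk1 : 1 ≤ k := one_le_pow₀ (by norm_num)
  set M : ℝ := D4 ^ 2 * DJ * k ^ (3 * K + 3) * ((k ^ e) ^ 2 * (k ^ (K + 1)) ^ e) with hM
  have hM0 : 0 < M := by rw [hM]; positivity
  refine ⟨D4 * k ^ e * k * M, by positivity, ?_⟩
  intro T hT s hs p q r hpq hqr hpr F
  have hs0 : (0 : ℝ) < nm s.2.2 := by exact_mod_cast nm_pos (hT.abc s hs).n2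
  have hX1 : 1 ≤ 2 ^ (K + 1) * nm s.2.2 :=
    (nm_pos (num_ne (hT.abc s hs) r)).trans_le (num_le_X hT hs hs r)
  set V : ℝ := (side K s r p F * side K s r q F) ^ ((1 : ℝ) / 2) with hV
  have hV0 : 0 ≤ V := Real.rpow_nonneg (mul_nonneg (side_nonneg _ _ _ _ _) (side_nonneg _ _ _ _ _)) _
  set I := T.image fun t => ptg K (num t r) F with hI
  have hIcard : (I.card : ℝ) ≤
      D4 * ((2 ^ (K + 1) * nm s.2.2 : ℕ) : ℝ) ^ e * (k * (rd K (num s r) F : ℝ)) := by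
    apply h4 _ hX1 _ (by positivity)
    intro m hm
    obtain ⟨t, ht, rfl⟩ := mem_image.1 hm
    refine ⟨ptg_ne _ _, (pt_le (num_ne (hT.abc t ht) r) F).trans (num_le_X hT ht hs r), ?_⟩
    rw [rad_ptg, hk]
    exact_mod_cast hT.rd_le t ht s hs r F
  have hfib : ∀ f ∈ I, ((T.filter fun t => ptg K (num t r) F = f).card : ℝ) ≤
      M * (nm s.2.2 : ℝ) ^ (3 * e) * V := by
    intro f hf
    obtain ⟨t0, ht0, htf0⟩ := mem_image.1 hf
    set T' := T.filter fun t => ptg K (num t r) F = f with hT'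
    have hTmem : ∀ t ∈ T', t ∈ T ∧ ptg K (num t r) F = f := by
      intro t ht
      rw [hT', mem_filter] at ht
      exact ht
    set P := T'.image fun t => num t p with hP
    set Q := T'.image fun t => num t q with hQd
    set κP : Gi → Rs f := fun n => qm f (-n) with hκP
    set κQ : Gi → Rs f := fun m => qm f m with hκQ
    have hcard : T'.card ≤ ((P ×ˢ Q).filter fun t => κP t.1 = κQ t.2).card := by
      have h1 : (T'.image fun t => (num t p, num t q)).card = T'.card := by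
        apply card_image_of_injOn
        intro t ht t' ht' htt
        simp only [Prod.mk.injEq] at htt
        exact num_inj (hT.abc t (hTmem t ht).1) (hT.abc t' (hTmem t' ht').1) hpq htt.1 htt.2
      rw [← h1]
      apply card_le_card
      intro x hx
      obtain ⟨t, ht, rfl⟩ := mem_image.1 hx
      obtain ⟨htT, htf⟩ := hTmem t ht
      rw [mem_filter, mem_product]
      refine ⟨⟨mem_image_of_mem _ ht, mem_image_of_mem _ ht⟩, ?_⟩
      change qm f (-(num t p)) = qm f (num t q)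
      rw [qm_eq]
      have h2 : f ∣ num t r := htf ▸ ptg_dvd (num_ne (hT.abc t htT) r) F
      obtain ⟨z, hz⟩ := h2
      have h3 := num_sum (hT.abc t htT) hpq hqr hpr
      exact ⟨z, by linear_combination hz - h3⟩
    have hEP : ((((P ×ˢ P).filter fun t => κP t.1 = κP t.2).card : ℕ) : ℝ) ≤
        M * (nm s.2.2 : ℝ) ^ (3 * e) * side K s r p F := by
      apply Est.energy hT hs hpr F hD4.le hDJ.le h4 hJB ⟨t0, ht0, htf0⟩
      intro x hx
      rw [mem_filter, mem_product] at hx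
      obtain ⟨⟨hx1, hx2⟩, hx4⟩ := hx
      obtain ⟨t, ht, htx⟩ := mem_image.1 hx1
      obtain ⟨t', ht', htx'⟩ := mem_image.1 hx2
      obtain ⟨htT, htf⟩ := hTmem t ht
      obtain ⟨htT', htf'⟩ := hTmem t' ht'
      refine ⟨?_, ⟨t, htT, htf, htx⟩, ⟨t', htT', htf', htx'⟩⟩
      have h1 : qm f (-x.1) = qm f (-x.2) := hx4
      rw [map_neg, map_neg] at h1
      exact neg_injective h1
    have hEQ : ((((Q ×ˢ Q).filter fun t => κQ t.1 = κQ t.2).card : ℕ) : ℝ) ≤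
        M * (nm s.2.2 : ℝ) ^ (3 * e) * side K s r q F := by
      apply Est.energy hT hs hqr F hD4.le hDJ.le h4 hJB ⟨t0, ht0, htf0⟩
      intro x hx
      rw [mem_filter, mem_product] at hx
      obtain ⟨⟨hx1, hx2⟩, hx4⟩ := hx
      obtain ⟨t, ht, htx⟩ := mem_image.1 hx1
      obtain ⟨t', ht', htx'⟩ := mem_image.1 hx2
      obtain ⟨htT, htf⟩ := hTmem t ht
      obtain ⟨htT', htf'⟩ := hTmem t' ht'
      exact ⟨hx4, ⟨t, htT, htf, htx⟩, ⟨t', htT', htf', htx'⟩⟩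
    have hcs := Est.cs P Q κP κQ
    set A : ℝ := M * (nm s.2.2 : ℝ) ^ (3 * e) with hA
    have hA0 : 0 ≤ A := by rw [hA]; positivity
    have hT'sq : (T'.card : ℝ) ^ 2 ≤ (A * V) ^ 2 := by
      have h1 : (T'.card : ℝ) ^ 2 ≤ (((P ×ˢ Q).filter fun t => κP t.1 = κQ t.2).card : ℝ) ^ 2 := by
        apply pow_le_pow_left₀ (Nat.cast_nonneg _)
        exact_mod_cast hcard
      have h2 : (A * side K s r p F) * (A * side K s r q F) = (A * V) ^ 2 := by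
        have h3 : V ^ 2 = side K s r p F * side K s r q F := by
          rw [hV, ← Real.rpow_natCast,
            ← Real.rpow_mul (mul_nonneg (side_nonneg _ _ _ _ _) (side_nonneg _ _ _ _ _))]
          norm_num
        rw [mul_pow, h3]; ring
      calc _ ≤ _ := h1
        _ ≤ _ := hcs
        _ ≤ (A * side K s r p F) * (A * side K s r q F) :=
            mul_le_mul hEP hEQ (Nat.cast_nonneg _) (mul_nonneg hA0 (side_nonneg _ _ _ _ _))
        _ = _ := h2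
    exact le_of_pow_le_pow_left₀ two_ne_zero (mul_nonneg hA0 hV0) hT'sq
  have hsum : T.card = ∑ f ∈ I, (T.filter fun t => ptg K (num t r) F = f).card :=
    card_eq_sum_card_image _ T
  have hXe : ((2 ^ (K + 1) * nm s.2.2 : ℕ) : ℝ) ^ e = k ^ e * (nm s.2.2 : ℝ) ^ e := by
    push_cast
    rw [Real.mul_rpow (by positivity) hs0.le]
  have hce : (nm s.2.2 : ℝ) ^ e * (nm s.2.2 : ℝ) ^ (3 * e) = (nm s.2.2 : ℝ) ^ ε := by
    rw [← Real.rpow_add hs0]
    congr 1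
    rw [he]; ring
  calc (T.card : ℝ) = ∑ f ∈ I, ((T.filter fun t => ptg K (num t r) F = f).card : ℝ) := by
        rw [hsum]; push_cast; rfl
    _ ≤ ∑ _f ∈ I, M * (nm s.2.2 : ℝ) ^ (3 * e) * V := sum_le_sum hfib
    _ = (I.card : ℝ) * (M * (nm s.2.2 : ℝ) ^ (3 * e) * V) := by rw [sum_const, nsmul_eq_mul]
    _ ≤ (D4 * ((2 ^ (K + 1) * nm s.2.2 : ℕ) : ℝ) ^ e * (k * (rd K (num s r) F : ℝ))) *
        (M * (nm s.2.2 : ℝ) ^ (3 * e) * V) :=
        mul_le_mul_of_nonneg_right hIcard (by positivity)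
    _ = D4 * k ^ e * k * M * ((nm s.2.2 : ℝ) ^ e * (nm s.2.2 : ℝ) ^ (3 * e)) *
        (rd K (num s r) F : ℝ) * V := by rw [hXe]; ring
    _ = _ := by rw [hce]

end Pool.Agent.W17.AB
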