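import Mathlib
import Pool.Agent.W17.AB.Mcell
import Pool.Agent.W17.AB.Est
import Pool.Agent.W17.AB.Dc
import Pool.Agent.H705R2.ABC.Num
import Pool.Agent.H705R2.ABC2.Cells
import Pool.Agent.H705R2.ABC3.Cert3

/-!
# abc over the Gaussian integers: the bound for cells
-/

namespace Pool.Agent.W17.AB

open Finset
open Pool.Agent.H785R2.ABC (cls Good Poly cost thn)
open Pool.Agent.H785R2.ABC.Bridge (rpow_log_div)
open Pool.Agent.H705R2.ABC2 (Fail lift lift_univ cost_eq_of)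

noncomputable local instance instDecCl : DecidableEq Gi := Classical.decEq _

theorem two_le_c {s : Gi × Gi × Gi} (h : Trp s) : 2 ≤ nm s.2.2 := by
  have h2 := nm_pos h.n2
  have h1 := nm_pos h.n1
  have h0 := nm_pos h.n0
  have l1 := h.l01
  have l2 := h.l12
  by_contra hc
  have e2 : nm s.2.2 = 1 := by omega
  have e1 : nm s.2.1 = 1 := by omega
  have e0 : nm s.1 = 1 := by omega
  have f2 := nm_val s.2.2
  have f1 := nm_val s.2.1
  have f0 := nm_val s.1
  rw [e2] at f2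
  rw [e1] at f1
  rw [e0] at f0
  have hs := h.sum
  have g1 : s.1.re + s.2.1.re + s.2.2.re = 0 := by
    have := congrArg Zsqrtd.re hs
    simpa using this
  have g2 : s.1.im + s.2.1.im + s.2.2.im = 0 := by
    have := congrArg Zsqrtd.im hs
    simpa using this
  have key : ∀ a b : ℤ, ((1 : ℕ) : ℤ) = a ^ 2 + b ^ 2 → ¬ Even (a + b) := by
    intro a b hab he
    have h1 : Even (a ^ 2 + b ^ 2) := by
      rw [Int.even_add, Int.even_pow' two_ne_zero, Int.even_pow' two_ne_zero, ← Int.even_add]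
      exact he
    rw [← hab] at h1
    revert h1
    decide
  have k2 := key _ _ f2
  have k1 := key _ _ f1
  have k0 := key _ _ f0
  rw [Int.not_even_iff_odd] at k2 k1 k0
  have := (k0.add_odd k1).add_odd k2
  have e : s.1.re + s.1.im + (s.2.1.re + s.2.1.im) + (s.2.2.re + s.2.2.im) = 0 := by linarith
  rw [e] at this
  revert this
  decide

/-- exponent of `rd` of a triple -/
noncomputable def expV (K : ℕ) (s : Gi × Gi × Gi) (j : Fin 3) (i : Fin (K + 1)) : ℝ :=
  Real.log (rd K (num s j) {i}) / Real.log (nm s.2.2)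

/-- exponent of `pt` of a triple -/
noncomputable def expW (K : ℕ) (s : Gi × Gi × Gi) (j : Fin 3) (i : Fin (K + 1)) : ℝ :=
  Real.log (pt K (num s j) {i}) / Real.log (nm s.2.2)

theorem rd_eq (K : ℕ) {s : Gi × Gi × Gi} (h : Trp s) (j : Fin 3) (S : Finset (Fin (K + 1))) :
    (rd K (num s j) S : ℝ) = (nm s.2.2 : ℝ) ^ cost (expV K s) j S := by
  have hc : (2 : ℝ) ≤ nm s.2.2 := by exact_mod_cast two_le_c h
  rw [cost, Real.rpow_sum_of_pos (by linarith), rd_prod (num s j) S, Nat.cast_prod]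
  refine Finset.prod_congr rfl fun i _ => ?_
  rw [expV, rpow_log_div (by linarith)]
  exact_mod_cast rd_pos (num s j) {i}

theorem pt_eq (K : ℕ) {s : Gi × Gi × Gi} (h : Trp s) (j : Fin 3) (S : Finset (Fin (K + 1))) :
    (pt K (num s j) S : ℝ) = (nm s.2.2 : ℝ) ^ cost (expW K s) j S := by
  have hc : (2 : ℝ) ≤ nm s.2.2 := by exact_mod_cast two_le_c h
  rw [cost, Real.rpow_sum_of_pos (by linarith), pt_prod (num s j) S, Nat.cast_prod]
  refine Finset.prod_congr rfl fun i _ => ?_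
  rw [expW, rpow_log_div (by linarith)]
  exact_mod_cast pt_pos (num s j) {i}

theorem num_eq (K : ℕ) {s : Gi × Gi × Gi} (h : Trp s) (j : Fin 3) :
    (nm (num s j) : ℝ) = (nm s.2.2 : ℝ) ^ cost (expW K s) j univ := by
  rw [← pt_eq K h j univ, pt_univ (num_ne h j)]

theorem th_eq (K : ℕ) {s : Gi × Gi × Gi} (h : Trp s) (r : Fin 3) :
    th s r = (nm s.2.2 : ℝ) ^ (-thn (expW K s) r) := by
  have hc : (2 : ℝ) ≤ nm s.2.2 := by exact_mod_cast two_le_c h
  unfold th thn
  split_ifs with hr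
  · have := num_eq K h 0
    rw [show num s 0 = s.1 from rfl] at this
    rw [neg_sub, Real.rpow_sub (by linarith), Real.rpow_one, ← this]
  · simp

theorem cost_expV (K : ℕ) (s : Gi × Gi × Gi) (j : Fin 3) :
    cost (expV K s) j univ = Real.log (rad (num s j)) / Real.log (nm s.2.2) := by
  unfold cost expV
  rw [← Finset.sum_div]
  congr 1
  rw [← rd_univ (K := K) (num s j), rd_prod (num s j) univ]
  push_cast
  rw [Real.log_prod]
  intro i _
  have := rd_pos (num s j) ({i} : Finset (Fin (K + 1)))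
  positivity

theorem cost_expW (K : ℕ) (s : Gi × Gi × Gi) (j : Fin 3) (hj : num s j ≠ 0) :
    cost (expW K s) j univ = Real.log (nm (num s j)) / Real.log (nm s.2.2) := by
  unfold cost expW
  rw [← Finset.sum_div]
  congr 1
  conv_rhs => rw [← pt_univ (K := K) hj, pt_prod (num s j) univ]
  push_cast
  rw [Real.log_prod]
  intro i _
  have := pt_pos (num s j) ({i} : Finset (Fin (K + 1)))
  positivity

theorem poly_of (K : ℕ) (lam : ℝ) {s : Gi × Gi × Gi} (h : Trp s)
    (hrad : (rad s.1 : ℝ) * rad s.2.1 * rad s.2.2 ≤ (nm s.2.2 : ℝ) ^ lam) :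
    Poly K lam (Real.log 4 / Real.log (nm s.2.2)) (expV K s) (expW K s) := by
  have hc2 : (2 : ℝ) ≤ nm s.2.2 := by exact_mod_cast two_le_c h
  have hL : 0 < Real.log (nm s.2.2) := Real.log_pos (by linarith)
  have haR : (0 : ℝ) < nm s.1 := by exact_mod_cast nm_pos h.n0
  have hbR : (0 : ℝ) < nm s.2.1 := by exact_mod_cast nm_pos h.n1
  have hcR : (0 : ℝ) < nm s.2.2 := by linarith
  have n0 : num s 0 = s.1 := by simp [num]
  have n1 : num s 1 = s.2.1 := by simp [num]
  have n2 : num s 2 = s.2.2 := by simp [num]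
  have c0 := cost_expW K s 0 (by rw [n0]; exact h.n0)
  have c1 := cost_expW K s 1 (by rw [n1]; exact h.n1)
  have c2 := cost_expW K s 2 (by rw [n2]; exact h.n2)
  rw [n0] at c0
  rw [n1] at c1
  rw [n2] at c2
  have c2' : cost (expW K s) 2 univ = 1 := by rw [c2]; exact div_self hL.ne'
  refine ⟨?_, ?_, ?_, ?_, ?_, ?_, ?_, ?_, ?_⟩
  · intro j i
    unfold expV
    apply div_nonneg _ hL.le
    apply Real.log_nonneg
    exact_mod_cast rd_pos _ _
  · intro j i hi
    unfold expV expW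
    rw [pt_single _ i hi]
    push_cast
    rw [Real.log_pow]
    push_cast
    ring
  · intro j
    unfold expV expW
    rw [← mul_div_assoc]
    apply div_le_div_of_nonneg_right _ hL.le
    have h1 := pt_last K (num s j)
    have h2 := rd_pos (num s j) ({Fin.last K} : Finset (Fin (K + 1)))
    have h3 : ((rd K (num s j) {Fin.last K} : ℕ) : ℝ) ^ (K + 1) ≤
        (pt K (num s j) {Fin.last K} : ℕ) := by exact_mod_cast h1
    have h4 := Real.log_le_log (by positivity) h3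
    rw [Real.log_pow] at h4
    push_cast at h4
    exact h4
  · rw [c0, div_le_one hL]
    exact Real.log_le_log haR (by exact_mod_cast h.l01.trans h.l12)
  · rw [c1, div_le_one hL]
    exact Real.log_le_log hbR (by exact_mod_cast h.l12)
  · rw [c1]
    have h1 : Real.log (nm s.2.2) ≤ Real.log 4 + Real.log (nm s.2.1) := by
      rw [← Real.log_mul (by norm_num) hbR.ne']
      exact Real.log_le_log hcR h.nm_le
    rw [sub_le_iff_le_add, ← add_div, le_div_iff₀ hL]
    linarith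
  · rw [c2']
  · rw [c2']
    have : 0 ≤ Real.log 4 / Real.log (nm s.2.2) :=
      div_nonneg (Real.log_nonneg (by norm_num)) hL.le
    linarith
  · rw [cost_expV, cost_expV, cost_expV, n0, n1, n2]
    rw [← add_div, ← add_div, div_le_iff₀ hL]
    have ra := rad_pos s.1
    have rb := rad_pos s.2.1
    have rc := rad_pos s.2.2
    have raR : (0 : ℝ) < rad s.1 := by exact_mod_cast ra
    have rbR : (0 : ℝ) < rad s.2.1 := by exact_mod_cast rb
    have rcR : (0 : ℝ) < rad s.2.2 := by exact_mod_cast rc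
    rw [← Real.log_mul raR.ne' rbR.ne', ← Real.log_mul (mul_ne_zero raR.ne' rbR.ne') rcR.ne',
      ← Real.log_rpow hcR]
    exact Real.log_le_log (by positivity) hrad

/-- one side of the bound `EST` -/
theorem side_le (K : ℕ) {s : Gi × Gi × Gi} (h : Trp s)
    (r j : Fin 3) (F : Finset (Fin (K + 1))) :
    side K s r j F ≤ 2 * (nm s.2.2 : ℝ) ^ (cost (expV K s) j univ + expV K s j (Fin.last K) +
      max 0 (3 / 2 * cost (expV K s) j univ - cost (expW K s) r F)) := by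
  have hc2 : (2 : ℝ) ≤ nm s.2.2 := by exact_mod_cast two_le_c h
  have hc : (0 : ℝ) < nm s.2.2 := by linarith
  have hc1 : (1 : ℝ) ≤ nm s.2.2 := by linarith
  have h1 : (rd K (num s j) {Fin.last K} : ℝ) = (nm s.2.2 : ℝ) ^ expV K s j (Fin.last K) := by
    rw [rd_eq K h]
    simp [cost]
  unfold side
  rw [h1, rd_eq K h j univ, pt_eq K h r F, ← Real.rpow_mul hc.le, ← Real.rpow_sub hc,
    Real.rpow_add hc, Real.rpow_add hc]
  have e1 : (nm s.2.2 : ℝ) ^ (cost (expV K s) j univ * (3 / 2) - cost (expW K s) r F) ≤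
      (nm s.2.2 : ℝ) ^ (max 0 (3 / 2 * cost (expV K s) j univ - cost (expW K s) r F)) := by
    apply Real.rpow_le_rpow_of_exponent_le hc1
    rw [mul_comm]
    exact le_max_right _ _
  have e2 : (1 : ℝ) ≤
      (nm s.2.2 : ℝ) ^ (max 0 (3 / 2 * cost (expV K s) j univ - cost (expW K s) r F)) :=
    Real.one_le_rpow hc1 (le_max_left _ _)
  have e3 : 0 ≤ (nm s.2.2 : ℝ) ^ cost (expV K s) j univ * (nm s.2.2 : ℝ) ^ expV K s j (Fin.last K) := by
    positivity
  calc (nm s.2.2 : ℝ) ^ cost (expV K s) j univ * (nm s.2.2 : ℝ) ^ expV K s j (Fin.last K) *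
        (1 + (nm s.2.2 : ℝ) ^ (cost (expV K s) j univ * (3 / 2) - cost (expW K s) r F))
      ≤ (nm s.2.2 : ℝ) ^ cost (expV K s) j univ * (nm s.2.2 : ℝ) ^ expV K s j (Fin.last K) *
        (2 * (nm s.2.2 : ℝ) ^ (max 0 (3 / 2 * cost (expV K s) j univ - cost (expW K s) r F))) := by
        apply mul_le_mul_of_nonneg_left _ e3
        linarith
    _ = _ := by ring

theorem pfg_lift (K : ℕ) (hK : 4 ≤ K) (n : Gi) (F : Finset (Fin 5)) :
    pfg K n (lift K F) = pfg 4 n F := by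
  unfold pfg lift
  ext p
  simp only [mem_filter, mem_univ, true_and]
  have e : (⟨min ((cls K (vv n p) : Fin (K + 1)) : ℕ) 4, by omega⟩ : Fin 5) =
      cls 4 (vv n p) := by
    apply Fin.ext
    simp only [cls]
    omega
  rw [e]

theorem rd_lift (K : ℕ) (hK : 4 ≤ K) (n : Gi) (F : Finset (Fin 5)) :
    rd K n (lift K F) = rd 4 n F := by
  unfold rd rdg
  rw [pfg_lift K hK]

theorem pt_lift (K : ℕ) (hK : 4 ≤ K) (n : Gi) (F : Finset (Fin 5)) :
    pt K n (lift K F) = pt 4 n F := by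
  unfold pt ptg
  rw [pfg_lift K hK]

theorem costV_lift (K : ℕ) (hK : 4 ≤ K) {s : Gi × Gi × Gi}
    (h : Trp s) (j : Fin 3) (F : Finset (Fin 5)) :
    cost (expV K s) j (lift K F) = cost (expV 4 s) j F := by
  have hc : (2 : ℝ) ≤ nm s.2.2 := by exact_mod_cast two_le_c h
  apply cost_eq_of (c := (nm s.2.2 : ℝ)) (by linarith)
  rw [← rd_eq K h, ← rd_eq 4 h, rd_lift K hK]

theorem costW_lift (K : ℕ) (hK : 4 ≤ K) {s : Gi × Gi × Gi}
    (h : Trp s) (j : Fin 3) (F : Finset (Fin 5)) :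
    cost (expW K s) j (lift K F) = cost (expW 4 s) j F := by
  have hc : (2 : ℝ) ≤ nm s.2.2 := by exact_mod_cast two_le_c h
  apply cost_eq_of (c := (nm s.2.2 : ℝ)) (by linarith)
  rw [← pt_eq K h, ← pt_eq 4 h, pt_lift K hK]

/-- bound for all double cells -/
def StmtCells2 (lam θ : ℝ) : Prop :=
  ∀ ε : ℝ, 0 < ε → ∃ (K : ℕ) (D : ℝ), 0 < D ∧ ∀ T : Finset (Gi × Gi × Gi), Cell K T → Cell 4 T →
    (∀ s ∈ T, (rad s.1 : ℝ) * rad s.2.1 * rad s.2.2 ≤ (nm s.2.2 : ℝ) ^ lam) → ∀ s ∈ T,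
    (T.card : ℝ) ≤ D * (nm s.2.2 : ℝ) ^ (θ + ε)

theorem cell_bound (lam θ : ℝ)
    (hno : ∀ δ : ℝ, 0 ≤ δ → ∀ v w : Fin 3 → Fin 5 → ℝ, Poly 4 lam δ v w →
      Fail v w (θ + 1000 * δ) → False) : StmtCells2 lam θ := by
  intro ε hε
  set K : ℕ := max 4 ⌈2 / ε⌉₊ with hK
  have hK4 : 4 ≤ K := le_max_left _ _
  have hKε : 1 / ((K : ℝ) + 1) ≤ ε / 2 := by
    have h1 : 2 / ε ≤ (K : ℝ) := (Nat.le_ceil _).trans (by exact_mod_cast le_max_right _ _)
    rw [div_le_iff₀ hε] at h1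
    rw [div_le_div_iff₀ (by positivity) (by norm_num)]
    nlinarith
  obtain ⟨D₁, hD₁, H₁⟩ := stmtMcell 4 (ε / 2) (by positivity)
  obtain ⟨D₂, hD₂, H₂⟩ := stmtEst K (ε / 2) (by positivity)
  obtain ⟨D₃, hD₃, H₃⟩ := stmtDc 4 (ε / 2) (by positivity)
  refine ⟨K, 2 * (D₁ + D₂ + D₃) * Real.exp (1000 * Real.log 4), by positivity, ?_⟩
  intro T hT hT4 hrad s hs
  have h := hT.abc s hs
  have hc2 : (2 : ℝ) ≤ nm s.2.2 := by exact_mod_cast two_le_c h
  have hc : (0 : ℝ) < nm s.2.2 := by linarith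
  have hc1 : (1 : ℝ) ≤ nm s.2.2 := by linarith
  have hlog : 0 < Real.log (nm s.2.2) := Real.log_pos (by linarith)
  have hpoly := poly_of 4 lam h (hrad s hs)
  have hpolyK := poly_of K lam h (hrad s hs)
  have hδ : 0 ≤ Real.log 4 / Real.log (nm s.2.2) :=
    div_nonneg (Real.log_nonneg (by norm_num)) hlog.le
  set δ : ℝ := Real.log 4 / Real.log (nm s.2.2) with hδd
  by_contra hcon
  push Not at hcon
  have hEx : 0 < Real.exp (1000 * Real.log 4) := Real.exp_pos _
  set B : ℝ := Real.exp (1000 * Real.log 4) * (nm s.2.2 : ℝ) ^ (θ + ε / 2) with hB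
  have hB0 : 0 < B := mul_pos hEx (Real.rpow_pos_of_pos hc _)
  have hpw : ∀ y : ℝ, y ≤ θ + 1000 * δ + ε / 2 → (nm s.2.2 : ℝ) ^ y ≤ B := by
    intro y hy
    calc (nm s.2.2 : ℝ) ^ y ≤ (nm s.2.2 : ℝ) ^ ((θ + ε / 2) + 1000 * δ) :=
          Real.rpow_le_rpow_of_exponent_le hc1 (by linarith)
      _ = B := by
          rw [Real.rpow_add hc, mul_comm, hB]
          congr 1
          rw [Real.rpow_def_of_pos hc]
          congr 1
          rw [hδd]
          field_simp
  have hcε : 0 < (nm s.2.2 : ℝ) ^ (ε / 2) := Real.rpow_pos_of_pos hc _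
  have hfin : ∀ D : ℝ, 0 < D → D ≤ D₁ + D₂ + D₃ → ∀ y : ℝ, y ≤ 2 * B →
      (T.card : ℝ) ≤ D * (nm s.2.2 : ℝ) ^ (ε / 2) * y → False := by
    intro D hD0 hDle y hy hcard
    have h1 : (T.card : ℝ) ≤ 2 * (D₁ + D₂ + D₃) * Real.exp (1000 * Real.log 4) *
        (nm s.2.2 : ℝ) ^ (θ + ε) := by
      calc (T.card : ℝ) ≤ D * (nm s.2.2 : ℝ) ^ (ε / 2) * y := hcard
        _ ≤ D * (nm s.2.2 : ℝ) ^ (ε / 2) * (2 * B) :=
            mul_le_mul_of_nonneg_left hy (by positivity)
        _ ≤ (D₁ + D₂ + D₃) * (nm s.2.2 : ℝ) ^ (ε / 2) * (2 * B) := by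
            apply mul_le_mul_of_nonneg_right _ (by positivity)
            exact mul_le_mul_of_nonneg_right hDle hcε.le
        _ = 2 * (D₁ + D₂ + D₃) * Real.exp (1000 * Real.log 4) *
          (nm s.2.2 : ℝ) ^ (θ + ε) := by
            have e : (nm s.2.2 : ℝ) ^ (θ + ε) =
                (nm s.2.2 : ℝ) ^ (ε / 2) * (nm s.2.2 : ℝ) ^ (θ + ε / 2) := by
              rw [← Real.rpow_add hc]
              congr 1
              ring
            rw [e, hB]
            ring
    linarith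
  refine hno δ hδ (expV 4 s) (expW 4 s) hpoly ⟨?_, ?_, ?_⟩
  · intro p q r h1 h2 h3 k hk1 hk2 Sp Sq F hp hq
    by_contra hc'
    push Not at hc'
    obtain ⟨b1, b2⟩ := hc'
    refine hfin D₁ hD₁ (by linarith) _ ?_
      ((H₁ T hT4 s hs p q r h1 h2 h3 k hk1 hk2 Sp Sq F hp hq).trans (le_of_eq (mul_assoc _ _ _)))
    rw [rd_eq 4 h, rd_eq 4 h, rd_eq 4 h, pt_eq 4 h, pt_eq 4 h, pt_eq 4 h,
      th_eq 4 h, ← Real.rpow_add hc, ← Real.rpow_add hc, ← Real.rpow_add hc,
      ← Real.rpow_mul hc.le, ← Real.rpow_add hc, ← Real.rpow_sub hc, mul_add, mul_one,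
      ← Real.rpow_add hc]
    have c1 := hpw _ (b1.trans (by linarith))
    have c2 := hpw (cost (expV 4 s) p Spᶜ + cost (expV 4 s) q Sqᶜ + cost (expV 4 s) r F +
      (-thn (expW 4 s) r + (cost (expW 4 s) p Sp + cost (expW 4 s) q Sq) * (1 / (k : ℝ)) -
        cost (expW 4 s) r F)) (by
          have : (cost (expW 4 s) p Sp + cost (expW 4 s) q Sq) * (1 / (k : ℝ)) =
            (cost (expW 4 s) p Sp + cost (expW 4 s) q Sq) / k := by ring
          rw [this]
          linarith)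
    linarith
  · intro p q r h1 h2 h3 F
    by_contra hc'
    push Not at hc'
    have hbound := H₂ T hT s hs p q r h1 h2 h3 (lift K F)
    rw [mul_assoc (D₂ * (nm s.2.2 : ℝ) ^ (ε / 2))] at hbound
    refine hfin D₂ hD₂ (by linarith) _ ?_ hbound
    have hs1 := side_le K h r p (lift K F)
    have hs2 := side_le K h r q (lift K F)
    rw [← lift_univ K, costV_lift K hK4 h, costW_lift K hK4 h] at hs1 hs2
    have hlp := Pool.Agent.H705R2.ABC.NumM.last_le lam δ (expV K s) (expW K s) hpolyK p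
    have hlq := Pool.Agent.H705R2.ABC.NumM.last_le lam δ (expV K s) (expW K s) hpolyK q
    set ap : ℝ := cost (expV 4 s) p univ + expV K s p (Fin.last K) +
      max 0 (3 / 2 * cost (expV 4 s) p univ - cost (expW 4 s) r F) with hap
    set aq : ℝ := cost (expV 4 s) q univ + expV K s q (Fin.last K) +
      max 0 (3 / 2 * cost (expV 4 s) q univ - cost (expW 4 s) r F) with haq
    have e1 : (side K s r p (lift K F) * side K s r q (lift K F)) ^ ((1 : ℝ) / 2) ≤
        2 * (nm s.2.2 : ℝ) ^ ((1 / 2) * (ap + aq)) := by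
      calc (side K s r p (lift K F) * side K s r q (lift K F)) ^ ((1 : ℝ) / 2) ≤
          ((2 * (nm s.2.2 : ℝ) ^ ap) * (2 * (nm s.2.2 : ℝ) ^ aq)) ^ ((1 : ℝ) / 2) := by
            apply Real.rpow_le_rpow
              (mul_nonneg (side_nonneg _ _ _ _ _) (side_nonneg _ _ _ _ _)) _ (by norm_num)
            exact mul_le_mul hs1 hs2 (side_nonneg _ _ _ _ _) (by positivity)
        _ = (2 ^ 2 * (nm s.2.2 : ℝ) ^ (ap + aq)) ^ ((1 : ℝ) / 2) := by
            rw [Real.rpow_add hc ap aq]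
            congr 1
            ring
        _ = 2 * (nm s.2.2 : ℝ) ^ ((1 / 2) * (ap + aq)) := by
            have e4 : ((2 : ℝ) ^ 2) ^ ((1 : ℝ) / 2) = 2 := by
              rw [← Real.sqrt_eq_rpow, Real.sqrt_sq (by norm_num)]
            rw [Real.mul_rpow (by positivity) (by positivity), ← Real.rpow_mul hc.le, e4,
              mul_comm (ap + aq)]
    have e2 : (rd K (num s r) (lift K F) : ℝ) = (nm s.2.2 : ℝ) ^ cost (expV 4 s) r F := by
      rw [rd_lift K hK4, rd_eq 4 h]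
    rw [e2]
    calc (nm s.2.2 : ℝ) ^ cost (expV 4 s) r F *
          (side K s r p (lift K F) * side K s r q (lift K F)) ^ ((1 : ℝ) / 2)
        ≤ (nm s.2.2 : ℝ) ^ cost (expV 4 s) r F * (2 * (nm s.2.2 : ℝ) ^ ((1 / 2) * (ap + aq))) :=
          mul_le_mul_of_nonneg_left e1 (Real.rpow_nonneg hc.le _)
      _ = 2 * (nm s.2.2 : ℝ) ^ (cost (expV 4 s) r F + (1 / 2) * (ap + aq)) := by
          rw [Real.rpow_add hc]
          ring
      _ ≤ 2 * B := by
          apply mul_le_mul_of_nonneg_left _ (by norm_num)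
          apply hpw
          rw [hap, haq]
          linarith
  · intro p q r h1 h2 h3 i hi1 hi2
    by_contra hc'
    push Not at hc'
    obtain ⟨b1, b2⟩ := hc'
    refine hfin D₃ hD₃ (by linarith) _ ?_ (H₃ T hT4 s hs p q r h1 h2 h3 i hi1 hi2)
    rw [rd_eq 4 h, rd_eq 4 h, rd_eq 4 h, ← Real.rpow_add hc, ← Real.rpow_mul hc.le,
      ← Real.rpow_add hc]
    have c1 := hpw _ (b1.trans (by linarith))
    have c2 := hpw ((cost (expV 4 s) p {i}ᶜ + cost (expV 4 s) q univ) * (1 / 2) +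
      cost (expV 4 s) r univ) (by linarith)
    linarith

/-- level `6/11 + max (lam - 1) 0` -/
theorem cells_a (lam : ℝ) : StmtCells2 lam (6 / 11 + max (lam - 1) 0) := by
  refine cell_bound lam _ ?_
  intro δ hδ v w hP hf
  have h1 := le_max_left (lam - 1) 0
  exact Pool.Agent.H705R2.ABC2.no_fail' lam (max (lam - 1) 0) δ (le_max_right _ _) hδ
    (by linarith) v w hP hf

/-- level `4 lam / 7` for `9/10 ≤ lam ≤ 1` -/
theorem cells_b (lam : ℝ) (h : 9 / 10 ≤ lam) (h1 : lam ≤ 1) : StmtCells2 lam (4 * lam / 7) := by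
  refine cell_bound lam _ ?_
  intro δ hδ v w hP hf
  refine Pool.Agent.H705R2.ABC3.no_fail3 lam (1 - lam) δ (by linarith) (by linarith) hδ
    (by linarith) v w hP ?_
  have e : 4 / 7 - 4 / 7 * (1 - lam) + 1000 * δ = 4 * lam / 7 + 1000 * δ := by ring
  rw [e]
  exact hf

/-- the trivial bound -/
theorem tr (K : ℕ) (ε : ℝ) (hε : 0 < ε) : ∃ D : ℝ, 0 < D ∧ ∀ T : Finset (Gi × Gi × Gi),
    Cell K T → ∀ s ∈ T, ∀ p q : Fin 3, p ≠ q → (T.card : ℝ) ≤ D * (nm s.2.2 : ℝ) ^ ε *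
      ((rd K (num s p) univ : ℝ) * rd K (num s q) univ) := by
  obtain ⟨D, hD, H⟩ := stmtMcell K ε hε
  refine ⟨2 * D, by positivity, ?_⟩
  intro T hT s hs p q hpq
  obtain ⟨r, hqr, hpr⟩ := third_ne hpq
  have h := H T hT s hs p q r hpq hqr hpr 1 le_rfl (by omega) ∅ ∅ ∅ (fun i hi => by simp at hi)
    (fun i hi => by simp at hi)
  have e1 : ∀ x : Gi, rd K x ∅ = 1 := fun x => by simp [rd, rdg, pfg, nm_one]
  have e2 : ∀ x : Gi, pt K x ∅ = 1 := fun x => by simp [pt, ptg, pfg, nm_one]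
  rw [e1, e2, e2, e2, Finset.compl_empty] at h
  have hth : th s r ≤ 1 := by
    unfold th
    split_ifs
    · have hT' := hT.abc s hs
      have h0 : (0 : ℝ) < nm s.2.2 := by exact_mod_cast nm_pos hT'.n2
      rw [div_le_one h0]
      exact_mod_cast hT'.l01.trans hT'.l12
    · exact le_rfl
  simp only [Nat.cast_one, mul_one, div_one, Real.one_rpow] at h
  have hA : 0 ≤ D * (nm s.2.2 : ℝ) ^ ε *
      ((rd K (num s p) univ : ℝ) * rd K (num s q) univ) := by positivity
  nlinarith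

/-- level `4 lam / 7` for `lam ≤ 9/10` -/
theorem cells_c (lam : ℝ) (hlam0 : 0 < lam) (hlam1 : lam ≤ 9 / 10) :
    StmtCells2 lam (4 * lam / 7) := by
  intro ε hε
  obtain ⟨K₀, C, hC, hnum⟩ := Pool.Agent.H705R2.ABC.stmtNum lam hlam0 hlam1
  set K : ℕ := max K₀ ⌈2 / ε⌉₊ with hK
  have hKε : 1 / ((K : ℝ) + 1) ≤ ε / 2 := by
    have h1 : 2 / ε ≤ (K : ℝ) := (Nat.le_ceil _).trans (by exact_mod_cast le_max_right _ _)
    rw [div_le_iff₀ hε] at h1
    rw [div_le_div_iff₀ (by positivity) (by norm_num)]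
    nlinarith
  obtain ⟨D₁, hD₁, H₁⟩ := tr K (ε / 2) (by positivity)
  obtain ⟨D₂, hD₂, H₂⟩ := stmtEst K (ε / 2) (by positivity)
  obtain ⟨D₃, hD₃, H₃⟩ := stmtDc K (ε / 2) (by positivity)
  refine ⟨K, 2 * (D₁ + D₂ + D₃) * Real.exp (C * Real.log 4), by positivity, ?_⟩
  intro T hT _ hrad s hs
  have h := hT.abc s hs
  have hc2 : (2 : ℝ) ≤ nm s.2.2 := by exact_mod_cast two_le_c h
  have hc : (0 : ℝ) < nm s.2.2 := by linarith
  have hc1 : (1 : ℝ) ≤ nm s.2.2 := by linarith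
  have hlog : 0 < Real.log (nm s.2.2) := Real.log_pos (by linarith)
  have hpoly := poly_of K lam h (hrad s hs)
  have hδ : 0 ≤ Real.log 4 / Real.log (nm s.2.2) :=
    div_nonneg (Real.log_nonneg (by norm_num)) hlog.le
  have hEx : 0 < Real.exp (C * Real.log 4) := Real.exp_pos _
  set B : ℝ := Real.exp (C * Real.log 4) * (nm s.2.2 : ℝ) ^ (4 * lam / 7 + ε / 2) with hB
  have hB0 : 0 < B := mul_pos hEx (Real.rpow_pos_of_pos hc _)
  have hpw : ∀ x : ℝ, x ≤ 4 * lam / 7 + 1 / ((K : ℝ) + 1) + C * (Real.log 4 / Real.log (nm s.2.2)) →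
      (nm s.2.2 : ℝ) ^ x ≤ B := by
    intro x hx
    calc (nm s.2.2 : ℝ) ^ x ≤
        (nm s.2.2 : ℝ) ^ ((4 * lam / 7 + ε / 2) + C * (Real.log 4 / Real.log (nm s.2.2))) :=
          Real.rpow_le_rpow_of_exponent_le hc1 (by linarith)
      _ = B := by
          rw [Real.rpow_add hc, mul_comm, hB]
          congr 1
          rw [Real.rpow_def_of_pos hc]
          congr 1
          field_simp
  have hpw' : ∀ x : ℝ, x ≤ 4 * lam / 7 + C * (Real.log 4 / Real.log (nm s.2.2)) →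
      (nm s.2.2 : ℝ) ^ x ≤ B := by
    intro x hx
    apply hpw
    have : 0 ≤ 1 / ((K : ℝ) + 1) := by positivity
    linarith
  have hcε : 0 < (nm s.2.2 : ℝ) ^ (ε / 2) := Real.rpow_pos_of_pos hc _
  have hfin : ∀ D : ℝ, 0 < D → D ≤ D₁ + D₂ + D₃ → ∀ y : ℝ, y ≤ 2 * B →
      (T.card : ℝ) ≤ D * (nm s.2.2 : ℝ) ^ (ε / 2) * y →
      (T.card : ℝ) ≤ 2 * (D₁ + D₂ + D₃) * Real.exp (C * Real.log 4) *
        (nm s.2.2 : ℝ) ^ (4 * lam / 7 + ε) := by
    intro D hD0 hDle y hy hcard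
    calc (T.card : ℝ) ≤ D * (nm s.2.2 : ℝ) ^ (ε / 2) * y := hcard
      _ ≤ D * (nm s.2.2 : ℝ) ^ (ε / 2) * (2 * B) :=
          mul_le_mul_of_nonneg_left hy (by positivity)
      _ ≤ (D₁ + D₂ + D₃) * (nm s.2.2 : ℝ) ^ (ε / 2) * (2 * B) := by
          apply mul_le_mul_of_nonneg_right _ (by positivity)
          exact mul_le_mul_of_nonneg_right hDle hcε.le
      _ = 2 * (D₁ + D₂ + D₃) * Real.exp (C * Real.log 4) *
        (nm s.2.2 : ℝ) ^ (4 * lam / 7 + ε) := by
          have e : (nm s.2.2 : ℝ) ^ (4 * lam / 7 + ε) =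
              (nm s.2.2 : ℝ) ^ (ε / 2) * (nm s.2.2 : ℝ) ^ (4 * lam / 7 + ε / 2) := by
            rw [← Real.rpow_add hc]
            congr 1
            ring
          rw [e, hB]
          ring
  rcases hnum K (le_max_left _ _) _ _ _ hδ hpoly with
    ⟨p, q, hpq, hb⟩ | ⟨p, q, r, h1, h2, h3, F, hb⟩ | ⟨p, q, r, h1, h2, h3, i, hi1, hi2, hb1, hb2⟩
  · refine hfin D₁ hD₁ (by linarith) _ ?_ (H₁ T hT s hs p q hpq)
    rw [rd_eq K h, rd_eq K h, ← Real.rpow_add hc]
    have := hpw' _ hb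
    linarith
  · have hbound := H₂ T hT s hs p q r h1 h2 h3 F
    rw [mul_assoc (D₂ * (nm s.2.2 : ℝ) ^ (ε / 2))] at hbound
    refine hfin D₂ hD₂ (by linarith) _ ?_ hbound
    set ap : ℝ := cost (expV K s) p univ + expV K s p (Fin.last K) +
      max 0 (3 / 2 * cost (expV K s) p univ - cost (expW K s) r F) with hap
    set aq : ℝ := cost (expV K s) q univ + expV K s q (Fin.last K) +
      max 0 (3 / 2 * cost (expV K s) q univ - cost (expW K s) r F) with haq
    have e1 : (side K s r p F * side K s r q F) ^ ((1 : ℝ) / 2) ≤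
        2 * (nm s.2.2 : ℝ) ^ ((1 / 2) * (ap + aq)) := by
      calc (side K s r p F * side K s r q F) ^ ((1 : ℝ) / 2) ≤
          ((2 * (nm s.2.2 : ℝ) ^ ap) * (2 * (nm s.2.2 : ℝ) ^ aq)) ^ ((1 : ℝ) / 2) := by
            apply Real.rpow_le_rpow (mul_nonneg (side_nonneg _ _ _ _ _) (side_nonneg _ _ _ _ _))
              _ (by norm_num)
            exact mul_le_mul (side_le K h r p F) (side_le K h r q F)
              (side_nonneg _ _ _ _ _) (by positivity)
        _ = (2 ^ 2 * (nm s.2.2 : ℝ) ^ (ap + aq)) ^ ((1 : ℝ) / 2) := by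
            rw [Real.rpow_add hc ap aq]
            congr 1
            ring
        _ = 2 * (nm s.2.2 : ℝ) ^ ((1 / 2) * (ap + aq)) := by
            have e4 : ((2 : ℝ) ^ 2) ^ ((1 : ℝ) / 2) = 2 := by
              rw [← Real.sqrt_eq_rpow, Real.sqrt_sq (by norm_num)]
            rw [Real.mul_rpow (by positivity) (by positivity), ← Real.rpow_mul hc.le, e4,
              mul_comm (ap + aq)]
    calc (rd K (num s r) F : ℝ) * (side K s r p F * side K s r q F) ^ ((1 : ℝ) / 2) ≤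
        (rd K (num s r) F : ℝ) * (2 * (nm s.2.2 : ℝ) ^ ((1 / 2) * (ap + aq))) :=
          mul_le_mul_of_nonneg_left e1 (by positivity)
      _ = 2 * (nm s.2.2 : ℝ) ^ (cost (expV K s) r F + (1 / 2) * (ap + aq)) := by
          rw [rd_eq K h, Real.rpow_add hc]
          ring
      _ ≤ 2 * B := by
          have := hpw _ hb
          linarith
  · refine hfin D₃ hD₃ (by linarith) _ ?_ (H₃ T hT s hs p q r h1 h2 h3 i hi1 hi2)
    rw [rd_eq K h, rd_eq K h, rd_eq K h, ← Real.rpow_add hc, ← Real.rpow_mul hc.le,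
      ← Real.rpow_add hc]
    have f1 := hpw' _ hb1
    have f2 := hpw' _ hb2
    have e : (cost (expV K s) p {i}ᶜ + cost (expV K s) q univ) * (1 / 2) + cost (expV K s) r univ =
        (1 / 2) * (cost (expV K s) p {i}ᶜ + cost (expV K s) q univ) + cost (expV K s) r univ := by
      ring
    rw [e]
    linarith

/-- level `4 lam / 7` for `0 < lam ≤ 1` -/
theorem cells_d (lam : ℝ) (h0 : 0 < lam) (h1 : lam ≤ 1) : StmtCells2 lam (4 * lam / 7) := by
  rcases le_total lam (9 / 10) with h | h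
  · exact cells_c lam h0 h
  · exact cells_b lam h h1

end Pool.Agent.W17.AB
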