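import Mathlib
import Pool.Agent.W17.AB.Cells
import Pool.Agent.H785R2.ABC.Final

/-!
# abc over the Gaussian integers: the final count
-/

namespace Pool.Agent.W17.AB

open Finset
open Pool.Agent.H785R2.ABC.Fin1 (log_le log_eq_le)

noncomputable local instance instNMF : StrongNormalizationMonoid Gi :=
  UniqueFactorizationMonoid.strongNormalizationMonoid

noncomputable local instance instDecF : DecidableEq Gi := Classical.decEq _

/-- the signature -/
noncomputable def sg (K : ℕ) (t : Gi × Gi × Gi) : Fin 3 → Fin (K + 1) → ℕ × ℕ := fun j i =>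
  (Nat.log 2 (rd K (num t j) {i}), Nat.log 2 (pt K (num t j) {i}))

theorem cell_of (K : ℕ) (T : Finset (Gi × Gi × Gi))
    (habc : ∀ s ∈ T, Trp s) (hsg : ∀ s ∈ T, ∀ s' ∈ T, sg K s = sg K s') : Cell K T := by
  have hpow : ∀ S : Finset (Fin (K + 1)), 2 ^ S.card ≤ 2 ^ (K + 1) := by
    intro S
    apply Nat.pow_le_pow_right (by norm_num)
    have := S.card_le_univ
    simpa using this
  refine ⟨habc, ?_, ?_⟩
  · intro s hs s' hs' j S
    have h := hsg s hs s' hs'
    rw [rd_prod (num s j) S, rd_prod (num s' j) S]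
    calc ∏ i ∈ S, rd K (num s j) {i} ≤ ∏ i ∈ S, 2 * rd K (num s' j) {i} := by
          apply Finset.prod_le_prod'
          intro i _
          have e : Nat.log 2 (rd K (num s j) {i}) = Nat.log 2 (rd K (num s' j) {i}) :=
            congrArg Prod.fst (congrFun (congrFun h j) i)
          exact log_eq_le _ _ (rd_pos _ _) e
      _ = 2 ^ S.card * ∏ i ∈ S, rd K (num s' j) {i} := by
          rw [Finset.prod_mul_distrib, Finset.prod_const]
      _ ≤ _ := Nat.mul_le_mul_right _ (hpow S)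
  · intro s hs s' hs' j S
    have h := hsg s hs s' hs'
    rw [pt_prod (num s j) S, pt_prod (num s' j) S]
    calc ∏ i ∈ S, pt K (num s j) {i} ≤ ∏ i ∈ S, 2 * pt K (num s' j) {i} := by
          apply Finset.prod_le_prod'
          intro i _
          have e0 : (sg K s j i).2 = (sg K s' j i).2 := by rw [h]
          have e : Nat.log 2 (pt K (num s j) {i}) = Nat.log 2 (pt K (num s' j) {i}) := e0
          exact log_eq_le _ _ (pt_pos _ _) e
      _ = 2 ^ S.card * ∏ i ∈ S, pt K (num s' j) {i} := by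
          rw [Finset.prod_mul_distrib, Finset.prod_const]
      _ ≤ _ := Nat.mul_le_mul_right _ (hpow S)

/-- one cell -/
theorem cell_card (lam θ : ℝ) (hθ : 0 ≤ θ) (h : StmtCells2 lam θ) (ε : ℝ)
    (hε : 0 < ε) :
    ∃ (K : ℕ) (D : ℝ), 0 < D ∧ ∀ X : ℕ, 1 ≤ X → ∀ T : Finset (Gi × Gi × Gi),
      (∀ s ∈ T, Trp s ∧ nm s.2.2 ≤ X ∧
        (rad s.1 : ℝ) * rad s.2.1 * rad s.2.2 ≤ (nm s.2.2 : ℝ) ^ lam) →
      (∀ s ∈ T, ∀ s' ∈ T, sg K s = sg K s') → (∀ s ∈ T, ∀ s' ∈ T, sg 4 s = sg 4 s') →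
      (T.card : ℝ) ≤ D * (X : ℝ) ^ (θ + ε) := by
  obtain ⟨K, D, hD, hc⟩ := h ε hε
  refine ⟨K, D, hD, ?_⟩
  intro X hX T hT hsg hsg4
  rcases T.eq_empty_or_nonempty with h0 | ⟨s, hs⟩
  · subst h0
    simp only [card_empty, Nat.cast_zero]
    positivity
  · have hcell := cell_of K T (fun s hs => (hT s hs).1) hsg
    have hcell4 := cell_of 4 T (fun s hs => (hT s hs).1) hsg4
    refine (hc T hcell hcell4 (fun s hs => (hT s hs).2.2) s hs).trans ?_
    refine mul_le_mul_of_nonneg_left ?_ hD.le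
    exact Real.rpow_le_rpow (Nat.cast_nonneg _) (by exact_mod_cast (hT s hs).2.1) (by linarith)

/-- the count for ordered triples -/
theorem count_ord (lam θ : ℝ) (hθ : 0 ≤ θ) (h : StmtCells2 lam θ) (ε : ℝ) (hε : 0 < ε) :
    ∃ C : ℝ, 0 < C ∧ ∀ X : ℕ, 1 ≤ X → ∀ A : Finset (Gi × Gi × Gi),
      (∀ t ∈ A, Trp t ∧ nm t.2.2 ≤ X ∧
        (rad t.1 : ℝ) * rad t.2.1 * rad t.2.2 ≤ (nm t.2.2 : ℝ) ^ lam) →
      (A.card : ℝ) ≤ C * (X : ℝ) ^ (θ + ε) := by
  classical
  obtain ⟨K, D, hD, hcell⟩ := cell_card lam θ hθ h (ε / 2) (by positivity)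
  set m : ℕ := 2 * ((K + 1) * 3) + 2 * ((4 + 1) * 3) with hm
  have hmpos : (0 : ℝ) < m := by
    rw [hm]; positivity
  set η : ℝ := ε / 2 / m with hη
  have hηpos : 0 < η := by rw [hη]; positivity
  refine ⟨(1 + 2 / η) ^ m * D, by positivity, ?_⟩
  intro X hX A hAm
  have hX' : (1 : ℝ) ≤ X := by exact_mod_cast hX
  have hXp : (0 : ℝ) < X := by linarith
  set L := Nat.log 2 X with hL
  -- signatures
  have hsgle : ∀ K : ℕ, ∀ t ∈ A, ∀ j i, (sg K t j i).1 ≤ L ∧ (sg K t j i).2 ≤ L := by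
    intro K t ht j i
    obtain ⟨h1, h2, _⟩ := hAm t ht
    have hn := num_ne h1 j
    have hnX : nm (num t j) ≤ X := (num_le h1 j).trans h2
    constructor
    · change Nat.log 2 (rd K (num t j) {i}) ≤ Nat.log 2 X
      exact Nat.log_mono_right ((rd_le hn _).trans hnX)
    · change Nat.log 2 (pt K (num t j) {i}) ≤ Nat.log 2 X
      exact Nat.log_mono_right ((pt_le hn _).trans hnX)
  set sgF : (K : ℕ) → (Gi × Gi × Gi) → (Fin 3 → Fin (K + 1) → Fin (L + 1) × Fin (L + 1)) :=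
    fun K t j i => (Fin.ofNat (L + 1) (sg K t j i).1, Fin.ofNat (L + 1) (sg K t j i).2) with hsgF
  have hinj : ∀ K : ℕ, ∀ t ∈ A, ∀ t' ∈ A, sgF K t = sgF K t' → sg K t = sg K t' := by
    intro K t ht t' ht' h
    funext j i
    have h1 := congrFun (congrFun h j) i
    simp only [hsgF, Prod.mk.injEq] at h1
    have a1 := hsgle K t ht j i
    have a2 := hsgle K t' ht' j i
    have b1 := congrArg Fin.val h1.1
    have b2 := congrArg Fin.val h1.2
    simp only [Fin.ofNat] at b1 b2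
    rw [Nat.mod_eq_of_lt (by omega), Nat.mod_eq_of_lt (by omega)] at b1 b2
    exact Prod.ext b1 b2
  have hA1card : (A.card : ℝ) ≤ ((L + 1 : ℕ) : ℝ) ^ m * (D * (X : ℝ) ^ (θ + ε / 2)) := by
    have h1 := card_eq_sum_card_fiberwise (f := fun t => (sgF K t, sgF 4 t)) (s := A) (t := univ)
      (fun _ _ => mem_coe.2 (mem_univ _))
    rw [h1]
    push_cast
    calc ∑ σ : (Fin 3 → Fin (K + 1) → Fin (L + 1) × Fin (L + 1)) ×
            (Fin 3 → Fin (4 + 1) → Fin (L + 1) × Fin (L + 1)),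
          ((A.filter (fun t => (sgF K t, sgF 4 t) = σ)).card : ℝ)
        ≤ ∑ σ : (Fin 3 → Fin (K + 1) → Fin (L + 1) × Fin (L + 1)) ×
            (Fin 3 → Fin (4 + 1) → Fin (L + 1) × Fin (L + 1)), D * (X : ℝ) ^ (θ + ε / 2) := by
          apply sum_le_sum
          intro σ _
          apply hcell X hX
          · intro s hs
            rw [mem_filter] at hs
            exact hAm s hs.1
          · intro s hs s' hs'
            rw [mem_filter] at hs hs'
            exact hinj K s hs.1 s' hs'.1 (congrArg Prod.fst (hs.2.trans hs'.2.symm))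
          · intro s hs s' hs'
            rw [mem_filter] at hs hs'
            exact hinj 4 s hs.1 s' hs'.1 (congrArg Prod.snd (hs.2.trans hs'.2.symm))
      _ = _ := by
          rw [sum_const, nsmul_eq_mul, card_univ]
          congr 1
          simp only [Fintype.card_fun, Fintype.card_prod, Fintype.card_fin]
          have e3 : ((L + 1) * (L + 1)) = (L + 1) ^ 2 := by ring
          rw [e3, ← pow_mul, ← pow_mul, ← pow_mul, ← pow_mul, ← pow_add, Nat.cast_pow]
          rw [hm]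
          push_cast
          ring
  have hLb := log_le X hX η hηpos
  have hLm : ((L + 1 : ℕ) : ℝ) ^ m ≤ (1 + 2 / η) ^ m * (X : ℝ) ^ (ε / 2) := by
    calc ((L + 1 : ℕ) : ℝ) ^ m ≤ ((1 + 2 / η) * (X : ℝ) ^ η) ^ m :=
          pow_le_pow_left₀ (Nat.cast_nonneg _) hLb m
      _ = (1 + 2 / η) ^ m * (X : ℝ) ^ (ε / 2) := by
          rw [mul_pow]
          congr 1
          rw [← Real.rpow_natCast, ← Real.rpow_mul hXp.le]
          congr 1
          rw [hη]; field_simp
  calc (A.card : ℝ) ≤ ((L + 1 : ℕ) : ℝ) ^ m * (D * (X : ℝ) ^ (θ + ε / 2)) := hA1card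
    _ ≤ ((1 + 2 / η) ^ m * (X : ℝ) ^ (ε / 2)) * (D * (X : ℝ) ^ (θ + ε / 2)) :=
        mul_le_mul_of_nonneg_right hLm (by positivity)
    _ = (1 + 2 / η) ^ m * D * (X : ℝ) ^ (θ + ε) := by
        have : (X : ℝ) ^ (θ + ε) = (X : ℝ) ^ (ε / 2) * (X : ℝ) ^ (θ + ε / 2) := by
          rw [← Real.rpow_add hXp]; congr 1; ring
        rw [this]; ring

/-- coprime triples `a + b = c` -/
structure Tri (t : Gi × Gi × Gi) : Prop where
  n0 : t.1 ≠ 0
  n1 : t.2.1 ≠ 0
  n2 : t.2.2 ≠ 0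
  sum : t.1 + t.2.1 = t.2.2
  cop : IsCoprime t.1 t.2.1

/-- largest norm -/
def mx (t : Gi × Gi × Gi) : ℕ := max (nm t.1) (max (nm t.2.1) (nm t.2.2))

theorem mx_ge (t : Gi × Gi × Gi) : nm t.1 ≤ mx t ∧ nm t.2.1 ≤ mx t ∧ nm t.2.2 ≤ mx t := by
  unfold mx
  refine ⟨le_max_left _ _, (le_max_left _ _).trans (le_max_right _ _),
    (le_max_right _ _).trans (le_max_right _ _)⟩

/-- the six orders -/
def prm (i : Fin 6) (t : Gi × Gi × Gi) : Gi × Gi × Gi :=
  if i = 0 then (t.1, t.2.1, -t.2.2) else if i = 1 then (t.2.1, t.1, -t.2.2)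
  else if i = 2 then (t.1, -t.2.2, t.2.1) else if i = 3 then (-t.2.2, t.1, t.2.1)
  else if i = 4 then (t.2.1, -t.2.2, t.1) else (-t.2.2, t.2.1, t.1)

theorem prm_inj (i : Fin 6) : Function.Injective (prm i) := by
  intro s t h
  unfold prm at h
  refine Prod.ext ?_ (Prod.ext ?_ ?_)
  all_goals
    split_ifs at h <;> simp only [Prod.mk.injEq, neg_inj] at h <;> tauto

theorem nm_neg' (x : Gi) : nm (-x) = nm x := nm_neg x

/-- some order is increasing -/
theorem prm_trp {t : Gi × Gi × Gi} (h : Tri t) : ∃ i : Fin 6, Trp (prm i t) ∧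
    nm (prm i t).2.2 = mx t := by
  obtain ⟨a, b, c⟩ := t
  obtain ⟨h0, h1, h2, hs, hc⟩ := h
  simp only at h0 h1 h2 hs hc
  have hab : IsCoprime a b := hc
  have hac : IsCoprime a (-c) := by
    rw [IsCoprime.neg_right_iff, ← hs]
    have := hab.add_mul_left_right 1
    rwa [mul_one, add_comm] at this
  have hbc : IsCoprime b (-c) := by
    rw [IsCoprime.neg_right_iff, ← hs]
    have := hab.symm.add_mul_left_right 1
    rwa [mul_one] at this
  have hz : -c ≠ 0 := neg_ne_zero.2 h2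
  have hn : nm (-c) = nm c := nm_neg c
  have e0 : prm 0 (a, b, c) = (a, b, -c) := by simp [prm]
  have e1 : prm 1 (a, b, c) = (b, a, -c) := by simp [prm]
  have e2 : prm 2 (a, b, c) = (a, -c, b) := by simp [prm]
  have e3 : prm 3 (a, b, c) = (-c, a, b) := by simp [prm]
  have e4 : prm 4 (a, b, c) = (b, -c, a) := by simp [prm]
  have e5 : prm 5 (a, b, c) = (-c, b, a) := by simp [prm]
  have hm : mx (a, b, c) = max (nm a) (max (nm b) (nm c)) := rfl
  rcases le_total (nm a) (nm b) with l1 | l1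
  · rcases le_total (nm b) (nm c) with l2 | l2
    · refine ⟨0, ?_, ?_⟩
      · rw [e0]
        exact ⟨h0, h1, hz, by simp only; linear_combination hs, hab, hac, hbc, l1, by
          simp only; omega⟩
      · rw [e0, hm]; simp only; omega
    · rcases le_total (nm a) (nm c) with l3 | l3
      · refine ⟨2, ?_, ?_⟩
        · rw [e2]
          exact ⟨h0, hz, h1, by simp only; linear_combination hs, hac, hab, hbc.symm, by
            simp only; omega, by simp only; omega⟩
        · rw [e2, hm]; simp only; omega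
      · refine ⟨3, ?_, ?_⟩
        · rw [e3]
          exact ⟨hz, h0, h1, by simp only; linear_combination hs, hac.symm, hbc.symm, hab, by
            simp only; omega, by simp only; omega⟩
        · rw [e3, hm]; simp only; omega
  · rcases le_total (nm a) (nm c) with l2 | l2
    · refine ⟨1, ?_, ?_⟩
      · rw [e1]
        exact ⟨h1, h0, hz, by simp only; linear_combination hs, hab.symm, hbc, hac, l1, by
          simp only; omega⟩
      · rw [e1, hm]; simp only; omega
    · rcases le_total (nm b) (nm c) with l3 | l3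
      · refine ⟨4, ?_, ?_⟩
        · rw [e4]
          exact ⟨h1, hz, h0, by simp only; linear_combination hs, hbc, hab.symm, hac.symm, by
            simp only; omega, by simp only; omega⟩
        · rw [e4, hm]; simp only; omega
      · refine ⟨5, ?_, ?_⟩
        · rw [e5]
          exact ⟨hz, h1, h0, by simp only; linear_combination hs, hbc.symm, hac.symm, hab.symm, by
            simp only; omega, by simp only; omega⟩
        · rw [e5, hm]; simp only; omega

theorem pfs_neg (x : Gi) : pfs (-x) = pfs x := by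
  have : -x = -1 * x := by ring
  rw [this, pfs_mul_unit (by exact isUnit_one.neg)]

theorem rad_neg (x : Gi) : rad (-x) = rad x := by
  unfold rad
  rw [pfs_neg]

theorem prm_rad (i : Fin 6) (t : Gi × Gi × Gi) :
    (rad (prm i t).1 : ℝ) * rad (prm i t).2.1 * rad (prm i t).2.2 =
      (rad t.1 : ℝ) * rad t.2.1 * rad t.2.2 := by
  unfold prm
  split_ifs <;> simp only [rad_neg] <;> ring

/-- the count for all triples -/
theorem count_tri (lam θ : ℝ) (hθ : 0 ≤ θ) (h : StmtCells2 lam θ) (ε : ℝ) (hε : 0 < ε) :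
    ∃ C : ℝ, 0 < C ∧ ∀ X : ℕ, 1 ≤ X → ∀ A : Finset (Gi × Gi × Gi),
      (∀ t ∈ A, Tri t ∧ mx t ≤ X ∧
        (rad t.1 : ℝ) * rad t.2.1 * rad t.2.2 ≤ (mx t : ℝ) ^ lam) →
      (A.card : ℝ) ≤ C * (X : ℝ) ^ (θ + ε) := by
  classical
  obtain ⟨C, hC, H⟩ := count_ord lam θ hθ h ε hε
  refine ⟨6 * C, by positivity, ?_⟩
  intro X hX A hA
  have h1 : A ⊆ (univ : Finset (Fin 6)).biUnion fun i =>
      A.filter fun t => Trp (prm i t) ∧ nm (prm i t).2.2 = mx t := by
    intro t ht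
    obtain ⟨i, hi⟩ := prm_trp (hA t ht).1
    exact mem_biUnion.2 ⟨i, mem_univ _, mem_filter.2 ⟨ht, hi⟩⟩
  have h2 : A.card ≤ ∑ i : Fin 6,
      (A.filter fun t => Trp (prm i t) ∧ nm (prm i t).2.2 = mx t).card :=
    (card_le_card h1).trans card_biUnion_le
  have h3 : ∀ i : Fin 6,
      ((A.filter fun t => Trp (prm i t) ∧ nm (prm i t).2.2 = mx t).card : ℝ) ≤
        C * (X : ℝ) ^ (θ + ε) := by
    intro i
    rw [← card_image_of_injective _ (prm_inj i)]
    refine H X hX _ ?_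
    intro t ht
    obtain ⟨u, hu, rfl⟩ := mem_image.1 ht
    obtain ⟨huA, hu1, hu2⟩ := mem_filter.1 hu
    obtain ⟨g1, g2, g3⟩ := hA u huA
    refine ⟨hu1, by rw [hu2]; exact g2, ?_⟩
    rw [prm_rad, hu2]
    exact g3
  calc (A.card : ℝ) ≤ ∑ i : Fin 6,
      ((A.filter fun t => Trp (prm i t) ∧ nm (prm i t).2.2 = mx t).card : ℝ) := by
        exact_mod_cast h2
    _ ≤ ∑ _i : Fin 6, C * (X : ℝ) ^ (θ + ε) := sum_le_sum fun i _ => h3 i
    _ = 6 * C * (X : ℝ) ^ (θ + ε) := by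
        rw [sum_const, card_univ, Fintype.card_fin]
        simp only [nsmul_eq_mul]
        push_cast
        ring


/-- the count with a constant -/
theorem count_const (lam θ η : ℝ) (hη : 0 < η) (hθ : 0 ≤ θ) (h : StmtCells2 (lam + η) θ)
    (B ε : ℝ) (hε : 0 < ε) :
    ∃ C : ℝ, 0 < C ∧ ∀ X : ℕ, 1 ≤ X → ∀ A : Finset (Gi × Gi × Gi),
      (∀ t ∈ A, Tri t ∧ mx t ≤ X ∧
        (rad t.1 : ℝ) * rad t.2.1 * rad t.2.2 ≤ B * (mx t : ℝ) ^ lam) →
      (A.card : ℝ) ≤ C * (X : ℝ) ^ (θ + ε) := by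
  classical
  obtain ⟨C, hC, H⟩ := count_tri (lam + η) θ hθ h ε hε
  set B' : ℝ := max B 1 with hB'
  have hB1 : 1 ≤ B' := le_max_right _ _
  set c0 : ℕ := ⌈B' ^ (1 / η)⌉₊ with hc0
  set W : Finset (Gi × Gi × Gi) := bx c0 ×ˢ bx c0 ×ˢ bx c0 with hW
  refine ⟨C + (W.card : ℝ), by positivity, ?_⟩
  intro X hX A hA
  have hX1 : (1 : ℝ) ≤ X := by exact_mod_cast hX
  have hsub : A ⊆ (A.filter fun t => c0 < mx t) ∪ W := by
    intro t ht
    obtain ⟨h1, h2, h3⟩ := hA t ht
    rw [mem_union]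
    by_cases hcc : c0 < mx t
    · exact Or.inl (mem_filter.2 ⟨ht, hcc⟩)
    · right
      push Not at hcc
      obtain ⟨g1, g2, g3⟩ := mx_ge t
      rw [hW, mem_product, mem_product]
      exact ⟨mem_bx.2 ⟨h1.n0, g1.trans hcc⟩, mem_bx.2 ⟨h1.n1, g2.trans hcc⟩,
        mem_bx.2 ⟨h1.n2, g3.trans hcc⟩⟩
  have h1 : A.card ≤ (A.filter fun t => c0 < mx t).card + W.card :=
    (card_le_card hsub).trans (card_union_le _ _)
  have h2 : ((A.filter fun t => c0 < mx t).card : ℝ) ≤ C * (X : ℝ) ^ (θ + ε) := by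
    refine H X hX _ ?_
    intro t ht
    obtain ⟨htA, hcc⟩ := mem_filter.1 ht
    obtain ⟨g1, g2, g3⟩ := hA t htA
    refine ⟨g1, g2, g3.trans ?_⟩
    have hM : (0 : ℝ) < mx t := by
      have : 0 < mx t := by omega
      exact_mod_cast this
    have k1 : B' ^ (1 / η) ≤ (mx t : ℝ) :=
      (Nat.le_ceil _).trans (by exact_mod_cast hcc.le)
    have k2 : B' ≤ (mx t : ℝ) ^ η := by
      have h3 := Real.rpow_le_rpow (by positivity) k1 (z := η) (by positivity)
      rw [← Real.rpow_mul (by linarith), one_div_mul_cancel hη.ne', Real.rpow_one] at h3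
      exact h3
    calc B * (mx t : ℝ) ^ lam ≤ B' * (mx t : ℝ) ^ lam :=
          mul_le_mul_of_nonneg_right (le_max_left _ _) (Real.rpow_nonneg hM.le _)
      _ ≤ (mx t : ℝ) ^ η * (mx t : ℝ) ^ lam :=
          mul_le_mul_of_nonneg_right k2 (Real.rpow_nonneg hM.le _)
      _ = (mx t : ℝ) ^ (lam + η) := by
          rw [← Real.rpow_add hM]
          congr 1
          ring
  have h3 : (W.card : ℝ) ≤ (W.card : ℝ) * (X : ℝ) ^ (θ + ε) :=
    le_mul_of_one_le_right (Nat.cast_nonneg _) (Real.one_le_rpow hX1 (by linarith))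
  calc (A.card : ℝ) ≤ ((A.filter fun t => c0 < mx t).card : ℝ) + (W.card : ℝ) := by
        exact_mod_cast h1
    _ ≤ C * (X : ℝ) ^ (θ + ε) + (W.card : ℝ) * (X : ℝ) ^ (θ + ε) := add_le_add h2 h3
    _ = _ := by ring

/-- radical as a product over representatives -/
theorem rad_prod_le {t : Gi × Gi × Gi} (h : Tri t) (S : Finset Gi)
    (h1 : ∀ Q ∈ S, Prime Q)
    (h2 : ∀ Q : Gi, Prime Q → Q ∣ t.1 * t.2.1 * t.2.2 → ∃ R ∈ S, Associated Q R) :
    rad t.1 * rad t.2.1 * rad t.2.2 ≤ ∏ Q ∈ S, nm Q := by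
  classical
  obtain ⟨a, b, c⟩ := t
  obtain ⟨n0, n1, n2, hs, hab⟩ := h
  simp only at n0 n1 n2 hs hab h2 ⊢
  have hac : IsCoprime a c := by
    rw [← hs]
    have := hab.add_mul_left_right 1
    rwa [mul_one, add_comm] at this
  have hbc : IsCoprime b c := by
    rw [← hs]
    have := hab.symm.add_mul_left_right 1
    rwa [mul_one] at this
  have hdis : ∀ x y : Gi, IsCoprime x y → Disjoint (pfs x) (pfs y) := by
    intro x y hxy
    rw [Finset.disjoint_left]
    intro p hp hq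
    exact (np_of_mem hp).1.not_isUnit (hxy.isUnit_of_dvd' (dvd_of_mem hp) (dvd_of_mem hq))
  have hdab := hdis a b hab
  have hdc : Disjoint (pfs a ∪ pfs b) (pfs c) := by
    rw [Finset.disjoint_union_left]
    exact ⟨hdis a c hac, hdis b c hbc⟩
  have e : rad a * rad b * rad c = ∏ p ∈ (pfs a ∪ pfs b) ∪ pfs c, nm p := by
    rw [prod_union hdc, prod_union hdab]
    unfold rad
    rw [nm_prod, nm_prod, nm_prod]
  rw [e]
  have hex : ∀ p ∈ (pfs a ∪ pfs b) ∪ pfs c, NP p ∧ ∃ R ∈ S, Associated p R := by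
    intro p hp
    rw [mem_union, mem_union] at hp
    have hd : NP p ∧ p ∣ a * b * c := by
      rcases hp with (hp | hp) | hp
      · exact ⟨np_of_mem hp, ((dvd_of_mem hp).mul_right b).mul_right c⟩
      · exact ⟨np_of_mem hp, ((dvd_of_mem hp).mul_left a).mul_right c⟩
      · exact ⟨np_of_mem hp, (dvd_of_mem hp).mul_left _⟩
    exact ⟨hd.1, h2 p hd.1.1 hd.2⟩
  choose! f hf using fun p hp => (hex p hp).2
  have hinj : Set.InjOn f ((pfs a ∪ pfs b) ∪ pfs c : Finset Gi) := by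
    intro p hp q hq hpq
    rw [mem_coe] at hp hq
    have a1 := (hf p hp).2
    have a2 := (hf q hq).2
    rw [hpq] at a1
    have a3 : Associated p q := a1.trans a2.symm
    have b1 := (hex p hp).1
    have b2 := (hex q hq).1
    calc p = normalize p := b1.2.symm
      _ = normalize q := normalize_eq_normalize a3.dvd a3.symm.dvd
      _ = q := b2.2
  calc ∏ p ∈ (pfs a ∪ pfs b) ∪ pfs c, nm p = ∏ p ∈ (pfs a ∪ pfs b) ∪ pfs c, nm (f p) :=
        prod_congr rfl fun p hp => nm_assoc (hf p hp).2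
    _ = ∏ R ∈ ((pfs a ∪ pfs b) ∪ pfs c).image f, nm R := (prod_image hinj).symm
    _ ≤ ∏ R ∈ S, nm R := by
        refine prod_le_prod_of_subset_of_one_le' ?_ fun R hR _ => nm_pos (h1 R hR).ne_zero
        intro R hR
        obtain ⟨p, hp, rfl⟩ := mem_image.1 hR
        exact (hf p hp).1

end Pool.Agent.W17.AB
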